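import Pool.Agent.J4.H93.SR.Defs

/-!
# Project SR (helper93), piece A1 (helper89): positive definiteness in the plane
-/

set_option autoImplicit false

open MeasureTheory Set Filter Topology

namespace Pool.Agent.J4.H93.SR

open Pool.Agent.TH478.CE

namespace A1

/-- the inversion formula with cosines -/
theorem rep {g : P → ℝ} (hg : IsRS g) (x : P) :
    g x = ∫ y : P, rft g y * Real.cos (2 * Real.pi * inner ℝ y x) := by
  have h1 : g x = rft (rft g) x := by rw [rft_rft hg]
  rw [h1]
  unfold rft
  rw [ft_eq_integral]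
  have hint : Integrable (fun y : P =>
      Complex.exp (((-2 * Real.pi * inner ℝ y x : ℝ) : ℂ) * Complex.I) * ((rft g y : ℝ) : ℂ)) := by
    refine hg.rft.integrableC.norm.mono' ?_ (Eventually.of_forall fun y => ?_)
    · have hc : Continuous (rft g) := hg.rft.continuous
      exact (by fun_prop : Continuous (fun y : P =>
        Complex.exp (((-2 * Real.pi * inner ℝ y x : ℝ) : ℂ) * Complex.I) *
          ((rft g y : ℝ) : ℂ))).aestronglyMeasurable
    · rw [norm_mul, Complex.norm_exp_ofReal_mul_I, one_mul]
  have h2 := integral_re hint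
  have h3 : (∫ y : P, Complex.exp (((-2 * Real.pi * inner ℝ y x : ℝ) : ℂ) * Complex.I) *
      ((rft g y : ℝ) : ℂ)).re = ∫ y : P, (Complex.exp (((-2 * Real.pi * inner ℝ y x : ℝ) : ℂ) *
      Complex.I) * ((rft g y : ℝ) : ℂ)).re := h2.symm
  refine Eq.trans h3 ?_
  congr 1
  funext y
  rw [Complex.re_mul_ofReal, Complex.exp_ofReal_mul_I_re]
  have : Real.cos (-2 * Real.pi * inner ℝ y x) = Real.cos (2 * Real.pi * inner ℝ y x) := by
    rw [← Real.cos_neg]
    congr 1
    ring
  rw [this, mul_comm]
  rfl

/-- integrals of cosines over the disc -/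
noncomputable def cc (r : ℝ) (y : P) : ℝ :=
  ∫ u in Metric.ball (0 : P) r, Real.cos (2 * Real.pi * inner ℝ y u)

/-- integrals of sines over the disc -/
noncomputable def ss (r : ℝ) (y : P) : ℝ :=
  ∫ u in Metric.ball (0 : P) r, Real.sin (2 * Real.pi * inner ℝ y u)

instance fin_ball (r : ℝ) : IsFiniteMeasure ((volume : Measure P).restrict (Metric.ball (0 : P) r)) :=
  ⟨by rw [Measure.restrict_apply_univ]; exact measure_ball_lt_top⟩

/-- the area of the disc -/
noncomputable def ar (r : ℝ) : ℝ := ((volume : Measure P).restrict (Metric.ball (0 : P) r)).real univ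

theorem cc_cont (r : ℝ) : Continuous (cc r) := by
  refine continuous_of_dominated (bound := fun _ => 1) (fun y => ?_) (fun y => ?_) ?_ ?_
  · exact (by fun_prop : Continuous fun u : P =>
      Real.cos (2 * Real.pi * inner ℝ y u)).aestronglyMeasurable
  · exact Eventually.of_forall fun u => by rw [Real.norm_eq_abs]; exact Real.abs_cos_le_one _
  · exact integrable_const _
  · exact Eventually.of_forall fun u => by fun_prop

theorem ss_cont (r : ℝ) : Continuous (ss r) := by
  refine continuous_of_dominated (bound := fun _ => 1) (fun y => ?_) (fun y => ?_) ?_ ?_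
  · exact (by fun_prop : Continuous fun u : P =>
      Real.sin (2 * Real.pi * inner ℝ y u)).aestronglyMeasurable
  · exact Eventually.of_forall fun u => by rw [Real.norm_eq_abs]; exact Real.abs_sin_le_one _
  · exact integrable_const _
  · exact Eventually.of_forall fun u => by fun_prop

theorem cc_le (r : ℝ) (y : P) : |cc r y| ≤ ar r := by
  have h := norm_integral_le_of_norm_le_const
    (μ := (volume : Measure P).restrict (Metric.ball (0 : P) r))
    (f := fun u : P => Real.cos (2 * Real.pi * inner ℝ y u)) (C := 1)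
    (Eventually.of_forall fun u => by rw [Real.norm_eq_abs]; exact Real.abs_cos_le_one _)
  rw [one_mul] at h
  exact h

theorem ss_le (r : ℝ) (y : P) : |ss r y| ≤ ar r := by
  have h := norm_integral_le_of_norm_le_const
    (μ := (volume : Measure P).restrict (Metric.ball (0 : P) r))
    (f := fun u : P => Real.sin (2 * Real.pi * inner ℝ y u)) (C := 1)
    (Eventually.of_forall fun u => by rw [Real.norm_eq_abs]; exact Real.abs_sin_le_one _)
  rw [one_mul] at h
  exact h

/-- integrability against a bounded continuous function -/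
theorem int_bdd {G : P → ℝ} (hG : Integrable G) (hGc : Continuous G) {k : P → ℝ}
    (hk : Continuous k) {M : ℝ} (hM : ∀ y, |k y| ≤ M) : Integrable (fun y => G y * k y) := by
  refine (hG.norm.const_mul M).mono' (hGc.mul hk).aestronglyMeasurable
    (Eventually.of_forall fun y => ?_)
  rw [norm_mul, Real.norm_eq_abs (k y)]
  nlinarith [hM y, norm_nonneg (G y)]

/-- Fubini -/
theorem swap {G : P → ℝ} (hG : Integrable G) (hGc : Continuous G) {a b : P → ℝ}
    (ha : Continuous a) (hb : Continuous b) {M : ℝ} (hM : ∀ y, |a y| ≤ M) (hM' : ∀ y, |b y| ≤ M)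
    (r : ℝ) :
    ∫ u in Metric.ball (0 : P) r, (∫ y : P, G y * (Real.cos (2 * Real.pi * inner ℝ y u) * a y +
      Real.sin (2 * Real.pi * inner ℝ y u) * b y)) =
    ∫ y : P, G y * (cc r y * a y + ss r y * b y) := by
  rw [integral_integral_swap]
  · congr 1
    funext y
    rw [integral_const_mul]
    congr 1
    rw [integral_add, integral_mul_const, integral_mul_const]
    · rfl
    · refine (integrable_const (|a y|)).mono' (by
        exact (by fun_prop : Continuous fun u : P =>
          Real.cos (2 * Real.pi * inner ℝ y u) * a y).aestronglyMeasurable)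
        (Eventually.of_forall fun u => ?_)
      rw [Real.norm_eq_abs, abs_mul]
      nlinarith [Real.abs_cos_le_one (2 * Real.pi * inner ℝ y u), abs_nonneg (a y)]
    · refine (integrable_const (|b y|)).mono' (by
        exact (by fun_prop : Continuous fun u : P =>
          Real.sin (2 * Real.pi * inner ℝ y u) * b y).aestronglyMeasurable)
        (Eventually.of_forall fun u => ?_)
      rw [Real.norm_eq_abs, abs_mul]
      nlinarith [Real.abs_sin_le_one (2 * Real.pi * inner ℝ y u), abs_nonneg (b y)]
  · have h1 : Integrable (fun z : P × P => (1 : ℝ) * (G z.2 * (2 * M)))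
        (((volume : Measure P).restrict (Metric.ball (0 : P) r)).prod volume) :=
      (integrable_const (1 : ℝ)).mul_prod (hG.mul_const (2 * M))
    refine h1.norm.mono' ?_ (Eventually.of_forall fun z => ?_)
    · exact (by
        unfold Function.uncurry
        fun_prop : Continuous (Function.uncurry fun (u y : P) =>
        G y * (Real.cos (2 * Real.pi * inner ℝ y u) * a y +
          Real.sin (2 * Real.pi * inner ℝ y u) * b y))).aestronglyMeasurable
    · obtain ⟨u, y⟩ := z
      show ‖G y * (Real.cos (2 * Real.pi * inner ℝ y u) * a y +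
          Real.sin (2 * Real.pi * inner ℝ y u) * b y)‖ ≤ ‖(1 : ℝ) * (G y * (2 * M))‖
      rw [one_mul, norm_mul, norm_mul]
      apply mul_le_mul_of_nonneg_left _ (norm_nonneg _)
      have hM0 : 0 ≤ M := (abs_nonneg _).trans (hM y)
      rw [Real.norm_eq_abs, Real.norm_eq_abs, abs_of_nonneg (by positivity : (0 : ℝ) ≤ 2 * M)]
      have e1 : |Real.cos (2 * Real.pi * inner ℝ y u) * a y| ≤ M := by
        rw [abs_mul]
        nlinarith [Real.abs_cos_le_one (2 * Real.pi * inner ℝ y u), abs_nonneg (a y), hM y,
          abs_nonneg (Real.cos (2 * Real.pi * inner ℝ y u))]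
      have e2 : |Real.sin (2 * Real.pi * inner ℝ y u) * b y| ≤ M := by
        rw [abs_mul]
        nlinarith [Real.abs_sin_le_one (2 * Real.pi * inner ℝ y u), abs_nonneg (b y), hM' y,
          abs_nonneg (Real.sin (2 * Real.pi * inner ℝ y u))]
      calc _ ≤ _ + _ := abs_add_le _ _
        _ ≤ M + M := add_le_add e1 e2
        _ = 2 * M := by ring

theorem cos_inner_sub (y v u : P) : Real.cos (2 * Real.pi * inner ℝ y (v - u)) =
    Real.cos (2 * Real.pi * inner ℝ y u) * Real.cos (2 * Real.pi * inner ℝ y v) +
      Real.sin (2 * Real.pi * inner ℝ y u) * Real.sin (2 * Real.pi * inner ℝ y v) := by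
  rw [inner_sub_right, mul_sub, Real.cos_sub]
  ring

theorem one {g : P → ℝ} (hg : IsRS g) (r : ℝ) (v : P) :
    ∫ u in Metric.ball (0 : P) r, g (v - u) = ∫ y : P, rft g y *
      (cc r y * Real.cos (2 * Real.pi * inner ℝ y v) +
        ss r y * Real.sin (2 * Real.pi * inner ℝ y v)) := by
  rw [← swap hg.rft.integrable hg.rft.continuous (M := 1) (by fun_prop) (by fun_prop)
    (fun y => Real.abs_cos_le_one _) (fun y => Real.abs_sin_le_one _) r]
  congr 1
  funext u
  rw [rep hg (v - u)]
  congr 1
  funext y
  rw [cos_inner_sub]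

theorem two {g : P → ℝ} (hg : IsRS g) (r : ℝ) :
    ∫ u in Metric.ball (0 : P) r, ∫ w in Metric.ball (0 : P) r, g (u - w) =
      ∫ y : P, rft g y * (cc r y * cc r y + ss r y * ss r y) := by
  rw [← swap hg.rft.integrable hg.rft.continuous (M := ar r) (cc_cont r) (ss_cont r)
    (cc_le r) (ss_le r) r]
  congr 1
  funext u
  rw [one hg r u]
  congr 1
  funext y
  ring

/-- the form for radial Schwartz functions with nonnegative transform -/
theorem pd {g : P → ℝ} (hg : IsRS g) (hp : ∀ y, 0 ≤ rft g y) {r : ℝ} {N : ℕ} (c : Fin N → ℝ)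
    (v : Fin N → P) (b : ℝ) :
    0 ≤ ∑ i, ∑ j, c i * c j * g (v i - v j) -
      2 * b * ∑ i, c i * (∫ u in Metric.ball (0 : P) r, g (v i - u)) +
      b ^ 2 * ∫ u in Metric.ball (0 : P) r, ∫ w in Metric.ball (0 : P) r, g (u - w) := by
  have hG := hg.rft.integrable
  have hGc := hg.rft.continuous
  have hcos : ∀ v : P, Continuous fun y : P => Real.cos (2 * Real.pi * inner ℝ y v) :=
    fun v => by fun_prop
  have hsin : ∀ v : P, Continuous fun y : P => Real.sin (2 * Real.pi * inner ℝ y v) :=
    fun v => by fun_prop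
  have i1 : ∀ i j, Integrable fun y : P => rft g y *
      (Real.cos (2 * Real.pi * inner ℝ y (v i)) * Real.cos (2 * Real.pi * inner ℝ y (v j)) +
        Real.sin (2 * Real.pi * inner ℝ y (v i)) * Real.sin (2 * Real.pi * inner ℝ y (v j))) := by
    intro i j
    refine int_bdd hG hGc (((hcos _).mul (hcos _)).add ((hsin _).mul (hsin _))) (M := 2)
      fun y => ?_
    refine (abs_add_le _ _).trans ?_
    rw [abs_mul, abs_mul]
    nlinarith [Real.abs_cos_le_one (2 * Real.pi * inner ℝ y (v i)),
      Real.abs_cos_le_one (2 * Real.pi * inner ℝ y (v j)),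
      Real.abs_sin_le_one (2 * Real.pi * inner ℝ y (v i)),
      Real.abs_sin_le_one (2 * Real.pi * inner ℝ y (v j)),
      abs_nonneg (Real.cos (2 * Real.pi * inner ℝ y (v i))),
      abs_nonneg (Real.cos (2 * Real.pi * inner ℝ y (v j))),
      abs_nonneg (Real.sin (2 * Real.pi * inner ℝ y (v i))),
      abs_nonneg (Real.sin (2 * Real.pi * inner ℝ y (v j)))]
  have hM0 : 0 ≤ ar r := (abs_nonneg _).trans (cc_le r 0)
  have i2 : ∀ i, Integrable fun y : P => rft g y *
      (cc r y * Real.cos (2 * Real.pi * inner ℝ y (v i)) +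
        ss r y * Real.sin (2 * Real.pi * inner ℝ y (v i))) := by
    intro i
    refine int_bdd hG hGc (((cc_cont r).mul (hcos _)).add ((ss_cont r).mul (hsin _)))
      (M := 2 * ar r) fun y => ?_
    refine (abs_add_le _ _).trans ?_
    rw [abs_mul, abs_mul]
    nlinarith [Real.abs_cos_le_one (2 * Real.pi * inner ℝ y (v i)),
      Real.abs_sin_le_one (2 * Real.pi * inner ℝ y (v i)), cc_le r y, ss_le r y,
      abs_nonneg (cc r y), abs_nonneg (ss r y),
      abs_nonneg (Real.cos (2 * Real.pi * inner ℝ y (v i))),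
      abs_nonneg (Real.sin (2 * Real.pi * inner ℝ y (v i)))]
  have i3 : Integrable fun y : P => rft g y * (cc r y * cc r y + ss r y * ss r y) := by
    refine int_bdd hG hGc (((cc_cont r).mul (cc_cont r)).add ((ss_cont r).mul (ss_cont r)))
      (M := 2 * ar r ^ 2) fun y => ?_
    refine (abs_add_le _ _).trans ?_
    rw [abs_mul, abs_mul]
    nlinarith [cc_le r y, ss_le r y, abs_nonneg (cc r y), abs_nonneg (ss r y)]
  have e1 : ∀ i j, g (v i - v j) = ∫ y : P, rft g y *
      (Real.cos (2 * Real.pi * inner ℝ y (v i)) * Real.cos (2 * Real.pi * inner ℝ y (v j)) +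
        Real.sin (2 * Real.pi * inner ℝ y (v i)) * Real.sin (2 * Real.pi * inner ℝ y (v j))) := by
    intro i j
    rw [rep hg]
    congr 1
    funext y
    rw [cos_inner_sub]
    ring
  have key : ∑ i, ∑ j, c i * c j * g (v i - v j) -
      2 * b * ∑ i, c i * (∫ u in Metric.ball (0 : P) r, g (v i - u)) +
      b ^ 2 * ∫ u in Metric.ball (0 : P) r, ∫ w in Metric.ball (0 : P) r, g (u - w) =
      ∫ y : P, rft g y *
        ((∑ i, c i * Real.cos (2 * Real.pi * inner ℝ y (v i)) - b * cc r y) ^ 2 +
          (∑ i, c i * Real.sin (2 * Real.pi * inner ℝ y (v i)) - b * ss r y) ^ 2) := by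
    rw [two hg]
    simp only [one hg, e1]
    have j1 : ∑ i, ∑ j, c i * c j * ∫ y : P, rft g y *
        (Real.cos (2 * Real.pi * inner ℝ y (v i)) * Real.cos (2 * Real.pi * inner ℝ y (v j)) +
        Real.sin (2 * Real.pi * inner ℝ y (v i)) * Real.sin (2 * Real.pi * inner ℝ y (v j))) =
        ∫ y : P, ∑ i, ∑ j, c i * c j * (rft g y *
        (Real.cos (2 * Real.pi * inner ℝ y (v i)) * Real.cos (2 * Real.pi * inner ℝ y (v j)) +
        Real.sin (2 * Real.pi * inner ℝ y (v i)) * Real.sin (2 * Real.pi * inner ℝ y (v j)))) := by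
      rw [integral_finsetSum _ fun i _ => integrable_finsetSum _ fun j _ =>
        (i1 i j).const_mul (c i * c j)]
      refine Finset.sum_congr rfl fun i _ => ?_
      rw [integral_finsetSum _ fun j _ => (i1 i j).const_mul (c i * c j)]
      refine Finset.sum_congr rfl fun j _ => ?_
      rw [integral_const_mul]
    have j2 : ∑ i, c i * ∫ y : P, rft g y *
        (cc r y * Real.cos (2 * Real.pi * inner ℝ y (v i)) +
        ss r y * Real.sin (2 * Real.pi * inner ℝ y (v i))) =
        ∫ y : P, ∑ i, c i * (rft g y *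
        (cc r y * Real.cos (2 * Real.pi * inner ℝ y (v i)) +
        ss r y * Real.sin (2 * Real.pi * inner ℝ y (v i)))) := by
      rw [integral_finsetSum _ fun i _ => (i2 i).const_mul (c i)]
      refine Finset.sum_congr rfl fun i _ => ?_
      rw [integral_const_mul]
    rw [j1, j2, ← integral_const_mul, ← integral_const_mul, ← integral_sub, ← integral_add]
    · congr 1
      funext y
      have k1 : (∑ i, c i * Real.cos (2 * Real.pi * inner ℝ y (v i))) ^ 2 =
          ∑ i, ∑ j, c i * c j * (Real.cos (2 * Real.pi * inner ℝ y (v i)) *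
            Real.cos (2 * Real.pi * inner ℝ y (v j))) := by
        rw [pow_two, Finset.sum_mul_sum]
        exact Finset.sum_congr rfl fun i _ => Finset.sum_congr rfl fun j _ => by ring
      have k2 : (∑ i, c i * Real.sin (2 * Real.pi * inner ℝ y (v i))) ^ 2 =
          ∑ i, ∑ j, c i * c j * (Real.sin (2 * Real.pi * inner ℝ y (v i)) *
            Real.sin (2 * Real.pi * inner ℝ y (v j))) := by
        rw [pow_two, Finset.sum_mul_sum]
        exact Finset.sum_congr rfl fun i _ => Finset.sum_congr rfl fun j _ => by ring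
      have k3 : ∑ i, ∑ j, c i * c j * (rft g y *
          (Real.cos (2 * Real.pi * inner ℝ y (v i)) * Real.cos (2 * Real.pi * inner ℝ y (v j)) +
          Real.sin (2 * Real.pi * inner ℝ y (v i)) * Real.sin (2 * Real.pi * inner ℝ y (v j)))) =
          rft g y * (∑ i, ∑ j, c i * c j * (Real.cos (2 * Real.pi * inner ℝ y (v i)) *
            Real.cos (2 * Real.pi * inner ℝ y (v j))) +
            ∑ i, ∑ j, c i * c j * (Real.sin (2 * Real.pi * inner ℝ y (v i)) *
            Real.sin (2 * Real.pi * inner ℝ y (v j)))) := by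
        rw [← Finset.sum_add_distrib, Finset.mul_sum]
        refine Finset.sum_congr rfl fun i _ => ?_
        rw [← Finset.sum_add_distrib, Finset.mul_sum]
        exact Finset.sum_congr rfl fun j _ => by ring
      have k4 : ∑ i, c i * (rft g y * (cc r y * Real.cos (2 * Real.pi * inner ℝ y (v i)) +
          ss r y * Real.sin (2 * Real.pi * inner ℝ y (v i)))) =
          rft g y * (cc r y * ∑ i, c i * Real.cos (2 * Real.pi * inner ℝ y (v i)) +
            ss r y * ∑ i, c i * Real.sin (2 * Real.pi * inner ℝ y (v i))) := by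
        rw [Finset.mul_sum, Finset.mul_sum, ← Finset.sum_add_distrib, Finset.mul_sum]
        exact Finset.sum_congr rfl fun j _ => by ring
      rw [k3, k4, ← k1, ← k2]
      ring
    · exact (integrable_finsetSum _ fun i _ => integrable_finsetSum _ fun j _ =>
        (i1 i j).const_mul (c i * c j)).sub
        ((integrable_finsetSum _ fun i _ => (i2 i).const_mul (c i)).const_mul _)
    · exact i3.const_mul _
    · exact integrable_finsetSum _ fun i _ => integrable_finsetSum _ fun j _ =>
        (i1 i j).const_mul (c i * c j)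
    · exact (integrable_finsetSum _ fun i _ => (i2 i).const_mul (c i)).const_mul _
  rw [key]
  exact integral_nonneg fun y => mul_nonneg (hp y) (by positivity)

end A1

theorem planar_pd {f : P → ℝ} (hf : IsRS f) (hp : ∀ y, 0 ≤ rft f y) {lam r : ℝ} (hlam : 0 < lam)
    (hr : 0 < r) {N : ℕ} (c : Fin N → ℝ) (v : Fin N → P) (b : ℝ) :
    0 ≤ ∑ i, ∑ j, c i * c j * f (lam • (v i - v j)) -
      2 * b * ∑ i, c i * (∫ u in Metric.ball (0 : P) r, f (lam • (v i - u))) +
      b ^ 2 * ∫ u in Metric.ball (0 : P) r, ∫ w in Metric.ball (0 : P) r, f (lam • (u - w)) := by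
  refine A1.pd (hf.scale hlam) (fun y => ?_) c v b
  rw [rft_scale f hlam y]
  exact mul_nonneg (by positivity) (hp _)

end Pool.Agent.J4.H93.SR
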