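import Pool.Agent.J4.H93.SR.Defs

/-! Piece A2 of project SR: a frame of the orthogonal complement of a point of the sphere. -/

set_option autoImplicit false

open MeasureTheory Set Filter Topology

namespace Pool.Agent.J4.H93.SR

open Pool.Agent.TH478.CE

namespace A2Aux

theorem frame' {E3 : Type*} [NormedAddCommGroup E3] [InnerProductSpace ℝ E3] [FiniteDimensional ℝ E3]
    (h3 : Module.finrank ℝ E3 = 3) (p : E3) (hp : ‖p‖ = 1) : ∃ T : E3 →ₗ[ℝ] P,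
    ∀ z : E3, ‖T z‖ ^ 2 = ‖z‖ ^ 2 - (inner ℝ z p) ^ 2 := by
  obtain ⟨K, hK⟩ : ∃ K : Submodule ℝ E3, K = (ℝ ∙ p)ᗮ := ⟨_, rfl⟩
  have hp0 : p ≠ 0 := by
    rintro rfl
    simp at hp
  have hfin : Module.finrank ℝ K = 2 := by
    have h1 := Submodule.finrank_add_finrank_orthogonal (ℝ ∙ p)
    rw [finrank_span_singleton hp0, h3] at h1
    rw [hK]
    omega
  let b := (stdOrthonormalBasis ℝ K).reindex (finCongr hfin)
  refine ⟨b.repr.toLinearEquiv.toLinearMap.comp (K.orthogonalProjectionOnto : E3 →ₗ[ℝ] K),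
    fun z => ?_⟩
  have h2 : ‖b.repr (K.orthogonalProjectionOnto z)‖ = ‖K.orthogonalProjectionOnto z‖ :=
    b.repr.norm_map _
  have h4 : ‖z‖ ^ 2 = ‖(ℝ ∙ p).starProjection z‖ ^ 2 + ‖K.orthogonalProjectionOnto z‖ ^ 2 := by
    rw [hK]
    exact Submodule.norm_sq_eq_add_norm_sq_projection z (ℝ ∙ p)
  rw [Submodule.starProjection_unit_singleton ℝ hp, norm_smul, hp, mul_one,
    Real.norm_eq_abs, sq_abs, real_inner_comm] at h4
  show ‖b.repr (K.orthogonalProjectionOnto z)‖ ^ 2 = _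
  rw [h2]
  linarith

end A2Aux

theorem frame (p : S2) : ∃ T : E3 →ₗ[ℝ] P,
    ∀ z : E3, ‖T z‖ ^ 2 = ‖z‖ ^ 2 - (inner ℝ z (p : E3)) ^ 2 :=
  A2Aux.frame' (by simp) (p : E3) (by simp)

end Pool.Agent.J4.H93.SR
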