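import Pool.Agent.J4.H93.SR.Defs
import Pool.Agent.Helper88.SE.P_zlaw
import Pool.Agent.TH478.CE.Hex

set_option autoImplicit false

open MeasureTheory Set Filter Topology

namespace Pool.Agent.J4.H93.SR

open Pool.Agent.TH478.CE

namespace A3aux

lemma prob : IsProbabilityMeasure sg2 := Pool.Agent.Helper88.SE.sg_prob 2

lemma meas_in (x : S2) : Measurable fun p : S2 => inner ℝ (x : E3) (p : E3) := by
  apply Continuous.measurable
  fun_prop

/-- the law of `⟨x, p⟩` -/
lemma map_in (x : S2) : Measure.map (fun p : S2 => inner ℝ (x : E3) (p : E3)) sg2 =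
    ENNReal.ofReal (1 / 2) • (volume : Measure ℝ).restrict (Icc (-1) 1) := by
  ext s hs
  rw [Measure.map_apply (meas_in x) hs, Measure.smul_apply, smul_eq_mul, Measure.restrict_apply hs]
  have h := Pool.Agent.Helper88.SE.zlaw x (s.indicator fun _ => 1)
    (measurable_const.indicator hs)
  rw [lintegral_indicator hs, setLIntegral_const, one_mul, Measure.restrict_apply hs] at h
  rw [← h]
  have e : (fun p : S2 => s.indicator (fun _ => (1 : ENNReal)) (inner ℝ (x : E3) (p : E3))) =
      ((fun p : S2 => inner ℝ (x : E3) (p : E3)) ⁻¹' s).indicator (fun _ => 1) := by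
    funext p
    rfl
  rw [e, lintegral_indicator ((meas_in x) hs), setLIntegral_const, one_mul]

lemma meas_chi (r : ℝ) : Measurable (chi r) := by
  unfold chi
  refine Measurable.ite ?_ measurable_id measurable_const
  exact (measurableSet_lt measurable_const measurable_id).inter
    (measurableSet_lt (f := fun z : ℝ => 1 - z ^ 2) (g := fun _ => r ^ 2) (by fun_prop)
      measurable_const)

/-- the law, real version -/
lemma integral_in (x : S2) (h : ℝ → ℝ) (hh : Measurable h) :
    ∫ p : S2, h (inner ℝ (x : E3) (p : E3)) ∂sg2 = 1 / 2 * ∫ z in Icc (-1 : ℝ) 1, h z := by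
  rw [← integral_map (meas_in x).aemeasurable hh.aestronglyMeasurable, map_in,
    integral_smul_measure]
  rw [ENNReal.toReal_ofReal (by norm_num), smul_eq_mul]

lemma chi_abs (r : ℝ) (x p : S2) : |chi r (inner ℝ (x : E3) (p : E3))| ≤ 1 := by
  unfold chi
  split_ifs
  · refine (abs_real_inner_le_norm _ _).trans ?_
    simp
  · simp

lemma bounded {G : ℝ → ℝ} (hG : Continuous G) : ∃ C, ∀ z : ℝ, |G (√(1 - z ^ 2))| ≤ C := by
  obtain ⟨C, hC⟩ := isCompact_Icc.exists_bound_of_continuousOn (s := Icc (0 : ℝ) 1)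
    hG.continuousOn
  refine ⟨C, fun z => hC _ ⟨Real.sqrt_nonneg _, ?_⟩⟩
  rw [Real.sqrt_le_iff]
  constructor
  · norm_num
  · nlinarith [sq_nonneg z]

/-- the one dimensional integral -/
lemma line {r : ℝ} (hr : 0 < r) (hr1 : r < 1) (G : ℝ → ℝ) (hG : Continuous G) :
    ∫ z in Icc (-1 : ℝ) 1, chi r z * G (√(1 - z ^ 2)) = ∫ ρ in (0 : ℝ)..r, ρ * G ρ := by
  set a := √(1 - r ^ 2) with ha
  have hr2 : 0 < 1 - r ^ 2 := by nlinarith
  have ha0 : 0 < a := Real.sqrt_pos.2 hr2
  have ha2 : a ^ 2 = 1 - r ^ 2 := Real.sq_sqrt hr2.le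
  have ha1 : a < 1 := by nlinarith
  have e1 : ∫ z in Icc (-1 : ℝ) 1, chi r z * G (√(1 - z ^ 2)) =
      ∫ z in Icc (-1 : ℝ) 1, (Ioc a 1).indicator (fun z => z * G (√(1 - z ^ 2))) z := by
    refine setIntegral_congr_fun measurableSet_Icc fun z hz => ?_
    simp only [chi]
    by_cases h : z ∈ Ioc a 1
    · rw [indicator_of_mem h, if_pos]
      refine ⟨ha0.trans h.1, ?_⟩
      have : a ^ 2 < z ^ 2 := by nlinarith [h.1]
      linarith
    · rw [indicator_of_notMem h, if_neg, zero_mul]
      rintro ⟨h1, h2⟩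
      apply h
      refine ⟨?_, hz.2⟩
      by_contra h3
      push Not at h3
      have : z ^ 2 ≤ a ^ 2 := by nlinarith
      linarith
  rw [e1, setIntegral_indicator measurableSet_Ioc]
  have e2 : Icc (-1 : ℝ) 1 ∩ Ioc a 1 = Ioc a 1 := by
    rw [inter_eq_right]
    intro z hz
    exact ⟨by linarith [hz.1], hz.2⟩
  rw [e2, ← intervalIntegral.integral_of_le ha1.le]
  have hg : Continuous fun w : ℝ => G (√w) := hG.comp Real.continuous_sqrt
  have i1 := intervalIntegral.integral_comp_mul_deriv (a := a) (b := 1)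
    (f := fun z : ℝ => 1 - z ^ 2) (f' := fun z => -(2 * z)) (g := fun w : ℝ => G (√w))
    (fun z _ => by simpa using (hasDerivAt_pow 2 z).const_sub 1) (by fun_prop) hg
  have i2 := intervalIntegral.integral_comp_mul_deriv (a := 0) (b := r)
    (f := fun z : ℝ => z ^ 2) (f' := fun z => 2 * z) (g := fun w : ℝ => G (√w))
    (fun z _ => by simpa using hasDerivAt_pow 2 z) (by fun_prop) hg
  have e3 : (1 : ℝ) - a ^ 2 = r ^ 2 := by rw [ha2]; ring
  simp only [Function.comp_apply, e3] at i1 i2
  rw [show (1 : ℝ) - 1 ^ 2 = 0 by norm_num, intervalIntegral.integral_symm 0 (r ^ 2)] at i1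
  rw [show (0 : ℝ) ^ 2 = 0 by norm_num] at i2
  have e4 : ∫ z in a..1, G (√(1 - z ^ 2)) * -(2 * z) = -2 * ∫ z in a..1, z * G (√(1 - z ^ 2)) := by
    rw [← intervalIntegral.integral_const_mul]
    congr 1
    funext z
    ring
  have e5 : ∫ z in (0 : ℝ)..r, G (√(z ^ 2)) * (2 * z) = 2 * ∫ z in (0 : ℝ)..r, z * G z := by
    rw [← intervalIntegral.integral_const_mul]
    refine intervalIntegral.integral_congr fun z hz => ?_
    rw [uIcc_of_le hr.le] at hz
    rw [Real.sqrt_sq hz.1]
    ring
  rw [e4] at i1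
  rw [e5] at i2
  linarith

/-- polar coordinates -/
lemma disc {r : ℝ} (hr : 0 < r) (G : ℝ → ℝ) :
    ∫ v in Metric.ball (0 : P) r, G ‖v‖ = 2 * Real.pi * ∫ ρ in (0 : ℝ)..r, ρ * G ρ := by
  have e1 : ∫ v in Metric.ball (0 : P) r, G ‖v‖ = ∫ v : P, (Iio r).indicator G ‖v‖ := by
    rw [← integral_indicator Metric.isOpen_ball.measurableSet]
    congr 1
    funext v
    by_cases h : v ∈ Metric.ball (0 : P) r
    · rw [indicator_of_mem h, indicator_of_mem]
      simpa using h
    · rw [indicator_of_notMem h, indicator_of_notMem]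
      simpa using h
  rw [e1, integral_fun_norm_addHaar]
  have e2 : (volume : Measure P).real (Metric.ball 0 1) = Real.pi := by
    unfold Measure.real
    rw [EuclideanSpace.volume_ball_fin_two]
    simp [Real.pi_pos.le]
  have e3 : ∫ y in Ioi (0 : ℝ), y ^ (Module.finrank ℝ P - 1) • (Iio r).indicator G y =
      ∫ ρ in (0 : ℝ)..r, ρ * G ρ := by
    rw [intervalIntegral.integral_of_le hr.le, integral_Ioc_eq_integral_Ioo]
    have e4 : ∀ y : ℝ, y ^ (Module.finrank ℝ P - 1) • (Iio r).indicator G y =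
        (Iio r).indicator (fun y => y * G y) y := by
      intro y
      have : Module.finrank ℝ P = 2 := by simp
      rw [this]
      by_cases h : y ∈ Iio r
      · rw [indicator_of_mem h, indicator_of_mem h]
        simp
      · rw [indicator_of_notMem h, indicator_of_notMem h]
        simp
    simp only [e4]
    rw [setIntegral_indicator measurableSet_Iio]
    rfl
  rw [e2, e3]
  have : Module.finrank ℝ P = 2 := by simp
  rw [this]
  simp only [nsmul_eq_mul, smul_eq_mul]
  push_cast
  ring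

end A3aux

open A3aux in
theorem zint (x : S2) {r : ℝ} (hr : 0 < r) (hr1 : r < 1) (G : ℝ → ℝ) (hG : Continuous G) :
    Integrable (fun p : S2 => chi r (inner ℝ (x : E3) (p : E3)) *
      G (√(1 - (inner ℝ (x : E3) (p : E3)) ^ 2))) sg2 ∧
    ∫ p : S2, chi r (inner ℝ (x : E3) (p : E3)) * G (√(1 - (inner ℝ (x : E3) (p : E3)) ^ 2)) ∂sg2 =
      1 / (4 * Real.pi) * ∫ v in Metric.ball (0 : P) r, G ‖v‖ := by
  have := prob
  have hm : Measurable fun z : ℝ => chi r z * G (√(1 - z ^ 2)) := by
    refine (meas_chi r).mul (hG.measurable.comp ?_)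
    fun_prop
  constructor
  · obtain ⟨C, hC⟩ := bounded hG
    refine Integrable.of_bound (hm.comp (meas_in x)).aestronglyMeasurable C
      (Eventually.of_forall fun p => ?_)
    rw [Real.norm_eq_abs, abs_mul]
    calc _ ≤ 1 * C := mul_le_mul (chi_abs r x p) (hC _) (abs_nonneg _) zero_le_one
      _ = C := one_mul _
  · rw [integral_in x (fun z => chi r z * G (√(1 - z ^ 2))) hm, line hr hr1 G hG, disc hr]
    field_simp
    ring

end Pool.Agent.J4.H93.SR
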