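import Pool.Agent.J4.H93.SR.Defs
import Pool.Agent.Helper88.SE.P_zlaw

/-! Project SR, piece A3b. -/

set_option autoImplicit false

open MeasureTheory Set Filter Topology

namespace Pool.Agent.J4.H93.SR

open Pool.Agent.TH478.CE

namespace A3bAux

lemma meas (r : ℝ) : Measurable (chi r) := by
  unfold chi
  refine Measurable.ite ?_ measurable_id measurable_const
  exact (measurableSet_lt measurable_const measurable_id).inter
    (measurableSet_lt (measurable_const.sub (measurable_id.pow_const 2)) measurable_const)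

lemma le_ind {r z : ℝ} (hz : z ∈ Icc (-1 : ℝ) 1) :
    ENNReal.ofReal (chi r z ^ 2) ≤
      (Ioc (√(1 - r ^ 2)) 1).indicator (fun z => ENNReal.ofReal z) z := by
  unfold chi
  split_ifs with h
  · have h1 : √(1 - r ^ 2) < z := by
      rw [Real.sqrt_lt' h.1]
      linarith [h.2]
    have h2 : z ∈ Ioc (√(1 - r ^ 2)) 1 := ⟨h1, hz.2⟩
    rw [indicator_of_mem h2]
    apply ENNReal.ofReal_le_ofReal
    nlinarith [h.1, hz.2]
  · simp

lemma bound {r : ℝ} (hr : 0 < r) (hr1 : r < 1) :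
    ∫⁻ z in Icc (-1 : ℝ) 1, ENNReal.ofReal (chi r z ^ 2) ≤ ENNReal.ofReal (r ^ 2 / 2) := by
  have h0 : (0 : ℝ) ≤ 1 - r ^ 2 := by nlinarith
  have ha0 : 0 ≤ √(1 - r ^ 2) := Real.sqrt_nonneg _
  have ha1 : √(1 - r ^ 2) ≤ 1 := by
    rw [Real.sqrt_le_one]
    nlinarith
  calc ∫⁻ z in Icc (-1 : ℝ) 1, ENNReal.ofReal (chi r z ^ 2)
      ≤ ∫⁻ z in Icc (-1 : ℝ) 1,
          (Ioc (√(1 - r ^ 2)) 1).indicator (fun z => ENNReal.ofReal z) z :=
        setLIntegral_mono' measurableSet_Icc fun z hz => le_ind hz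
    _ ≤ ∫⁻ z, (Ioc (√(1 - r ^ 2)) 1).indicator (fun z => ENNReal.ofReal z) z :=
        setLIntegral_le_lintegral _ _
    _ = ∫⁻ z in Ioc (√(1 - r ^ 2)) 1, ENNReal.ofReal z := lintegral_indicator measurableSet_Ioc _
    _ = ENNReal.ofReal (∫ z in Ioc (√(1 - r ^ 2)) 1, z) := by
        rw [ofReal_integral_eq_lintegral_ofReal]
        · exact (continuous_id.integrableOn_Icc (a := √(1 - r ^ 2)) (b := 1)).mono_set
            Ioc_subset_Icc_self
        · filter_upwards [ae_restrict_mem measurableSet_Ioc] with z hz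
          exact ha0.trans hz.1.le
    _ = ENNReal.ofReal (r ^ 2 / 2) := by
        rw [← intervalIntegral.integral_of_le ha1, integral_id, Real.sq_sqrt h0]
        congr 1
        ring

end A3bAux

open A3bAux in
theorem chi_sq (x : S2) {r : ℝ} (hr : 0 < r) (hr1 : r < 1) :
    Integrable (fun p : S2 => chi r (inner ℝ (x : E3) (p : E3)) ^ 2) sg2 ∧
    ∫ p : S2, chi r (inner ℝ (x : E3) (p : E3)) ^ 2 ∂sg2 ≤ r ^ 2 / 4 := by
  have hm : Measurable fun z : ℝ => ENNReal.ofReal (chi r z ^ 2) :=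
    ((meas r).pow_const 2).ennreal_ofReal
  have hk := Pool.Agent.Helper88.SE.zlaw x (fun z => ENNReal.ofReal (chi r z ^ 2)) hm
  have hle : ∫⁻ p : S2, ENNReal.ofReal (chi r (inner ℝ (x : E3) (p : E3)) ^ 2) ∂sg2 ≤
      ENNReal.ofReal (r ^ 2 / 4) := by
    rw [hk]
    calc ENNReal.ofReal (1 / 2) * ∫⁻ z in Icc (-1 : ℝ) 1, ENNReal.ofReal (chi r z ^ 2)
        ≤ ENNReal.ofReal (1 / 2) * ENNReal.ofReal (r ^ 2 / 2) := by
          gcongr
          exact bound hr hr1
      _ = ENNReal.ofReal (r ^ 2 / 4) := by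
          rw [← ENNReal.ofReal_mul (by norm_num)]
          congr 1
          ring
  have hin : Measurable fun p : S2 => (inner ℝ (x : E3) (p : E3) : ℝ) :=
    (continuous_const.inner continuous_subtype_val).measurable
  have hf : Measurable fun p : S2 => chi r (inner ℝ (x : E3) (p : E3)) ^ 2 :=
    ((meas r).comp hin).pow_const 2
  have hnn : 0 ≤ᵐ[sg2] fun p : S2 => chi r (inner ℝ (x : E3) (p : E3)) ^ 2 :=
    Eventually.of_forall fun p => sq_nonneg _
  have hint : Integrable (fun p : S2 => chi r (inner ℝ (x : E3) (p : E3)) ^ 2) sg2 :=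
    (lintegral_ofReal_ne_top_iff_integrable hf.aestronglyMeasurable hnn).1
      (ne_top_of_le_ne_top ENNReal.ofReal_ne_top hle)
  refine ⟨hint, ?_⟩
  rw [integral_eq_lintegral_of_nonneg_ae hnn hf.aestronglyMeasurable]
  exact ENNReal.toReal_le_of_le_ofReal (by positivity) hle

end Pool.Agent.J4.H93.SR
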