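import Pool.Agent.J4.H93.SR.Defs
import Pool.Agent.Helper88.SE.P_sg_prob
import Pool.Agent.TH478.CE.Hex

set_option autoImplicit false

open MeasureTheory Set Filter Topology

namespace Pool.Agent.J4.H93.SR

open Pool.Agent.TH478.CE

namespace A4aux

lemma prob : IsProbabilityMeasure sg2 := Pool.Agent.Helper88.SE.sg_prob 2

lemma meas_in (x : E3) : Measurable fun p : S2 => inner ℝ x (p : E3) := by
  apply Continuous.measurable
  fun_prop

lemma meas_chi (r : ℝ) : Measurable (chi r) := by
  unfold chi
  refine Measurable.ite ?_ measurable_id measurable_const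
  exact (measurableSet_lt measurable_const measurable_id).inter
    (measurableSet_lt (f := fun z : ℝ => 1 - z ^ 2) (g := fun _ => r ^ 2) (by fun_prop)
      measurable_const)

lemma chi_abs (r : ℝ) (x p : S2) : |chi r (inner ℝ (x : E3) (p : E3))| ≤ 1 := by
  unfold chi
  split_ifs
  · refine (abs_real_inner_le_norm _ _).trans ?_
    simp
  · simp

lemma prof_cont {f : P → ℝ} (hf : IsRS f) : Continuous (prof f) := by
  unfold prof
  refine hf.continuous.comp ?_
  refine (PiLp.continuous_toLp 2 _).comp ?_
  refine continuous_pi fun i => ?_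
  fin_cases i
  · exact continuous_id
  · exact continuous_const

lemma prof_bd {f : P → ℝ} (hf : IsRS f) : ∃ C, ∀ ρ, |prof f ρ| ≤ C := by
  obtain ⟨F, hF⟩ := hf.schwartz
  obtain ⟨C, hC⟩ := F.decay 0 0
  refine ⟨C, fun ρ => ?_⟩
  have := hC.2 !₂[ρ, 0]
  simp only [pow_zero, norm_iteratedFDeriv_zero, one_mul] at this
  unfold prof
  rw [← hF]
  exact this

end A4aux

open A4aux in
theorem kap_int {f : P → ℝ} (hf : IsRS f) (lam r : ℝ) (x y : S2) :
    Integrable (fun p : S2 => kap f lam r x y p) sg2 := by
  have := prob
  obtain ⟨C, hC⟩ := prof_bd hf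
  have hm : Measurable fun p : S2 => kap f lam r x y p := by
    unfold kap
    refine (((meas_chi r).comp (meas_in (x : E3))).mul
      ((meas_chi r).comp (meas_in (y : E3)))).mul ?_
    refine (prof_cont hf).measurable.comp ?_
    exact (Measurable.const_mul (Measurable.sqrt (((meas_in ((x : E3) - (y : E3))).pow_const 2).const_sub _)) _)
  refine Integrable.of_bound hm.aestronglyMeasurable C (Eventually.of_forall fun p => ?_)
  unfold kap
  rw [Real.norm_eq_abs, abs_mul, abs_mul]
  have hC0 : 0 ≤ C := (abs_nonneg _).trans (hC 0)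
  calc _ ≤ 1 * 1 * C := by
        gcongr
        · exact chi_abs r x p
        · exact chi_abs r y p
        · exact hC _
    _ = C := by ring

end Pool.Agent.J4.H93.SR
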