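import Pool.Agent.J4.H93.SR.A5c
import Pool.Agent.J4.H93.SR.A1
import Pool.Agent.J4.H93.SR.A2
import Pool.Agent.J4.H93.SR.A3
import Pool.Agent.J4.H93.SR.A4

set_option autoImplicit false

open MeasureTheory Set Filter Topology

namespace Pool.Agent.J4.H93.SR

open Pool.Agent.TH478.CE

/-- the inequality on the sphere -/
theorem sphere_pd {f : P → ℝ} (hf : IsRS f) (hp : ∀ y, 0 ≤ rft f y) {lam r : ℝ} (hlam : 0 < lam)
    (hr : 0 < r) (hr1 : r < 1) {N : ℕ} (x : Fin N → S2) :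
    ((N : ℝ) / (4 * Real.pi)) ^ 2 *
      ∫ u in Metric.ball (0 : P) r, ∫ w in Metric.ball (0 : P) r, f (lam • (u - w)) ≤
    ∑ i, ∑ j, ∫ p, kap f lam r (x i) (x j) p ∂sg2 :=
  A5.core (fun hf hp _ _ hlam hr _ c v b => planar_pd hf hp hlam hr c v b) frame
    (fun x _ hr hr1 G hG => zint x hr hr1 G hG) (fun hf lam r x y => kap_int hf lam r x y)
    hf hp hlam hr hr1 x

end Pool.Agent.J4.H93.SR
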