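import Pool.Agent.J4.H93.SR.Defs
import Pool.Agent.TH478.CE.Hex
import Pool.Agent.Helper88.SE.P_sg_prob

set_option autoImplicit false

open MeasureTheory Set Filter Topology

namespace Pool.Agent.J4.H93.SR

open Pool.Agent.TH478.CE

namespace A5

/-- the statement A1 -/
def SA1 : Prop := ∀ {f : P → ℝ} (_ : IsRS f) (_ : ∀ y, 0 ≤ rft f y) {lam r : ℝ} (_ : 0 < lam)
    (_ : 0 < r) {N : ℕ} (c : Fin N → ℝ) (v : Fin N → P) (b : ℝ),
    0 ≤ ∑ i, ∑ j, c i * c j * f (lam • (v i - v j)) -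
      2 * b * (∑ i, c i * ∫ u in Metric.ball (0 : P) r, f (lam • (v i - u))) +
      b ^ 2 * ∫ u in Metric.ball (0 : P) r, ∫ w in Metric.ball (0 : P) r, f (lam • (u - w))

/-- the statement A2 -/
def SA2 : Prop := ∀ p : S2, ∃ T : E3 →ₗ[ℝ] P,
    ∀ z : E3, ‖T z‖ ^ 2 = ‖z‖ ^ 2 - (inner ℝ z (p : E3)) ^ 2

/-- the statement A3 -/
def SA3 : Prop := ∀ (x : S2) {r : ℝ} (_ : 0 < r) (_ : r < 1) (G : ℝ → ℝ) (_ : Continuous G),
    Integrable (fun p : S2 => chi r (inner ℝ (x : E3) (p : E3)) *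
      G (√(1 - (inner ℝ (x : E3) (p : E3)) ^ 2))) sg2 ∧
    ∫ p : S2, chi r (inner ℝ (x : E3) (p : E3)) * G (√(1 - (inner ℝ (x : E3) (p : E3)) ^ 2)) ∂sg2 =
      1 / (4 * Real.pi) * ∫ v in Metric.ball (0 : P) r, G ‖v‖

/-- the statement A4 -/
def SA4 : Prop := ∀ {f : P → ℝ} (_ : IsRS f) (lam r : ℝ) (x y : S2),
    Integrable (fun p : S2 => kap f lam r x y p) sg2

theorem norm_pt {ρ : ℝ} (hρ : 0 ≤ ρ) : ‖(!₂[ρ, 0] : P)‖ = ρ := by
  rw [EuclideanSpace.norm_eq, Fin.sum_univ_two]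
  simp [Real.sqrt_sq_eq_abs, abs_of_nonneg hρ]

theorem bdd {f : P → ℝ} (hf : IsRS f) : ∃ C : ℝ, ∀ x, ‖f x‖ ≤ C := by
  obtain ⟨F, hF⟩ := hf.schwartz
  obtain ⟨C, hC⟩ := F.decay 0 0
  refine ⟨C, fun x => ?_⟩
  have := hC.2 x
  simpa [hF] using this

/-- the potential of the disc -/
noncomputable def G (f : P → ℝ) (lam r ρ : ℝ) : ℝ :=
  ∫ u in Metric.ball (0 : P) r, f (lam • ((!₂[ρ, 0] : P) - u))

theorem G_cont {f : P → ℝ} (hf : IsRS f) (lam r : ℝ) : Continuous (G f lam r) := by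
  obtain ⟨C, hC⟩ := bdd hf
  have hc := hf.continuous
  unfold G
  refine continuous_of_dominated (bound := fun _ => C) (fun ρ => ?_) (fun ρ => ?_) ?_ ?_
  · exact (hc.comp (by fun_prop)).aestronglyMeasurable
  · exact Eventually.of_forall fun u => hC _
  · have : IsFiniteMeasure ((volume : Measure P).restrict (Metric.ball (0 : P) r)) :=
      ⟨by rw [Measure.restrict_apply_univ]; exact measure_ball_lt_top⟩
    exact integrable_const C
  · refine Eventually.of_forall fun u => ?_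
    refine hc.comp ?_
    have : Continuous fun ρ : ℝ => (!₂[ρ, 0] : P) := by
      refine (PiLp.continuous_toLp 2 (fun _ : Fin 2 => ℝ)).comp ?_
      refine continuous_pi fun i => ?_
      fin_cases i
      · exact continuous_id
      · exact continuous_const
    fun_prop

theorem G_radial {f : P → ℝ} (hf : IsRS f) (lam r : ℝ) (v : P) :
    ∫ u in Metric.ball (0 : P) r, f (lam • (v - u)) = G f lam r ‖v‖ := by
  obtain ⟨A, hA⟩ := exists_isometry (x := (!₂[‖v‖, 0] : P)) (y := v) (norm_pt (norm_nonneg v))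
  unfold G
  have h1 := A.measurePreserving.setIntegral_preimage_emb A.toHomeomorph.measurableEmbedding
    (fun u => f (lam • (v - u))) (Metric.ball (0 : P) r)
  rw [← h1]
  have h2 : (A ⁻¹' Metric.ball (0 : P) r) = Metric.ball (0 : P) r := by
    rw [A.preimage_ball]; simp
  rw [h2]
  refine integral_congr_ae (Eventually.of_forall fun u => ?_)
  show f (lam • (v - A u)) = _
  apply hf.radial
  have : lam • (v - A u) = A (lam • ((!₂[‖v‖, 0] : P) - u)) := by
    rw [map_smul, map_sub, hA]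
  rw [this, A.norm_map]

theorem core (h1 : SA1) (h2 : SA2) (h3 : SA3) (h4 : SA4)
    {f : P → ℝ} (hf : IsRS f) (hp : ∀ y, 0 ≤ rft f y) {lam r : ℝ} (hlam : 0 < lam)
    (hr : 0 < r) (hr1 : r < 1) {N : ℕ} (x : Fin N → S2) :
    ((N : ℝ) / (4 * Real.pi)) ^ 2 *
      ∫ u in Metric.ball (0 : P) r, ∫ w in Metric.ball (0 : P) r, f (lam • (u - w)) ≤
    ∑ i, ∑ j, ∫ p, kap f lam r (x i) (x j) p ∂sg2 := by
  have : IsProbabilityMeasure sg2 := Pool.Agent.Helper88.SE.sg_prob 2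
  set D : ℝ := ∫ u in Metric.ball (0 : P) r, ∫ w in Metric.ball (0 : P) r, f (lam • (u - w)) with hD
  set b : ℝ := (N : ℝ) / (4 * Real.pi) with hb
  have hpt : ∀ p : S2, 0 ≤ (∑ i, ∑ j, kap f lam r (x i) (x j) p) -
      2 * b * (∑ i, chi r (inner ℝ (x i : E3) (p : E3)) *
        G f lam r (√(1 - (inner ℝ (x i : E3) (p : E3)) ^ 2))) + b ^ 2 * D := by
    intro p
    obtain ⟨T, hT⟩ := h2 p
    have hTn : ∀ z : E3, ‖T z‖ = √(‖z‖ ^ 2 - (inner ℝ z (p : E3)) ^ 2) := by
      intro z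
      rw [← hT z, Real.sqrt_sq (norm_nonneg _)]
    have h := h1 hf hp hlam hr (fun i => chi r (inner ℝ (x i : E3) (p : E3)))
      (fun i => T (x i : E3)) b
    have e1 : ∀ i j, chi r (inner ℝ (x i : E3) (p : E3)) * chi r (inner ℝ (x j : E3) (p : E3)) *
        f (lam • (T (x i : E3) - T (x j : E3))) = kap f lam r (x i) (x j) p := by
      intro i j
      unfold kap prof
      congr 1
      apply hf.radial
      rw [norm_smul, Real.norm_of_nonneg hlam.le, ← map_sub, hTn,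
        norm_pt (mul_nonneg hlam.le (Real.sqrt_nonneg _))]
    have e2 : ∀ i, ∫ u in Metric.ball (0 : P) r, f (lam • (T (x i : E3) - u)) =
        G f lam r (√(1 - (inner ℝ (x i : E3) (p : E3)) ^ 2)) := by
      intro i
      rw [G_radial hf, hTn]
      have : ‖(x i : E3)‖ = 1 := by simp
      rw [this]
      norm_num
    simp only [e1, e2] at h
    exact h
  have hI1 : ∀ i j, Integrable (fun p : S2 => kap f lam r (x i) (x j) p) sg2 :=
    fun i j => h4 hf lam r (x i) (x j)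
  have hI2 : ∀ i, Integrable (fun p : S2 => chi r (inner ℝ (x i : E3) (p : E3)) *
      G f lam r (√(1 - (inner ℝ (x i : E3) (p : E3)) ^ 2))) sg2 :=
    fun i => (h3 (x i) hr hr1 (G f lam r) (G_cont hf lam r)).1
  have hJ1 : Integrable (fun p : S2 => ∑ i, ∑ j, kap f lam r (x i) (x j) p) sg2 :=
    integrable_finsetSum _ fun i _ => integrable_finsetSum _ fun j _ => hI1 i j
  have hJ2 : Integrable (fun p : S2 => ∑ i, chi r (inner ℝ (x i : E3) (p : E3)) *
        G f lam r (√(1 - (inner ℝ (x i : E3) (p : E3)) ^ 2))) sg2 :=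
    integrable_finsetSum _ fun i _ => hI2 i
  have hint : 0 ≤ ∫ p : S2, ((∑ i, ∑ j, kap f lam r (x i) (x j) p) -
      2 * b * (∑ i, chi r (inner ℝ (x i : E3) (p : E3)) *
        G f lam r (√(1 - (inner ℝ (x i : E3) (p : E3)) ^ 2))) + b ^ 2 * D) ∂sg2 :=
    integral_nonneg fun p => hpt p
  have hcross : ∀ i, ∫ p : S2, chi r (inner ℝ (x i : E3) (p : E3)) *
      G f lam r (√(1 - (inner ℝ (x i : E3) (p : E3)) ^ 2)) ∂sg2 = 1 / (4 * Real.pi) * D := by
    intro i
    rw [(h3 (x i) hr hr1 (G f lam r) (G_cont hf lam r)).2, hD]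
    congr 1
    refine integral_congr_ae (Eventually.of_forall fun v => ?_)
    exact (G_radial hf lam r v).symm
  have hJ2' : Integrable (fun p : S2 => 2 * b * (∑ i, chi r (inner ℝ (x i : E3) (p : E3)) *
        G f lam r (√(1 - (inner ℝ (x i : E3) (p : E3)) ^ 2)))) sg2 := hJ2.const_mul _
  have hJ3 : Integrable (fun p : S2 => (∑ i, ∑ j, kap f lam r (x i) (x j) p) -
      2 * b * (∑ i, chi r (inner ℝ (x i : E3) (p : E3)) *
        G f lam r (√(1 - (inner ℝ (x i : E3) (p : E3)) ^ 2)))) sg2 := hJ1.sub hJ2'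
  rw [integral_add hJ3 (integrable_const _),
    integral_sub hJ1 hJ2', integral_const_mul, integral_finsetSum _ (fun i _ => hI2 i),
    integral_finsetSum _ (fun i _ => integrable_finsetSum _ fun j _ => hI1 i j)] at hint
  simp only [hcross, integral_const, probReal_univ, one_smul, Finset.sum_const, Finset.card_univ,
    Fintype.card_fin, nsmul_eq_mul] at hint
  have hs : ∑ i, ∫ p, ∑ j, kap f lam r (x i) (x j) p ∂sg2 =
      ∑ i, ∑ j, ∫ p, kap f lam r (x i) (x j) p ∂sg2 := by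
    refine Finset.sum_congr rfl fun i _ => ?_
    rw [integral_finsetSum _ (fun j _ => hI1 i j)]
  rw [hs] at hint
  have hb2 : 2 * b * ((N : ℝ) * (1 / (4 * Real.pi) * D)) = 2 * (b ^ 2 * D) := by
    rw [hb]; ring
  rw [hb2] at hint
  linarith

end A5

end Pool.Agent.J4.H93.SR
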