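import Pool.Agent.J4.H93.SR.Defs

/-! Piece A6 of project SR: scaling of the disc integral. -/

set_option autoImplicit false

open MeasureTheory Set Filter Topology

namespace Pool.Agent.J4.H93.SR

open Pool.Agent.TH478.CE

namespace A6Aux

theorem ball_scale (g : P → ℝ) {lam r : ℝ} (hlam : 0 < lam) :
    ∫ u in Metric.ball (0 : P) r, g (lam • u) =
      lam ^ (-2 : ℤ) * ∫ u in Metric.ball (0 : P) (lam * r), g u := by
  have h1 : ∀ u : P, (Metric.ball (0 : P) r).indicator (fun u => g (lam • u)) u =
      (fun v => (Metric.ball (0 : P) (lam * r)).indicator g v) (lam • u) := by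
    intro u
    have hmem : u ∈ Metric.ball (0 : P) r ↔ lam • u ∈ Metric.ball (0 : P) (lam * r) := by
      rw [mem_ball_zero_iff, mem_ball_zero_iff, norm_smul, Real.norm_of_nonneg hlam.le]
      exact (mul_lt_mul_iff_right₀ hlam).symm
    show _ = (Metric.ball (0 : P) (lam * r)).indicator g (lam • u)
    by_cases hu : u ∈ Metric.ball (0 : P) r
    · rw [indicator_of_mem hu, indicator_of_mem (hmem.1 hu)]
    · rw [indicator_of_notMem hu, indicator_of_notMem (fun h => hu (hmem.2 h))]
  rw [← integral_indicator Metric.isOpen_ball.measurableSet,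
    ← integral_indicator Metric.isOpen_ball.measurableSet]
  simp_rw [h1]
  rw [Measure.integral_comp_smul]
  simp only [finrank_euclideanSpace, Fintype.card_fin, smul_eq_mul]
  congr 1
  rw [abs_of_nonneg (by positivity)]
  rw [zpow_neg]
  norm_cast

end A6Aux

open A6Aux in
theorem dd_scale (f : P → ℝ) {lam r : ℝ} (hlam : 0 < lam) (hr : 0 < r) :
    ∫ u in Metric.ball (0 : P) r, ∫ w in Metric.ball (0 : P) r, f (lam • (u - w)) =
      lam ^ (-4 : ℤ) * dd f (lam * r) := by
  have h1 : ∀ u : P, ∫ w in Metric.ball (0 : P) r, f (lam • (u - w)) =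
      lam ^ (-2 : ℤ) * ∫ w in Metric.ball (0 : P) (lam * r), f (lam • u - w) := by
    intro u
    rw [← ball_scale (fun w => f (lam • u - w)) hlam]
    simp only [smul_sub]
  simp_rw [h1]
  rw [ball_scale (fun v => lam ^ (-2 : ℤ) * ∫ w in Metric.ball (0 : P) (lam * r), f (v - w)) hlam,
    integral_const_mul, dd, ← mul_assoc]
  congr 1
  rw [← zpow_add₀ hlam.ne']
  norm_num

end Pool.Agent.J4.H93.SR
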