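import Pool.Agent.J4.H93.SR.Defs

/-!
# Piece A7: averages over large discs (by helper82)
-/

set_option autoImplicit false

open MeasureTheory Set Filter Topology
open scoped FourierTransform

namespace Pool.Agent.J4.H93.SR

open Pool.Agent.TH478.CE

namespace A7

theorem rft_zero {f : P → ℝ} : rft f 0 = ∫ z, f z := by
  unfold rft ft
  rw [Real.fourier_eq]
  simp only [inner_zero_right, neg_zero, AddChar.map_zero_eq_one, one_smul]
  rw [integral_complex_ofReal]
  exact Complex.ofReal_re _

/-- the inner integral -/
noncomputable def g (f : P → ℝ) (R : ℝ) (u : P) : ℝ :=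
  ∫ z, (Metric.ball u R).indicator f z

theorem inner_eq (f : P → ℝ) (R : ℝ) (u : P) :
    ∫ w in Metric.ball (0 : P) R, f (u - w) = g f R u := by
  rw [← integral_indicator Metric.isOpen_ball.measurableSet]
  rw [← integral_sub_left_eq_self _ volume u]
  unfold g
  refine integral_congr_ae (Eventually.of_forall fun z => ?_)
  simp only [indicator, Metric.mem_ball, dist_zero_right, sub_sub_cancel]
  rw [dist_eq_norm, norm_sub_rev]

theorem dd_eq (f : P → ℝ) {R : ℝ} (hR : 0 < R) :
    dd f R = R ^ 2 * ∫ v in Metric.ball (0 : P) 1, g f R (R • v) := by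
  unfold dd
  simp only [inner_eq]
  rw [Measure.setIntegral_comp_smul_of_pos volume (g f R) (Metric.ball (0 : P) 1) hR,
    smul_unitBall_of_pos hR, finrank_euclideanSpace, Fintype.card_fin, smul_eq_mul,
    mul_inv_cancel_left₀ (by positivity)]

theorem g_bound {f : P → ℝ} (hf : Integrable f) (R : ℝ) (u : P) :
    ‖g f R u‖ ≤ ∫ z, ‖f z‖ := by
  unfold g
  refine (norm_integral_le_integral_norm _).trans ?_
  refine integral_mono ?_ hf.norm fun z => ?_
  · exact (hf.indicator Metric.isOpen_ball.measurableSet).norm
  · exact norm_indicator_le_norm_self f z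

theorem g_meas {f : P → ℝ} (hf : Continuous f) (R : ℝ) :
    StronglyMeasurable (fun v : P => g f R (R • v)) := by
  have h1 : StronglyMeasurable (fun p : P × P =>
      ({p : P × P | dist p.2 (R • p.1) < R}).indicator (fun p : P × P => f p.2) p) := by
    refine StronglyMeasurable.indicator ?_ ?_
    · exact (hf.comp continuous_snd).stronglyMeasurable
    · exact (isOpen_lt (by fun_prop) continuous_const).measurableSet
  have h2 := h1.integral_prod_right' (ν := (volume : Measure P))
  exact h2

theorem g_lim {f : P → ℝ} (hf : Integrable f) {v : P} (hv : v ∈ Metric.ball (0 : P) 1) :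
    Tendsto (fun R : ℝ => g f R (R • v)) atTop (𝓝 (∫ z, f z)) := by
  unfold g
  refine tendsto_integral_filter_of_dominated_convergence (fun z => ‖f z‖) ?_ ?_ hf.norm ?_
  · exact Eventually.of_forall fun R =>
      (hf.indicator Metric.isOpen_ball.measurableSet).aestronglyMeasurable
  · exact Eventually.of_forall fun R => Eventually.of_forall fun z => norm_indicator_le_norm_self f z
  · refine Eventually.of_forall fun z => ?_
    rw [mem_ball_zero_iff] at hv
    refine tendsto_const_nhds.congr' ?_
    filter_upwards [eventually_gt_atTop (‖z‖ / (1 - ‖v‖)), eventually_gt_atTop 0] with R hR hR0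
    rw [indicator_of_mem]
    rw [Metric.mem_ball, dist_eq_norm]
    have h1 : ‖z‖ < R * (1 - ‖v‖) := by
      rwa [div_lt_iff₀ (by linarith)] at hR
    have h2 : ‖z - R • v‖ ≤ ‖z‖ + R * ‖v‖ := by
      refine (norm_sub_le _ _).trans ?_
      rw [norm_smul, Real.norm_of_nonneg hR0.le]
    linarith

theorem vol_ball : (volume (Metric.ball (0 : P) 1)).toReal = Real.pi := by
  rw [EuclideanSpace.volume_ball]
  simp [Real.sq_sqrt Real.pi_pos.le]
  rw [show (1 : ℝ) + 1 = 2 by norm_num, Real.Gamma_two, div_one,
    ENNReal.toReal_ofReal Real.pi_pos.le]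

end A7

-- A7: averages over large discs
theorem dd_lim {f : P → ℝ} (hf : IsRS f) :
    Tendsto (fun R : ℝ => dd f R / (Real.pi * R ^ 2)) atTop (𝓝 (rft f 0)) := by
  have hfi := hf.integrable
  have h1 : Tendsto (fun R : ℝ => ∫ v in Metric.ball (0 : P) 1, A7.g f R (R • v)) atTop
      (𝓝 (∫ _ in Metric.ball (0 : P) 1, ∫ z, f z)) := by
    refine tendsto_integral_filter_of_dominated_convergence (fun _ => ∫ z, ‖f z‖) ?_ ?_ ?_ ?_
    · exact Eventually.of_forall fun R => (A7.g_meas hf.continuous R).aestronglyMeasurable
    · exact Eventually.of_forall fun R => Eventually.of_forall fun v => A7.g_bound hfi R _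
    · exact integrableOn_const (by
        rw [EuclideanSpace.volume_ball]
        exact ENNReal.mul_ne_top (by simp) ENNReal.ofReal_ne_top)
    · refine (ae_restrict_iff' Metric.isOpen_ball.measurableSet).2
        (Eventually.of_forall fun v hv => A7.g_lim hfi hv)
  rw [setIntegral_const, smul_eq_mul, Measure.real, A7.vol_ball] at h1
  have h2 := h1.const_mul (Real.pi⁻¹)
  rw [inv_mul_cancel_left₀ Real.pi_pos.ne', ← A7.rft_zero] at h2
  refine h2.congr' ?_
  filter_upwards [eventually_gt_atTop 0] with R hR
  rw [A7.dd_eq f hR]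
  have := Real.pi_pos
  field_simp

end Pool.Agent.J4.H93.SR
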