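import Pool.Agent.J4.H93.SR.A3b
import Pool.Agent.TH478.CE.Hex
import Pool.Agent.Helper88.SE.P_sg_prob

set_option autoImplicit false

open MeasureTheory Set Filter Topology

namespace Pool.Agent.J4.H93.SR

open Pool.Agent.TH478.CE

namespace KL

theorem norm_one (x : S2) : ‖(x : E3)‖ = 1 := by
  have := x.2
  simp

theorem proj_sq (x p : S2) : ‖(x : E3) - (inner ℝ (x : E3) (p : E3)) • (p : E3)‖ ^ 2 =
    1 - (inner ℝ (x : E3) (p : E3)) ^ 2 := by
  rw [norm_sub_sq_real, norm_one, inner_smul_right, norm_smul, norm_one, mul_one, Real.norm_eq_abs, sq_abs]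
  ring

theorem proj_sq2 (x y p : S2) : ‖((x : E3) - (inner ℝ (x : E3) (p : E3)) • (p : E3)) -
    ((y : E3) - (inner ℝ (y : E3) (p : E3)) • (p : E3))‖ ^ 2 =
    ‖(x : E3) - (y : E3)‖ ^ 2 - (inner ℝ ((x : E3) - (y : E3)) (p : E3)) ^ 2 := by
  have h : ((x : E3) - (inner ℝ (x : E3) (p : E3)) • (p : E3)) -
      ((y : E3) - (inner ℝ (y : E3) (p : E3)) • (p : E3)) =
      ((x : E3) - (y : E3)) - (inner ℝ ((x : E3) - (y : E3)) (p : E3)) • (p : E3) := by
    rw [inner_sub_left]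
    module
  rw [h, norm_sub_sq_real, inner_smul_right, norm_smul, norm_one, mul_one, Real.norm_eq_abs, sq_abs]
  ring

theorem cap_ineq (x y p : S2) {r : ℝ} (hr : 0 < r) (hr1 : r < 1)
    (hx : 0 < inner ℝ (x : E3) (p : E3)) (hx2 : 1 - (inner ℝ (x : E3) (p : E3)) ^ 2 < r ^ 2)
    (hy : 0 < inner ℝ (y : E3) (p : E3)) (hy2 : 1 - (inner ℝ (y : E3) (p : E3)) ^ 2 < r ^ 2) :
    (1 - r ^ 2) * ‖(x : E3) - (y : E3)‖ ^ 2 ≤
      ‖(x : E3) - (y : E3)‖ ^ 2 - (inner ℝ ((x : E3) - (y : E3)) (p : E3)) ^ 2 := by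
  have h1 := proj_sq x p
  have h2 := proj_sq y p
  have h3 := proj_sq2 x y p
  obtain ⟨u, hu⟩ : ∃ u, u = (x : E3) - (inner ℝ (x : E3) (p : E3)) • (p : E3) := ⟨_, rfl⟩
  obtain ⟨w, hw⟩ : ∃ w, w = (y : E3) - (inner ℝ (y : E3) (p : E3)) • (p : E3) := ⟨_, rfl⟩
  have h4 := abs_norm_sub_norm_le u w
  rw [← hu] at h1
  rw [← hw] at h2
  rw [← hu, ← hw] at h3
  rw [inner_sub_left] at h3 ⊢
  obtain ⟨a, ha⟩ : ∃ a, a = (inner ℝ (x : E3) (p : E3) : ℝ) := ⟨_, rfl⟩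
  obtain ⟨b, hb⟩ : ∃ b, b = (inner ℝ (y : E3) (p : E3) : ℝ) := ⟨_, rfl⟩
  obtain ⟨D, hD⟩ : ∃ D, D = ‖(x : E3) - (y : E3)‖ ^ 2 := ⟨_, rfl⟩
  obtain ⟨A, hA⟩ : ∃ A, A = ‖u‖ := ⟨_, rfl⟩
  obtain ⟨B, hB⟩ : ∃ B, B = ‖w‖ := ⟨_, rfl⟩
  obtain ⟨d, hd⟩ : ∃ d, d = ‖u - w‖ := ⟨_, rfl⟩
  have hA0 : 0 ≤ A := by rw [hA]; exact norm_nonneg _
  have hB0 : 0 ≤ B := by rw [hB]; exact norm_nonneg _
  have hd0 : 0 ≤ d := by rw [hd]; exact norm_nonneg _
  rw [← ha] at h1 h3 hx hx2 ⊢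
  rw [← hb] at h2 h3 hy hy2 ⊢
  rw [← hD] at h3 ⊢
  rw [← hA] at h1 h4
  rw [← hB] at h2 h4
  rw [← hd] at h3 h4
  have hr2 : 0 < 1 - r ^ 2 := by nlinarith
  have hAr : A ≤ r := by
    refine le_of_sq_le_sq ?_ hr.le
    rw [h1]; exact hx2.le
  have hBr : B ≤ r := by
    refine le_of_sq_le_sq ?_ hr.le
    rw [h2]; exact hy2.le
  have hAB : (A - B) ^ 2 ≤ d ^ 2 := by
    have := sq_abs (A - B)
    rw [← this]
    exact pow_le_pow_left₀ (abs_nonneg _) h4 2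
  -- (a - b)^2 (a + b)^2 = (B - A)^2 (A + B)^2
  have e1 : (a - b) ^ 2 * (a + b) ^ 2 = (A - B) ^ 2 * (A + B) ^ 2 := by
    have e2 : (a - b) * (a + b) = (B - A) * (A + B) := by nlinarith
    rw [← mul_pow, e2]
    ring
  have e3 : (A + B) ^ 2 ≤ 4 * r ^ 2 := by
    have : (A + B) ^ 2 ≤ (2 * r) ^ 2 := pow_le_pow_left₀ (by linarith) (by linarith) 2
    linarith
  have e4 : 4 * (1 - r ^ 2) ≤ (a + b) ^ 2 := by
    have e5 : 1 - r ^ 2 < a ^ 2 := by linarith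
    have e6 : 1 - r ^ 2 < b ^ 2 := by linarith
    have e7 : 1 - r ^ 2 ≤ a * b := by
      have e8 : (1 - r ^ 2) ^ 2 ≤ (a * b) ^ 2 := by
        rw [mul_pow, sq (1 - r ^ 2)]
        exact mul_le_mul e5.le e6.le hr2.le (by positivity)
      exact le_of_sq_le_sq e8 (by positivity)
    nlinarith
  have e9 : (a - b) ^ 2 * (4 * (1 - r ^ 2)) ≤ d ^ 2 * (4 * r ^ 2) := by
    calc (a - b) ^ 2 * (4 * (1 - r ^ 2)) ≤ (a - b) ^ 2 * (a + b) ^ 2 :=
          mul_le_mul_of_nonneg_left e4 (sq_nonneg _)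
      _ = (A - B) ^ 2 * (A + B) ^ 2 := e1
      _ ≤ d ^ 2 * (4 * r ^ 2) := mul_le_mul hAB e3 (sq_nonneg _) (sq_nonneg _)
  nlinarith

theorem chi_nonneg (r z : ℝ) : 0 ≤ chi r z := by
  unfold chi
  split_ifs with h
  · exact h.1.le
  · exact le_rfl

theorem norm_vec {ρ : ℝ} (hρ : 0 ≤ ρ) : ‖(!₂[ρ, 0] : P)‖ = ρ := by
  rw [EuclideanSpace.norm_eq]
  simp [Real.sqrt_sq hρ]

theorem pointwise {α : ℝ} (hα : 0 < α) {f : P → ℝ} (hf : Feas α f) {lam r : ℝ} (hlam : 0 < lam)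
    (hr : 0 < r) (hr1 : r < 1) (x y p : S2) :
    kap f lam r x y p ≤ Real.exp (-(α * lam ^ 2 * (1 - r ^ 2) * dist x y ^ 2)) *
      ((chi r (inner ℝ (x : E3) (p : E3)) ^ 2 + chi r (inner ℝ (y : E3) (p : E3)) ^ 2) / 2) := by
  have hcx := chi_nonneg r (inner ℝ (x : E3) (p : E3))
  have hcy := chi_nonneg r (inner ℝ (y : E3) (p : E3))
  have hexp := Real.exp_pos (-(α * lam ^ 2 * (1 - r ^ 2) * dist x y ^ 2))
  have hdist : dist x y = ‖(x : E3) - (y : E3)‖ := by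
    rw [Subtype.dist_eq, dist_eq_norm]
  have hr2 : 0 < 1 - r ^ 2 := by nlinarith
  by_cases hx : 0 < inner ℝ (x : E3) (p : E3) ∧ 1 - (inner ℝ (x : E3) (p : E3)) ^ 2 < r ^ 2
  · by_cases hy : 0 < inner ℝ (y : E3) (p : E3) ∧ 1 - (inner ℝ (y : E3) (p : E3)) ^ 2 < r ^ 2
    · have h1 := cap_ineq x y p hr hr1 hx.1 hx.2 hy.1 hy.2
      obtain ⟨q, hq⟩ : ∃ q, q = ‖(x : E3) - (y : E3)‖ ^ 2 - (inner ℝ ((x : E3) - (y : E3)) (p : E3)) ^ 2 :=
        ⟨_, rfl⟩
      have hq0 : 0 ≤ q := by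
        rw [hq]
        refine le_trans ?_ h1
        positivity
      have hprof : prof f (lam * √q) ≤ Real.exp (-(α * lam ^ 2 * (1 - r ^ 2) * dist x y ^ 2)) := by
        unfold prof
        have hρ : 0 ≤ lam * √q := by positivity
        have hle : -(α * (lam * √q) ^ 2) ≤ -(α * lam ^ 2 * (1 - r ^ 2) * dist x y ^ 2) := by
          rw [mul_pow, Real.sq_sqrt hq0, hdist, neg_le_neg_iff]
          have : α * lam ^ 2 * ((1 - r ^ 2) * ‖(x : E3) - (y : E3)‖ ^ 2) ≤ α * lam ^ 2 * q := by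
            rw [hq]
            exact mul_le_mul_of_nonneg_left h1 (by positivity)
          linarith
        by_cases h0 : (!₂[lam * √q, 0] : P) = 0
        · rw [h0]
          have hn := norm_vec hρ
          rw [h0, norm_zero] at hn
          rw [← hn] at hle
          have h5 : (0 : ℝ) ≤ -(α * lam ^ 2 * (1 - r ^ 2) * dist x y ^ 2) := by simpa using hle
          exact hf.f0_le_one.trans (Real.one_le_exp h5)
        · refine (hf.le _ h0).trans ?_
          rw [norm_vec hρ]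
          refine Real.exp_le_exp.2 ?_
          linarith
      unfold kap
      rw [← hq]
      obtain ⟨cx, hcx'⟩ : ∃ cx, cx = chi r (inner ℝ (x : E3) (p : E3)) := ⟨_, rfl⟩
      obtain ⟨cy, hcy'⟩ : ∃ cy, cy = chi r (inner ℝ (y : E3) (p : E3)) := ⟨_, rfl⟩
      rw [← hcx'] at hcx ⊢
      rw [← hcy'] at hcy ⊢
      calc cx * cy * prof f (lam * √q) ≤ cx * cy * Real.exp (-(α * lam ^ 2 * (1 - r ^ 2) * dist x y ^ 2)) :=
            mul_le_mul_of_nonneg_left hprof (mul_nonneg hcx hcy)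
        _ = Real.exp (-(α * lam ^ 2 * (1 - r ^ 2) * dist x y ^ 2)) * (cx * cy) := by ring
        _ ≤ _ := mul_le_mul_of_nonneg_left (by nlinarith [sq_nonneg (cx - cy)]) hexp.le
    · have h0 : chi r (inner ℝ (y : E3) (p : E3)) = 0 := if_neg hy
      unfold kap
      rw [h0, mul_zero, zero_mul]
      positivity
  · have h0 : chi r (inner ℝ (x : E3) (p : E3)) = 0 := if_neg hx
    unfold kap
    rw [h0, zero_mul, zero_mul]
    positivity


theorem kapint {f : P → ℝ} (hf : IsRS f) (lam r : ℝ) (x y : S2) :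
    Integrable (fun p : S2 => kap f lam r x y p) sg2 := by
  have hchi : Measurable (chi r) := by
    unfold chi
    refine Measurable.ite ?_ measurable_id measurable_const
    exact (measurableSet_lt measurable_const measurable_id).inter
      (measurableSet_lt ((measurable_id.pow_const 2).const_sub 1) measurable_const)
  have hin : ∀ v : E3, Continuous (fun p : S2 => (inner ℝ v (p : E3) : ℝ)) := fun v =>
    continuous_const.inner continuous_subtype_val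
  have hprof : Continuous (prof f) := by
    unfold prof
    refine hf.continuous.comp ?_
    fun_prop
  have hm : Measurable (fun p : S2 => kap f lam r x y p) := by
    unfold kap
    refine Measurable.mul (Measurable.mul (hchi.comp (hin _).measurable) (hchi.comp (hin _).measurable)) ?_
    refine (hprof.comp (continuous_const.mul (Real.continuous_sqrt.comp
      (continuous_const.sub ((hin _).pow 2))))).measurable
  obtain ⟨Cf, hCf⟩ : ∃ Cf : ℝ, ∀ z, |f z| ≤ Cf := by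
    obtain ⟨F, hF⟩ := hf.schwartz
    obtain ⟨Cf, hCf⟩ := F.decay 0 0
    refine ⟨Cf, fun z => ?_⟩
    have := hCf.2 z
    rw [pow_zero, one_mul, norm_iteratedFDeriv_zero, hF] at this
    exact this
  have hc1 : ∀ v p : S2, |chi r (inner ℝ (v : E3) (p : E3))| ≤ 1 := by
    intro v p
    have h1 : |(inner ℝ (v : E3) (p : E3) : ℝ)| ≤ 1 := by
      have := abs_real_inner_le_norm (v : E3) (p : E3)
      rwa [norm_one, norm_one, mul_one] at this
    unfold chi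
    split_ifs
    · exact h1
    · simp
  haveI : IsProbabilityMeasure sg2 := Pool.Agent.Helper88.SE.sg_prob 2
  refine Integrable.of_bound hm.aestronglyMeasurable Cf (Eventually.of_forall fun p => ?_)
  unfold kap
  rw [Real.norm_eq_abs, abs_mul, abs_mul]
  have h2 := hc1 x p
  have h3 := hc1 y p
  have h4 : |prof f (lam * √(‖(x : E3) - (y : E3)‖ ^ 2 - (inner ℝ ((x : E3) - (y : E3)) (p : E3)) ^ 2))| ≤ Cf := hCf _
  have h5 : 0 ≤ Cf := (abs_nonneg _).trans h4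
  calc _ ≤ 1 * 1 * Cf := mul_le_mul (mul_le_mul h2 h3 (abs_nonneg _) (by norm_num)) h4 (abs_nonneg _) (by norm_num)
    _ = Cf := by ring

end KL

theorem kap_le {α : ℝ} (hα : 0 < α) {f : P → ℝ} (hf : Feas α f) {lam r : ℝ} (hlam : 0 < lam)
    (hr : 0 < r) (hr1 : r < 1) (x y : S2) :
    ∫ p, kap f lam r x y p ∂sg2 ≤
      Real.exp (-(α * lam ^ 2 * (1 - r ^ 2) * dist x y ^ 2)) * (r ^ 2 / 4) := by
  have h1 := chi_sq x hr hr1
  have h2 := chi_sq y hr hr1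
  have h3 := integral_mono (KL.kapint hf.rs lam r x y)
    (((h1.1.add h2.1).div_const 2).const_mul (Real.exp (-(α * lam ^ 2 * (1 - r ^ 2) * dist x y ^ 2))))
    (fun p => KL.pointwise hα hf hlam hr hr1 x y p)
  refine h3.trans ?_
  have h4 : ∫ p : S2, Real.exp (-(α * lam ^ 2 * (1 - r ^ 2) * dist x y ^ 2)) *
      (((fun p : S2 => chi r (inner ℝ (x : E3) (p : E3)) ^ 2) + fun p : S2 => chi r (inner ℝ (y : E3) (p : E3)) ^ 2) p / 2) ∂sg2 =
      Real.exp (-(α * lam ^ 2 * (1 - r ^ 2) * dist x y ^ 2)) *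
        (((∫ p : S2, chi r (inner ℝ (x : E3) (p : E3)) ^ 2 ∂sg2) +
          ∫ p : S2, chi r (inner ℝ (y : E3) (p : E3)) ^ 2 ∂sg2) / 2) := by
    rw [integral_const_mul, integral_div]
    congr 2
    exact integral_add h1.1 h2.1
  refine (le_of_eq h4).trans ?_
  refine mul_le_mul_of_nonneg_left ?_ (Real.exp_pos _).le
  linarith [h1.2, h2.2]

theorem kap_diag {f : P → ℝ} (hf : IsRS f) (hp : ∀ y, 0 ≤ rft f y) {lam r : ℝ}
    (hr : 0 < r) (hr1 : r < 1) (x : S2) :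
    ∫ p, kap f lam r x x p ∂sg2 ≤ f 0 * (r ^ 2 / 4) := by
  have h0 : ∀ p : S2, kap f lam r x x p = f 0 * chi r (inner ℝ (x : E3) (p : E3)) ^ 2 := by
    intro p
    unfold kap prof
    have e : (!₂[(0 : ℝ), 0] : P) = 0 := by
      ext i
      fin_cases i <;> simp
    rw [sub_self, norm_zero, inner_zero_left]
    norm_num
    rw [e]
    ring
  simp_rw [h0]
  rw [integral_const_mul]
  exact mul_le_mul_of_nonneg_left (chi_sq x hr hr1).2 (nonneg_zero hf hp)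

end Pool.Agent.J4.H93.SR
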