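import Pool.Agent.J4.H93.SR.A3b

/-!
# Project SR, piece A9: the averaged kernel on the diagonal
-/

set_option autoImplicit false

open MeasureTheory Set Filter Topology

namespace Pool.Agent.J4.H93.SR

open Pool.Agent.TH478.CE

theorem kap_diag {f : P → ℝ} (hf : IsRS f) (hp : ∀ y, 0 ≤ rft f y) {lam r : ℝ}
    (hr : 0 < r) (hr1 : r < 1) (x : S2) :
    ∫ p, kap f lam r x x p ∂sg2 ≤ f 0 * (r ^ 2 / 4) := by
  have h0 : 0 ≤ f 0 := nonneg_zero hf hp
  have h1 : ∀ p : S2, kap f lam r x x p = f 0 * chi r (inner ℝ (x : E3) (p : E3)) ^ 2 := by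
    intro p
    unfold kap prof
    have e1 : lam * √(‖(x : E3) - (x : E3)‖ ^ 2 - (inner ℝ ((x : E3) - (x : E3)) (p : E3)) ^ 2) = 0 := by
      simp
    have e2 : (!₂[(0 : ℝ), 0] : P) = 0 := by
      ext i
      fin_cases i <;> rfl
    rw [e1, e2]
    ring
  simp only [h1]
  rw [integral_const_mul]
  exact mul_le_mul_of_nonneg_left (chi_sq x hr hr1).2 h0

end Pool.Agent.J4.H93.SR
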