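import Pool.Agent.J4.H93.SR.Defs
import Pool.Agent.Helper88.SE.P_law2
import Pool.Agent.Helper88.SE.P_sg_prob

/-!
# Project SR, piece B1: positive definiteness of the Gaussian on the sphere, with its mean
-/

set_option autoImplicit false

open MeasureTheory Set Filter Topology

namespace Pool.Agent.J4.H93.SR

namespace B1Aux

theorem gInt {b : ℝ} (hb : 0 < b) : Integrable (fun z : E3 => Real.exp (-(b * ‖z‖ ^ 2))) := by
  have h := GaussianFourier.integrable_cexp_neg_mul_sq_norm_add (V := E3) (b := (b : ℂ))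
    (by simpa using hb) 0 0
  refine h.norm.congr (Eventually.of_forall fun z => ?_)
  simp only [Complex.norm_exp]
  congr 1
  simp [← Complex.ofReal_pow]

theorem quad (t : ℝ) (x y z : E3) : Real.exp (-(2 * t * ‖x - z‖ ^ 2)) *
    Real.exp (-(2 * t * ‖y - z‖ ^ 2)) =
      Real.exp (-(t * ‖x - y‖ ^ 2)) * Real.exp (-(4 * t * ‖z - (1 / 2 : ℝ) • (x + y)‖ ^ 2)) := by
  rw [← Real.exp_add, ← Real.exp_add]
  congr 1
  have h1 : ‖x - z‖ ^ 2 = ‖x‖ ^ 2 - 2 * inner ℝ x z + ‖z‖ ^ 2 := norm_sub_sq_real x z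
  have h2 : ‖y - z‖ ^ 2 = ‖y‖ ^ 2 - 2 * inner ℝ y z + ‖z‖ ^ 2 := norm_sub_sq_real y z
  have h3 : ‖x - y‖ ^ 2 = ‖x‖ ^ 2 - 2 * inner ℝ x y + ‖y‖ ^ 2 := norm_sub_sq_real x y
  have h4 : ‖z - (1 / 2 : ℝ) • (x + y)‖ ^ 2 = ‖z‖ ^ 2 - (inner ℝ x z + inner ℝ y z) +
      (1 / 4) * (‖x‖ ^ 2 + 2 * inner ℝ x y + ‖y‖ ^ 2) := by
    rw [norm_sub_sq_real, norm_smul, mul_pow, norm_add_sq_real, inner_smul_right, inner_add_right,
      real_inner_comm x z, real_inner_comm y z]
    norm_num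
    ring
  rw [h1, h2, h3, h4]
  ring

theorem gInt2 {t : ℝ} (ht : 0 < t) (x y : E3) :
    Integrable (fun z : E3 => Real.exp (-(2 * t * ‖x - z‖ ^ 2)) *
      Real.exp (-(2 * t * ‖y - z‖ ^ 2))) := by
  simp_rw [quad]
  exact ((gInt (b := 4 * t) (by positivity)).comp_sub_right _).const_mul _

theorem gval {t : ℝ} (x y : E3) :
    ∫ z : E3, Real.exp (-(2 * t * ‖x - z‖ ^ 2)) * Real.exp (-(2 * t * ‖y - z‖ ^ 2)) =
      Real.exp (-(t * ‖x - y‖ ^ 2)) * ∫ z : E3, Real.exp (-(4 * t * ‖z‖ ^ 2)) := by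
  simp_rw [quad]
  rw [integral_const_mul]
  congr 1
  exact integral_sub_right_eq_self (fun z : E3 => Real.exp (-(4 * t * ‖z‖ ^ 2))) _

theorem gmem {t : ℝ} (ht : 0 < t) (x : E3) :
    MemLp (fun z : E3 => Real.exp (-(2 * t * ‖x - z‖ ^ 2))) 2 (volume : Measure E3) := by
  have hc : Continuous (fun z : E3 => Real.exp (-(2 * t * ‖x - z‖ ^ 2))) := by fun_prop
  rw [memLp_two_iff_integrable_sq hc.aestronglyMeasurable]
  refine (gInt2 ht x x).congr (Eventually.of_forall fun z => ?_)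
  simp only []
  ring

/-- the feature map -/
noncomputable def Phi0 {t : ℝ} (ht : 0 < t) (x : S2) : Lp ℝ 2 (volume : Measure E3) :=
  (gmem ht (x : E3)).toLp _

theorem Phi0_inner {t : ℝ} (ht : 0 < t) (x y : S2) :
    inner ℝ (Phi0 ht x) (Phi0 ht y) =
      Real.exp (-(t * dist x y ^ 2)) * ∫ z : E3, Real.exp (-(4 * t * ‖z‖ ^ 2)) := by
  rw [MeasureTheory.L2.inner_def]
  have h1 : ∫ a : E3, inner ℝ ((Phi0 ht x : Lp ℝ 2 (volume : Measure E3)) a)
      ((Phi0 ht y : Lp ℝ 2 (volume : Measure E3)) a) =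
      ∫ z : E3, Real.exp (-(2 * t * ‖(x : E3) - z‖ ^ 2)) *
        Real.exp (-(2 * t * ‖(y : E3) - z‖ ^ 2)) := by
    refine integral_congr_ae ?_
    filter_upwards [(gmem ht (x : E3)).coeFn_toLp, (gmem ht (y : E3)).coeFn_toLp] with a h2 h3
    simp only [Phi0]
    rw [h2, h3]
    simp [mul_comm]
  rw [h1, gval, Subtype.dist_eq, dist_eq_norm]

theorem Cpos {t : ℝ} (ht : 0 < t) : 0 < ∫ z : E3, Real.exp (-(4 * t * ‖z‖ ^ 2)) := by
  refine (integral_pos_iff_support_of_nonneg (fun z => (Real.exp_pos _).le)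
    (gInt (b := 4 * t) (by positivity))).2 ?_
  have : Function.support (fun z : E3 => Real.exp (-(4 * t * ‖z‖ ^ 2))) = univ := by
    ext z
    simp [Real.exp_ne_zero]
  rw [this]
  exact Measure.measure_univ_pos.2 (NeZero.ne _)

theorem Phi0_cont {t : ℝ} (ht : 0 < t) : Continuous (Phi0 ht) := by
  rw [continuous_iff_continuousAt]
  intro x
  rw [ContinuousAt, tendsto_iff_norm_sub_tendsto_zero]
  have h1 : ∀ y, ‖Phi0 ht y - Phi0 ht x‖ = √(2 * (1 - Real.exp (-(t * dist y x ^ 2))) *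
      ∫ z : E3, Real.exp (-(4 * t * ‖z‖ ^ 2))) := by
    intro y
    rw [← Real.sqrt_sq (norm_nonneg (Phi0 ht y - Phi0 ht x)), norm_sub_sq_real,
      ← real_inner_self_eq_norm_sq, ← real_inner_self_eq_norm_sq, Phi0_inner, Phi0_inner,
      Phi0_inner]
    congr 1
    simp
    ring
  simp_rw [h1]
  have h2 : Continuous fun y : S2 => √(2 * (1 - Real.exp (-(t * dist y x ^ 2))) *
      ∫ z : E3, Real.exp (-(4 * t * ‖z‖ ^ 2))) := by fun_prop
  have h3 := h2.tendsto x
  simpa using h3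

/-- the mean -/
theorem mean {t : ℝ} (ht : 0 < t) (x : S2) :
    ∫ y : S2, Real.exp (-(t * dist x y ^ 2)) ∂sg2 = g2 t := by
  have hm : Measurable (fun u : ℝ => ENNReal.ofReal (Real.exp (-(t * u ^ 2)))) := by fun_prop
  have h1 := Pool.Agent.Helper88.SE.law2 _ hm x
  rw [integral_eq_lintegral_of_nonneg_ae (Eventually.of_forall fun y => (Real.exp_pos _).le)
    (by
      have hc : Continuous fun y : S2 => Real.exp (-(t * dist x y ^ 2)) := by fun_prop
      exact hc.aestronglyMeasurable)]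
  rw [h1]
  have h2 : ∫⁻ u in Icc (0 : ℝ) 2, ENNReal.ofReal (Real.exp (-(t * u ^ 2))) *
      ENNReal.ofReal (u / 2) = ENNReal.ofReal (∫ u in (0 : ℝ)..2, Real.exp (-(t * u ^ 2)) * (u / 2)) := by
    rw [intervalIntegral.integral_of_le (by norm_num), ← integral_Icc_eq_integral_Ioc,
      ofReal_integral_eq_lintegral_ofReal]
    · refine setLIntegral_congr_fun measurableSet_Icc fun u hu => ?_
      rw [ENNReal.ofReal_mul (Real.exp_pos _).le]
    · have hc : Continuous fun u : ℝ => Real.exp (-(t * u ^ 2)) * (u / 2) := by fun_prop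
      exact hc.integrableOn_Icc
    · refine (ae_restrict_iff' measurableSet_Icc).2 (Eventually.of_forall fun u hu => ?_)
      exact mul_nonneg (Real.exp_pos _).le (by linarith [hu.1])
  have h3 : ∫ u in (0 : ℝ)..2, Real.exp (-(t * u ^ 2)) * (u / 2) = g2 t := by
    have hd : ∀ u ∈ uIcc (0 : ℝ) 2,
        HasDerivAt (fun u : ℝ => -(1 / (4 * t)) * Real.exp (-(t * u ^ 2)))
        (Real.exp (-(t * u ^ 2)) * (u / 2)) u := by
      intro u _
      have h4 : HasDerivAt (fun u : ℝ => -(t * u ^ 2)) (-(t * (2 * u))) u := by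
        have h := (hasDerivAt_pow 2 u).const_mul (-t)
        have e : (fun u : ℝ => -(t * u ^ 2)) = fun u => -t * u ^ 2 := by
          funext v
          ring
        rw [e]
        refine h.congr_deriv ?_
        simp
      refine (h4.exp.const_mul (-(1 / (4 * t)))).congr_deriv ?_
      field_simp
      ring
    rw [intervalIntegral.integral_eq_sub_of_hasDerivAt hd]
    · unfold g2
      field_simp
      norm_num
      ring_nf
    · have hc : Continuous fun u : ℝ => Real.exp (-(t * u ^ 2)) * (u / 2) := by fun_prop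
      exact hc.intervalIntegrable _ _
  rw [h2, h3, ENNReal.toReal_ofReal]
  rw [← h3]
  exact intervalIntegral.integral_nonneg (by norm_num) fun u hu =>
    mul_nonneg (Real.exp_pos _).le (by linarith [hu.1])

end B1Aux

open B1Aux in
theorem gauss_pd {t : ℝ} (ht : 0 < t) {N : ℕ} (x : Fin N → S2) :
    (N : ℝ) ^ 2 * g2 t ≤ Ga t x + N := by
  have : IsProbabilityMeasure sg2 := Pool.Agent.Helper88.SE.sg_prob 2
  set C := ∫ z : E3, Real.exp (-(4 * t * ‖z‖ ^ 2)) with hC
  have hC0 : 0 < C := Cpos ht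
  have hint : Integrable (Phi0 ht) sg2 := by
    refine (Phi0_cont ht).integrable_of_hasCompactSupport ?_
    exact HasCompactSupport.of_compactSpace _
  set m := ∫ y, Phi0 ht y ∂sg2 with hm
  have h1 : ∀ y : S2, inner ℝ (Phi0 ht y) m = C * g2 t := by
    intro y
    rw [hm, ← integral_inner hint]
    simp_rw [Phi0_inner]
    rw [integral_mul_const, mean ht y, mul_comm]
  have h2 : inner ℝ m m = C * g2 t := by
    have h3 : ∫ y, inner ℝ m (Phi0 ht y) ∂sg2 = inner ℝ m m := integral_inner hint m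
    rw [← h3]
    have h4 : ∀ y, inner ℝ m (Phi0 ht y) = C * g2 t := fun y => by
      rw [real_inner_comm]
      exact h1 y
    simp_rw [h4]
    simp
  have h5 : inner ℝ (∑ i, Phi0 ht (x i)) m = N * (C * g2 t) := by
    rw [sum_inner]
    simp_rw [h1]
    simp
  have h6 : inner ℝ (∑ i, Phi0 ht (x i)) (∑ i, Phi0 ht (x i)) = C * (Ga t x + N) := by
    rw [sum_inner]
    simp_rw [inner_sum, Phi0_inner]
    have h7 : Ga t x + N = ∑ i, ∑ j, Real.exp (-(t * dist (x i) (x j) ^ 2)) := by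
      unfold Ga
      have h8 : (N : ℝ) = ∑ i : Fin N, ∑ j : Fin N, if i = j then (1 : ℝ) else 0 := by simp
      conv_lhs => rw [h8]
      rw [← Finset.sum_add_distrib]
      refine Finset.sum_congr rfl fun i _ => ?_
      rw [← Finset.sum_add_distrib]
      refine Finset.sum_congr rfl fun j _ => ?_
      by_cases hij : i = j
      · subst hij
        simp
      · simp [hij]
    rw [h7, Finset.mul_sum]
    refine Finset.sum_congr rfl fun i _ => ?_
    rw [Finset.mul_sum]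
    refine Finset.sum_congr rfl fun j _ => ?_
    rw [mul_comm]
  have h9 : 0 ≤ ‖(∑ i, Phi0 ht (x i)) - (N : ℝ) • m‖ ^ 2 := by positivity
  rw [norm_sub_sq_real, ← real_inner_self_eq_norm_sq, h6, inner_smul_right, h5, norm_smul, mul_pow,
    ← real_inner_self_eq_norm_sq m, h2] at h9
  have h10 : 0 ≤ C * (Ga t x + N - N ^ 2 * g2 t) := by
    have : ‖(N : ℝ)‖ ^ 2 = (N : ℝ) ^ 2 := by simp
    rw [this] at h9
    nlinarith [h9]
  have h11 := nonneg_of_mul_nonneg_right h10 hC0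
  linarith

end Pool.Agent.J4.H93.SR
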