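import Pool.Agent.J4.H93.SR.Defs
import Pool.Agent.Helper88.SE.P_Ic2

/-!
# Project SR, piece B2 (helper96): representation of the Riesz energy
-/

set_option autoImplicit false

open MeasureTheory Set Filter Topology

namespace Pool.Agent.J4.H93.SR

open Pool.Agent.TH478.CE

namespace B2

theorem gint {m r : ℝ} (hm : 0 < m) (hr : 0 < r) :
    IntegrableOn (fun t : ℝ => t ^ (m - 1) * Real.exp (-(r * t))) (Ioi 0) ∧
    ∫ t in Ioi (0 : ℝ), t ^ (m - 1) * Real.exp (-(r * t)) = r ^ (-m) * Real.Gamma m := by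
  constructor
  · have h := integrableOn_rpow_mul_exp_neg_mul_rpow (s := m - 1) (p := 1) (b := r) (by linarith)
      one_pos hr
    refine h.congr_fun (fun t _ => ?_) measurableSet_Ioi
    simp only [Real.rpow_one, neg_mul]
  · rw [Real.integral_rpow_mul_exp_neg_mul_Ioi hm hr, one_div, Real.inv_rpow hr.le,
      ← Real.rpow_neg hr.le]

theorem fub {m a : ℝ} (hm : 0 < m) (hm1 : m < 1) (ha : 0 < a) :
    IntegrableOn (fun t : ℝ => t ^ (m - 1) * ((1 - Real.exp (-(a * t))) / t)) (Ioi 0) ∧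
    ∫ t in Ioi (0 : ℝ), t ^ (m - 1) * ((1 - Real.exp (-(a * t))) / t) =
      a ^ (1 - m) / (1 - m) * Real.Gamma m := by
  have hmeas : AEStronglyMeasurable (fun p : ℝ × ℝ => p.1 ^ (m - 1) * Real.exp (-(p.2 * p.1)))
      ((volume.restrict (Ioi (0 : ℝ))).prod (volume.restrict (Ioc (0 : ℝ) a))) := by
    apply Measurable.aestronglyMeasurable
    fun_prop
  have hin : ∀ᵐ w ∂(volume.restrict (Ioc (0 : ℝ) a)),
      Integrable (fun t => t ^ (m - 1) * Real.exp (-(w * t))) (volume.restrict (Ioi (0 : ℝ))) := by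
    filter_upwards [ae_restrict_mem measurableSet_Ioc] with w hw
    exact (gint hm hw.1).1
  have hnorm : ∀ᵐ w ∂(volume.restrict (Ioc (0 : ℝ) a)),
      w ^ (-m) * Real.Gamma m = ∫ t in Ioi (0 : ℝ), ‖t ^ (m - 1) * Real.exp (-(w * t))‖ := by
    filter_upwards [ae_restrict_mem measurableSet_Ioc] with w hw
    rw [← (gint hm hw.1).2]
    refine setIntegral_congr_fun measurableSet_Ioi fun t ht => ?_
    have ht' : (0 : ℝ) < t := ht
    rw [Real.norm_of_nonneg (by positivity)]
  have hw : Integrable (fun w : ℝ => w ^ (-m) * Real.Gamma m)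
      (volume.restrict (Ioc (0 : ℝ) a)) := by
    have h1 : IntervalIntegrable (fun x : ℝ => x ^ (-m)) volume 0 a :=
      intervalIntegral.intervalIntegrable_rpow' (by linarith)
    exact ((intervalIntegrable_iff_integrableOn_Ioc_of_le ha.le).1 h1).mul_const _
  have hprod : Integrable (fun p : ℝ × ℝ => p.1 ^ (m - 1) * Real.exp (-(p.2 * p.1)))
      ((volume.restrict (Ioi (0 : ℝ))).prod (volume.restrict (Ioc (0 : ℝ) a))) := by
    rw [integrable_prod_iff' hmeas]
    exact ⟨hin, hw.congr hnorm⟩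
  have hinner : ∀ t ∈ Ioi (0 : ℝ), ∫ w in Ioc (0 : ℝ) a, t ^ (m - 1) * Real.exp (-(w * t)) =
      t ^ (m - 1) * ((1 - Real.exp (-(a * t))) / t) := by
    intro t ht
    have ht' : t ≠ 0 := ne_of_gt ht
    rw [integral_const_mul]
    congr 1
    rw [← intervalIntegral.integral_of_le ha.le]
    have hd : ∀ w ∈ uIcc 0 a, HasDerivAt (fun w : ℝ => -(Real.exp (-(w * t)) / t))
        (Real.exp (-(w * t))) w := by
      intro w _
      have h1 : HasDerivAt (fun w : ℝ => -(w * t)) (-t) w := by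
        have h0 := ((hasDerivAt_id' w).mul_const t).neg
        rw [one_mul] at h0
        exact h0
      have h2 := (h1.exp.div_const t).neg
      have h3 : -(Real.exp (-(w * t)) * -t / t) = Real.exp (-(w * t)) := by
        rw [mul_neg, neg_div, neg_neg, mul_div_assoc, div_self ht', mul_one]
      rw [h3] at h2
      exact h2
    rw [intervalIntegral.integral_eq_sub_of_hasDerivAt hd
      (Continuous.intervalIntegrable (by fun_prop) _ _)]
    simp
    ring
  constructor
  · have h := hprod.integral_prod_left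
    refine h.congr ?_
    filter_upwards [ae_restrict_mem measurableSet_Ioi] with t ht
    exact hinner t ht
  · have h := integral_integral_swap (f := fun t w : ℝ => t ^ (m - 1) * Real.exp (-(w * t))) hprod
    rw [setIntegral_congr_fun measurableSet_Ioi (fun t ht => (hinner t ht).symm), h,
      setIntegral_congr_fun measurableSet_Ioc (fun w hw => (gint hm hw.1).2), integral_mul_const,
      ← intervalIntegral.integral_of_le ha.le, integral_rpow (Or.inl (by linarith))]
    congr 2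
    · rw [Real.zero_rpow (by linarith), sub_zero]
      congr 1
      ring
    · ring

end B2

theorem riesz_rep {s : ℝ} (hs : 0 < s) (hs2 : s < 2) {N : ℕ} (hN : 0 < N) (x : Fin N → S2)
    (hx : Function.Injective x) :
    IntegrableOn (fun τ : ℝ => τ ^ (s / 2 - 1) * Phi x τ) (Ioi 0) ∧
    Pool.Agent.Helper88.SE.En s x - (N : ℝ) ^ 2 * Pool.Agent.Helper88.SE.Ic 2 s =
      (N : ℝ) ^ (1 + s / 2) * (1 / Real.Gamma (s / 2) *
        ∫ τ in Ioi (0 : ℝ), τ ^ (s / 2 - 1) * Phi x τ) := by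
  have hNr : (0 : ℝ) < N := by exact_mod_cast hN
  set m : ℝ := s / 2 with hm
  have hm0 : 0 < m := by positivity
  have hm1 : m < 1 := by rw [hm]; linarith
  have hdist : ∀ i j, i ≠ j → 0 < dist (x i) (x j) := fun i j h => dist_pos.2 fun e => h (hx e)
  set T : Fin N → Fin N → ℝ → ℝ := fun i j τ =>
    if i = j then 0 else τ ^ (m - 1) * Real.exp (-((N * dist (x i) (x j) ^ 2) * τ)) with hT
  have hTi : ∀ i j, IntegrableOn (T i j) (Ioi 0) := by
    intro i j
    by_cases h : i = j
    · simp only [hT, h, if_true]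
      exact integrableOn_zero
    · simp only [hT, h, if_false]
      have := hdist i j h
      exact (B2.gint hm0 (by positivity)).1
  have hTv : ∀ i j, ∫ τ in Ioi (0 : ℝ), T i j τ =
      if i = j then 0 else (N * dist (x i) (x j) ^ 2) ^ (-m) * Real.Gamma m := by
    intro i j
    by_cases h : i = j
    · simp [hT, h]
    · simp only [hT, h, if_false]
      have := hdist i j h
      exact (B2.gint hm0 (by positivity)).2
  obtain ⟨hf1, hf2⟩ := B2.fub hm0 hm1 (by positivity : (0 : ℝ) < 4 * N)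
  have hPhi : ∀ τ ∈ Ioi (0 : ℝ), τ ^ (m - 1) * Phi x τ =
      1 / N * (∑ i, ∑ j, T i j τ) -
        1 / 4 * (τ ^ (m - 1) * ((1 - Real.exp (-((4 * N) * τ))) / τ)) := by
    intro τ hτ
    have hτ' : (0 : ℝ) < τ := hτ
    unfold Phi Ga g2
    rw [mul_sub]
    congr 1
    · rw [mul_left_comm, Finset.mul_sum]
      congr 1
      refine Finset.sum_congr rfl fun i _ => ?_
      rw [Finset.mul_sum]
      refine Finset.sum_congr rfl fun j _ => ?_
      simp only [hT]
      split_ifs
      · rw [mul_zero]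
      · congr 3
        ring
    · rw [show -(4 * (τ * (N : ℝ))) = -((4 * N) * τ) by ring]
      field_simp
  have hsumi : IntegrableOn (fun τ => ∑ i, ∑ j, T i j τ) (Ioi 0) :=
    integrable_finsetSum _ fun i _ => integrable_finsetSum _ fun j _ => hTi i j
  have hint : IntegrableOn (fun τ : ℝ => 1 / N * (∑ i, ∑ j, T i j τ) -
        1 / 4 * (τ ^ (m - 1) * ((1 - Real.exp (-((4 * N) * τ))) / τ))) (Ioi 0) :=
    (hsumi.const_mul _).sub (hf1.const_mul _)
  refine ⟨hint.congr_fun (fun τ hτ => (hPhi τ hτ).symm) measurableSet_Ioi, ?_⟩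
  rw [setIntegral_congr_fun measurableSet_Ioi hPhi, integral_sub (hsumi.const_mul _)
    (hf1.const_mul _), integral_const_mul, integral_const_mul, hf2, integral_finsetSum _
    (fun i _ => integrable_finsetSum _ fun j _ => hTi i j)]
  have e1 : ∀ i, ∫ τ in Ioi (0 : ℝ), ∑ j, T i j τ =
      ∑ j, if i = j then 0 else (N * dist (x i) (x j) ^ 2) ^ (-m) * Real.Gamma m := by
    intro i
    rw [integral_finsetSum _ (fun j _ => hTi i j)]
    exact Finset.sum_congr rfl fun j _ => hTv i j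
  simp_rw [e1]
  have hG : Real.Gamma m ≠ 0 := (Real.Gamma_pos_of_pos hm0).ne'
  have e2 : ∀ i j, (if i = j then (0 : ℝ) else (N * dist (x i) (x j) ^ 2) ^ (-m) * Real.Gamma m) =
      Real.Gamma m * (N : ℝ) ^ (-m) * Pool.Agent.Helper88.SE.K s (x i) (x j) := by
    intro i j
    unfold Pool.Agent.Helper88.SE.K
    split_ifs with h
    · rw [h, dist_self, Real.zero_rpow (by linarith), mul_zero]
    · have hd := hdist i j h
      rw [Real.mul_rpow hNr.le (by positivity), ← Real.rpow_natCast (dist (x i) (x j)) 2,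
        ← Real.rpow_mul hd.le]
      have e3 : ((2 : ℕ) : ℝ) * -m = -s := by rw [hm]; push_cast; ring
      rw [e3]
      ring
  simp_rw [e2, ← Finset.mul_sum]
  rw [Pool.Agent.Helper88.SE.Ic2 s hs hs2]
  unfold Pool.Agent.Helper88.SE.En
  set A := ∑ i, ∑ j, Pool.Agent.Helper88.SE.K s (x i) (x j) with hA
  have e4 : (N : ℝ) ^ (1 + m) * (1 / N * (N : ℝ) ^ (-m)) = 1 := by
    rw [Real.rpow_add hNr, Real.rpow_one, Real.rpow_neg hNr.le]
    have : (N : ℝ) ^ m ≠ 0 := (Real.rpow_pos_of_pos hNr m).ne'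
    field_simp
  have e5 : (N : ℝ) ^ (1 + m) * (1 / 4 * ((4 * (N : ℝ)) ^ (1 - m) / (1 - m))) =
      (N : ℝ) ^ 2 * (2 ^ (1 - s) / (2 - s)) := by
    have h1 : (N : ℝ) ^ (1 + m) * (N : ℝ) ^ (1 - m) = (N : ℝ) ^ 2 := by
      rw [← Real.rpow_add hNr, ← Real.rpow_natCast]
      congr 1
      push_cast
      ring
    have h2 : (4 : ℝ) ^ (1 - m) = 2 * 2 ^ (1 - s) := by
      have h4 : (4 : ℝ) = 2 ^ (2 : ℝ) := by norm_num
      rw [h4, ← Real.rpow_mul (by norm_num)]
      have h5 : (2 : ℝ) * 2 ^ (1 - s) = 2 ^ (1 : ℝ) * 2 ^ (1 - s) := by rw [Real.rpow_one]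
      rw [h5, ← Real.rpow_add (by norm_num)]
      congr 1
      rw [hm]
      ring
    have h3 : (1 : ℝ) - m ≠ 0 := by linarith
    have h3' : (2 : ℝ) - s ≠ 0 := by linarith
    have h6 : (2 : ℝ) - s = 2 * (1 - m) := by rw [hm]; ring
    rw [Real.mul_rpow (by norm_num) hNr.le, h2, h6, ← h1]
    field_simp
    ring
  have e6 : (N : ℝ) ^ (1 + m) * (1 / Real.Gamma m * (1 / N * (Real.Gamma m * (N : ℝ) ^ (-m) * A) -
      1 / 4 * ((4 * (N : ℝ)) ^ (1 - m) / (1 - m) * Real.Gamma m))) =
      ((N : ℝ) ^ (1 + m) * (1 / N * (N : ℝ) ^ (-m))) * A -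
        (N : ℝ) ^ (1 + m) * (1 / 4 * ((4 * (N : ℝ)) ^ (1 - m) / (1 - m))) := by
    field_simp
  rw [e6, e4, e5, one_mul]

end Pool.Agent.J4.H93.SR
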