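import Pool.Agent.J4.H93.SR.Defs
import Pool.Agent.TH478.CE.Hex

/-! Project SR, piece B3: integrability. -/

set_option autoImplicit false

open MeasureTheory Set Filter Topology

namespace Pool.Agent.J4.H93.SR

open Pool.Agent.TH478.CE

namespace B3

theorem int_of {G : ℝ → ℝ} (hG : ContinuousOn G (Ioi 0)) {a b c C : ℝ} (ha : -1 < a) (hb : b < -1)
    (hc : 0 < c) (h1 : ∀ t, 0 < t → t ≤ c → |G t| ≤ C * t ^ a) (h2 : ∀ t, c < t → |G t| ≤ C * t ^ b) :
    IntegrableOn G (Ioi 0) := by
  have hm : AEStronglyMeasurable G (volume.restrict (Ioi 0)) :=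
    hG.aestronglyMeasurable measurableSet_Ioi
  rw [← Ioc_union_Ioi_eq_Ioi hc.le]
  refine IntegrableOn.union ?_ ?_
  · have h3 : IntegrableOn (fun t : ℝ => C * t ^ a) (Ioc 0 c) := by
      have h4 := (intervalIntegral.intervalIntegrable_rpow' (a := 0) (b := c) ha)
      rw [intervalIntegrable_iff_integrableOn_Ioc_of_le hc.le] at h4
      exact h4.const_mul C
    refine Integrable.mono' h3 (hm.mono_measure (Measure.restrict_mono Ioc_subset_Ioi_self le_rfl)) ?_
    rw [ae_restrict_iff' measurableSet_Ioc]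
    exact Eventually.of_forall fun t ht => by
      rw [Real.norm_eq_abs]
      exact h1 t ht.1 ht.2
  · have h3 : IntegrableOn (fun t : ℝ => C * t ^ b) (Ioi c) :=
      (integrableOn_Ioi_rpow_of_lt hb hc).const_mul C
    refine Integrable.mono' h3
      (hm.mono_measure (Measure.restrict_mono (Ioi_subset_Ioi hc.le) le_rfl)) ?_
    rw [ae_restrict_iff' measurableSet_Ioi]
    exact Eventually.of_forall fun t ht => by
      rw [Real.norm_eq_abs]
      exact h2 t ht

theorem cont_rpow (a : ℝ) : ContinuousOn (fun t : ℝ => t ^ a) (Ioi 0) := fun t ht =>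
  (Real.continuousAt_rpow_const t a (Or.inl (ne_of_gt ht))).continuousWithinAt

theorem mul_exp_le {x a : ℝ} (ha : 0 < a) : x * Real.exp (-(a * x)) ≤ 1 / a := by
  have h1 : a * x + 1 ≤ Real.exp (a * x) := Real.add_one_le_exp _
  rw [Real.exp_neg, ← div_eq_mul_inv, div_le_div_iff₀ (Real.exp_pos _) ha]
  linarith

end B3

open B3

theorem h_int {s : ℝ} (hs : 0 < s) (hs2 : s < 2) :
    IntegrableOn (fun τ : ℝ => τ ^ (s / 2 - 1) * min 1 (1 / (4 * τ))) (Ioi 0) := by
  refine int_of (a := s / 2 - 1) (b := s / 2 - 2) (c := 1) (C := 1) ?_ (by linarith)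
    (by linarith) one_pos ?_ ?_
  · refine (cont_rpow _).mul ?_
    refine ContinuousOn.inf continuousOn_const ?_
    refine continuousOn_const.div (by fun_prop) fun t ht => ?_
    have : (0 : ℝ) < t := ht
    positivity
  · intro t ht _
    rw [abs_of_nonneg (by positivity), one_mul]
    exact mul_le_of_le_one_right (by positivity) (min_le_left _ _)
  · intro t ht
    have ht0 : 0 < t := by linarith
    rw [abs_of_nonneg (by positivity), one_mul]
    have h1 : t ^ (s / 2 - 2) = t ^ (s / 2 - 1) * t⁻¹ := by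
      rw [show s / 2 - 2 = (s / 2 - 1) - 1 by ring, Real.rpow_sub_one ht0.ne', div_eq_mul_inv]
    rw [h1]
    refine mul_le_mul_of_nonneg_left ((min_le_right _ _).trans ?_) (by positivity)
    rw [one_div]
    exact inv_anti₀ ht0 (by linarith)

theorem En_int {s : ℝ} (hs : 0 < s) (hs2 : s < 2) :
    IntegrableOn (fun τ : ℝ => τ ^ (s / 2 - 1) *
      (Pool.Agent.TH478.CE.En (4 * Real.pi * τ) - 1 / (4 * τ))) (Ioi 0) := by
  have hpi := Real.pi_pos
  have hpi3 := Real.pi_gt_three
  have hc := c3_pos
  set K : ℝ := Real.exp c3 * En 1 with hK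
  have hK0 : 0 < K := mul_pos (Real.exp_pos _) (En_pos one_pos)
  set C : ℝ := 1 + K / (c3 * Real.pi) with hC
  have hC0 : 0 < C := by positivity
  refine int_of (a := s / 2 - 1) (b := s / 2 - 2) (c := 1 / 4) (C := C) ?_ (by linarith)
    (by linarith) (by norm_num) ?_ ?_
  · refine (cont_rpow _).mul (ContinuousOn.sub ?_ ?_)
    · refine En_continuousOn.comp (by fun_prop) fun t ht => ?_
      have : (0 : ℝ) < t := ht
      exact mem_Ioi.2 (by positivity)
    · refine continuousOn_const.div (by fun_prop) fun t ht => ?_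
      have : (0 : ℝ) < t := ht
      positivity
  · intro t ht ht4
    rw [abs_mul, abs_of_pos (Real.rpow_pos_of_pos ht _), mul_comm C]
    refine mul_le_mul_of_nonneg_left ?_ (Real.rpow_nonneg ht.le _)
    set β := 4 * Real.pi * t with hβ
    have hβ0 : 0 < β := by positivity
    have hβπ : β ≤ Real.pi := by nlinarith
    have h1 := En_dual hβ0
    set γ := Real.pi ^ 2 / β with hγ
    have hγ1 : 1 ≤ γ := by
      rw [hγ, le_div_iff₀ hβ0]
      nlinarith
    have h2 := En_upper hγ1
    have h3 : 1 / (4 * t) = Real.pi / β := by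
      rw [hβ]
      field_simp
    have h4 : En β = Real.pi / β * (En γ + 1) - 1 := by
      have h5 : Real.pi / β * (En γ + 1) = En β + 1 := by
        rw [h1]
        field_simp
      linarith
    have h6 : En β - 1 / (4 * t) = Real.pi / β * En γ - 1 := by
      rw [h3, h4]
      ring
    have h7 : 0 ≤ Real.pi / β * En γ := mul_nonneg (by positivity) (En_pos (by linarith)).le
    have h8 : Real.pi / β * En γ ≤ K / (c3 * Real.pi) := by
      have h9 : γ = Real.pi * (Real.pi / β) := by rw [hγ]; ring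
      have h10 := mul_exp_le (x := Real.pi / β) (a := c3 * Real.pi) (by positivity)
      calc Real.pi / β * En γ ≤ Real.pi / β * (K * Real.exp (-γ * c3)) :=
            mul_le_mul_of_nonneg_left h2 (by positivity)
        _ = K * (Real.pi / β * Real.exp (-(c3 * Real.pi * (Real.pi / β)))) := by
            rw [h9]
            ring_nf
        _ ≤ K * (1 / (c3 * Real.pi)) := mul_le_mul_of_nonneg_left h10 hK0.le
        _ = K / (c3 * Real.pi) := by ring
    rw [h6, abs_le]
    constructor
    · linarith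
    · linarith
  · intro t ht
    have ht0 : 0 < t := by linarith
    rw [abs_mul, abs_of_pos (Real.rpow_pos_of_pos ht0 _)]
    have hr : t ^ (s / 2 - 2) = t ^ (s / 2 - 1) * t⁻¹ := by
      rw [show s / 2 - 2 = (s / 2 - 1) - 1 by ring, Real.rpow_sub_one ht0.ne', div_eq_mul_inv]
    rw [hr, show C * (t ^ (s / 2 - 1) * t⁻¹) = t ^ (s / 2 - 1) * (C * t⁻¹) by ring]
    refine mul_le_mul_of_nonneg_left ?_ (Real.rpow_nonneg ht0.le _)
    set β := 4 * Real.pi * t with hβ
    have hβ1 : 1 ≤ β := by nlinarith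
    have h2 := En_upper hβ1
    have h3 : En β ≤ K / (c3 * Real.pi) * t⁻¹ := by
      have h10 := mul_exp_le (x := t) (a := 4 * Real.pi * c3) (by positivity)
      have h11 : Real.exp (-β * c3) ≤ 1 / (4 * Real.pi * c3) * t⁻¹ := by
        rw [show -β * c3 = -(4 * Real.pi * c3 * t) by rw [hβ]; ring]
        rw [← div_eq_mul_inv, le_div_iff₀ ht0, mul_comm]
        exact h10
      calc En β ≤ K * Real.exp (-β * c3) := h2
        _ ≤ K * (1 / (4 * Real.pi * c3) * t⁻¹) := mul_le_mul_of_nonneg_left h11 hK0.le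
        _ = K / (c3 * Real.pi) * t⁻¹ * (1 / 4) := by field_simp
        _ ≤ K / (c3 * Real.pi) * t⁻¹ := mul_le_of_le_one_right (by positivity) (by norm_num)
    have h4 : 0 < En β := En_pos (by linarith)
    have h5 : 1 / (4 * t) ≤ 1 * t⁻¹ := by
      rw [one_mul, one_div]
      exact inv_anti₀ ht0 (by linarith)
    have h6 : 0 < 1 / (4 * t) := by positivity
    have h7 : 0 < K / (c3 * Real.pi) * t⁻¹ := by positivity
    have h8 : 0 < t⁻¹ := by positivity
    rw [abs_le, hC, add_mul]
    constructor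
    · linarith
    · linarith

end Pool.Agent.J4.H93.SR
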