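import Mathlib

/-! Project SR (helper93), piece B4: a one-sided Fatou lemma. -/

set_option autoImplicit false

open MeasureTheory Set Filter Topology

namespace Pool.Agent.J4.H93.SR

theorem fatou_low {φ : ℕ → ℝ → ℝ} {h ψ : ℝ → ℝ} (hφ : ∀ n, IntegrableOn (φ n) (Ioi 0))
    (hh : IntegrableOn h (Ioi 0)) (hψ : IntegrableOn ψ (Ioi 0))
    (hb : ∀ n, ∀ τ > 0, -h τ ≤ φ n τ)
    (hl : ∀ τ > 0, ∀ ε > 0, ∀ᶠ n in atTop, ψ τ - ε ≤ φ n τ) :
    ∀ ε > 0, ∀ᶠ n in atTop, (∫ τ in Ioi 0, ψ τ) - ε ≤ ∫ τ in Ioi 0, φ n τ := by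
  have h1 : Tendsto (fun n => ∫ τ in Ioi (0 : ℝ), max 0 (ψ τ - φ n τ)) atTop
      (𝓝 (∫ _ in Ioi (0 : ℝ), (0 : ℝ))) := by
    refine tendsto_integral_of_dominated_convergence (fun τ => |ψ τ| + |h τ|) ?_
      (hψ.abs.add hh.abs) ?_ ?_
    · intro n
      exact aestronglyMeasurable_const.sup (hψ.sub (hφ n)).aestronglyMeasurable
    · intro n
      refine (ae_restrict_iff' measurableSet_Ioi).2 (Eventually.of_forall fun τ hτ => ?_)
      rw [Real.norm_eq_abs, abs_of_nonneg (le_max_left _ _)]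
      refine max_le (by positivity) ?_
      linarith [hb n τ hτ, le_abs_self (ψ τ), le_abs_self (h τ)]
    · refine (ae_restrict_iff' measurableSet_Ioi).2 (Eventually.of_forall fun τ hτ => ?_)
      rw [Metric.tendsto_nhds]
      intro ε hε
      filter_upwards [hl τ hτ (ε / 2) (by positivity)] with n hn
      rw [Real.dist_eq, sub_zero, abs_of_nonneg (le_max_left _ _)]
      exact max_lt hε (by linarith)
  intro ε hε
  rw [integral_zero] at h1
  have h2 : ∀ᶠ n in atTop, (∫ τ in Ioi (0 : ℝ), max 0 (ψ τ - φ n τ)) < ε :=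
    h1.eventually (gt_mem_nhds hε)
  filter_upwards [h2] with n hn
  have h4 : IntegrableOn (fun τ => max 0 (ψ τ - φ n τ)) (Ioi 0) := by
    have := (hψ.sub (hφ n)).pos_part
    refine this.congr (Eventually.of_forall fun τ => ?_)
    simp [max_comm]
  have h3 : ∫ τ in Ioi (0 : ℝ), (ψ τ - φ n τ) ≤ ∫ τ in Ioi (0 : ℝ), max 0 (ψ τ - φ n τ) :=
    integral_mono (hψ.sub (hφ n)) h4 (fun τ => le_max_right _ _)
  rw [integral_sub hψ (hφ n)] at h3
  linarith

end Pool.Agent.J4.H93.SR
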