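import Mathlib

/-! Project SR, piece B4: a one sided Fatou lemma. -/

set_option autoImplicit false

open MeasureTheory Set Filter Topology

namespace Pool.Agent.J4.H93.SR.Two

theorem fatou_low {φ : ℕ → ℝ → ℝ} {h ψ : ℝ → ℝ} (hφ : ∀ n, IntegrableOn (φ n) (Ioi 0))
    (hh : IntegrableOn h (Ioi 0)) (hψ : IntegrableOn ψ (Ioi 0))
    (hb : ∀ n, ∀ τ > 0, -h τ ≤ φ n τ)
    (hl : ∀ τ > 0, ∀ ε > 0, ∀ᶠ n in atTop, ψ τ - ε ≤ φ n τ) :
    ∀ ε > 0, ∀ᶠ n in atTop, (∫ τ in Ioi 0, ψ τ) - ε ≤ ∫ τ in Ioi 0, φ n τ := by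
  intro ε hε
  set μ : Measure ℝ := volume.restrict (Ioi 0) with hμ
  have hFi : ∀ n, Integrable (fun τ => φ n τ + h τ) μ := fun n => (hφ n).add hh
  have hGi : Integrable (fun τ => ψ τ + h τ) μ := hψ.add hh
  have hF0 : ∀ n, 0 ≤ᵐ[μ] fun τ => φ n τ + h τ := by
    intro n
    filter_upwards [ae_restrict_mem measurableSet_Ioi] with τ hτ
    have := hb n τ hτ
    show 0 ≤ φ n τ + h τ
    linarith
  set a : ℕ → ENNReal := fun n => ∫⁻ τ, ENNReal.ofReal (φ n τ + h τ) ∂μ with ha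
  set A : ENNReal := ∫⁻ τ, ENNReal.ofReal (ψ τ + h τ) ∂μ with hA
  have hfatou : A ≤ liminf a atTop := by
    have h1 : ∫⁻ τ, liminf (fun n => ENNReal.ofReal (φ n τ + h τ)) atTop ∂μ ≤ liminf a atTop :=
      lintegral_liminf_le' (fun n => (hFi n).aestronglyMeasurable.aemeasurable.ennreal_ofReal)
    refine le_trans ?_ h1
    refine lintegral_mono_ae ?_
    filter_upwards [ae_restrict_mem measurableSet_Ioi] with τ hτ
    have h2 : ∀ δ > 0, ENNReal.ofReal (ψ τ + h τ - δ) ≤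
        liminf (fun n => ENNReal.ofReal (φ n τ + h τ)) atTop := by
      intro δ hδ
      refine le_liminf_of_le (by isBoundedDefault) ?_
      filter_upwards [hl τ hτ δ hδ] with n hn
      exact ENNReal.ofReal_le_ofReal (by linarith)
    have h3 : Tendsto (fun δ : ℝ => ENNReal.ofReal (ψ τ + h τ - δ)) (𝓝[>] 0)
        (𝓝 (ENNReal.ofReal (ψ τ + h τ))) := by
      have h4 : Continuous (fun δ : ℝ => ENNReal.ofReal (ψ τ + h τ - δ)) :=
        ENNReal.continuous_ofReal.comp (by fun_prop)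
      have h5 := (h4.tendsto 0).mono_left (nhdsWithin_le_nhds (s := Ioi (0 : ℝ)))
      simpa using h5
    refine le_of_tendsto h3 ?_
    filter_upwards [self_mem_nhdsWithin] with δ hδ
    exact h2 δ hδ
  have haint : ∀ n, ∫ τ, (φ n τ + h τ) ∂μ = (a n).toReal := fun n =>
    integral_eq_lintegral_of_nonneg_ae (hF0 n) (hFi n).aestronglyMeasurable
  have hafin : ∀ n, a n ≠ ⊤ := fun n => (hFi n).lintegral_lt_top.ne
  have hAfin : A ≠ ⊤ := hGi.lintegral_lt_top.ne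
  have hAint : ∫ τ, (ψ τ + h τ) ∂μ ≤ A.toReal := by
    rw [integral_eq_lintegral_pos_part_sub_lintegral_neg_part hGi]
    have : 0 ≤ (∫⁻ τ, ENNReal.ofReal (-(ψ τ + h τ)) ∂μ).toReal := ENNReal.toReal_nonneg
    linarith
  have hsplit1 : ∀ n, ∫ τ, (φ n τ + h τ) ∂μ = (∫ τ, φ n τ ∂μ) + ∫ τ, h τ ∂μ := fun n =>
    integral_add (hφ n) hh
  have hsplit2 : ∫ τ, (ψ τ + h τ) ∂μ = (∫ τ, ψ τ ∂μ) + ∫ τ, h τ ∂μ := integral_add hψ hh
  have key : ∀ᶠ n in atTop, A.toReal - ε ≤ (a n).toReal := by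
    by_cases hAe : A.toReal - ε ≤ 0
    · exact Eventually.of_forall fun n => hAe.trans ENNReal.toReal_nonneg
    · push Not at hAe
      have h6 : ENNReal.ofReal (A.toReal - ε) < liminf a atTop := by
        refine lt_of_lt_of_le ?_ hfatou
        rw [ENNReal.ofReal_lt_iff_lt_toReal hAe.le hAfin]
        linarith
      filter_upwards [eventually_lt_of_lt_liminf h6] with n hn
      rw [ENNReal.ofReal_lt_iff_lt_toReal hAe.le (hafin n)] at hn
      exact hn.le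
  filter_upwards [key] with n hn
  have h7 := haint n
  have h8 := hsplit1 n
  show (∫ τ, ψ τ ∂μ) - ε ≤ ∫ τ, φ n τ ∂μ
  linarith

end Pool.Agent.J4.H93.SR.Two
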