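import Mathlib
import Pool.Agent.TH478.CE.Basic
import Pool.Agent.TH478.CE.Dual
import Pool.Agent.Helper88.SE.Defs

/-!
# Project SR: lower bounds for Riesz energies on the two-sphere: definitions
-/

set_option autoImplicit false

open MeasureTheory Set

namespace Pool.Agent.J4.H93.SR

open Pool.Agent.TH478.CE

/-- the Euclidean space of dimension three -/
abbrev E3 := Pool.Agent.Helper88.SE.E 2

/-- the unit sphere -/
abbrev S2 := Pool.Agent.Helper88.SE.S 2

/-- the normalised surface measure -/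
noncomputable abbrev sg2 : Measure S2 := Pool.Agent.Helper88.SE.sg 2

/-- the cutoff, as a function of `z = ⟨x, p⟩` -/
noncomputable def chi (r z : ℝ) : ℝ := if 0 < z ∧ 1 - z ^ 2 < r ^ 2 then z else 0

/-- the profile of a radial function -/
noncomputable def prof (f : P → ℝ) (ρ : ℝ) : ℝ := f !₂[ρ, 0]

/-- the integrand of the averaged kernel -/
noncomputable def kap (f : P → ℝ) (lam r : ℝ) (x y p : S2) : ℝ :=
  chi r (inner ℝ (x : E3) (p : E3)) * chi r (inner ℝ (y : E3) (p : E3)) *
    prof f (lam * √(‖(x : E3) - (y : E3)‖ ^ 2 - (inner ℝ ((x : E3) - (y : E3)) (p : E3)) ^ 2))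

/-- the double integral over the disc -/
noncomputable def dd (f : P → ℝ) (r : ℝ) : ℝ :=
  ∫ u in Metric.ball (0 : P) r, ∫ w in Metric.ball (0 : P) r, f (u - w)

/-- the Gaussian energy `∑_{i ≠ j} exp(-t |x_i - x_j|²)` -/
noncomputable def Ga {N : ℕ} (t : ℝ) (x : Fin N → S2) : ℝ :=
  ∑ i, ∑ j, if i = j then 0 else Real.exp (-(t * dist (x i) (x j) ^ 2))

/-- the mean of `exp(-t |x - y|²)` -/
noncomputable def g2 (t : ℝ) : ℝ := (1 - Real.exp (-(4 * t))) / (4 * t)

/-- the scaled second order part -/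
noncomputable def Phi {N : ℕ} (x : Fin N → S2) (τ : ℝ) : ℝ :=
  1 / N * Ga (τ * N) x - N * g2 (τ * N)

end Pool.Agent.J4.H93.SR
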