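import Pool.Agent.J4.H93.SR.Defs
import Pool.Agent.TH478.CE.Hex
import Pool.Agent.Helper88.SE3.Defs

/-!
# Project SR: the value of the constant: definitions
-/

set_option autoImplicit false

open MeasureTheory Set

namespace Pool.Agent.J4.H93.SR

open Pool.Agent.TH478.CE

/-- the hexagonal lattice sum with Gaussian screening -/
noncomputable def Gs (s c : ℝ) : ℝ :=
  ∑' z : {z : ℤ × ℤ // z ≠ 0}, qf z.1 ^ (-(s / 2)) * Real.exp (-(c * qf z.1))

/-- the theta function of the hexagonal lattice minus its singular part at `0` -/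
noncomputable def Dth (t : ℝ) : ℝ := Pool.Agent.TH478.CE.En (t / c3) - 2 * Real.pi / (√3 * t)

/-- its Mellin integral -/
noncomputable def Lh (s : ℝ) : ℝ :=
  1 / Real.Gamma (s / 2) * ∫ t in Ioi (0 : ℝ), t ^ (s / 2 - 1) * Dth t

/-- the same after a shift -/
noncomputable def Rc (s c : ℝ) : ℝ :=
  1 / Real.Gamma (s / 2) * ∫ t in Ioi (0 : ℝ), t ^ (s / 2 - 1) * Dth (t + c)

/-- the law of a stable subordinator of index `1/2` at time one -/
structure IsLevy (ν : Measure ℝ) : Prop where
  prob : IsProbabilityMeasure ν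
  pos : ν (Iic 0) = 0
  lap : ∀ x : ℝ, 0 ≤ x → ∫ b, Real.exp (-(x * b)) ∂ν = Real.exp (-√x)

end Pool.Agent.J4.H93.SR
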