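import Pool.Agent.J4.H93.SR.Defs2

/-!
# Project SR, N1: the stable law of index 1/2 (the law of `1/(2 g²)`, `g` standard Gaussian)
-/

set_option autoImplicit false

open MeasureTheory Set Filter Topology

namespace Pool.Agent.J4.H93.SR

namespace N1

noncomputable def ph (a v : ℝ) : ℝ := (v + √(v ^ 2 + 4 * a)) / 2

lemma ph_pos {a : ℝ} (ha : 0 < a) (v : ℝ) : 0 < ph a v := by
  unfold ph
  have h1 : |v| < √(v ^ 2 + 4 * a) := by
    rw [← Real.sqrt_sq_eq_abs]
    exact Real.sqrt_lt_sqrt (sq_nonneg v) (by linarith)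
  have h2 := neg_abs_le v
  linarith

lemma ph_sq {a : ℝ} (ha : 0 < a) (v : ℝ) : ph a v ^ 2 = v * ph a v + a := by
  unfold ph
  have h1 : √(v ^ 2 + 4 * a) ^ 2 = v ^ 2 + 4 * a := Real.sq_sqrt (by positivity)
  nlinarith

lemma ph_sub {a : ℝ} (ha : 0 < a) (v : ℝ) : ph a v - a / ph a v = v := by
  have h := ph_pos ha v
  have h2 := ph_sq ha v
  field_simp
  linarith

lemma ph_exp {a : ℝ} (ha : 0 < a) (v : ℝ) : ph a v ^ 2 + a ^ 2 / ph a v ^ 2 = v ^ 2 + 2 * a := by
  have h := ph_pos ha v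
  have h2 := ph_sub ha v
  have h3 : (ph a v - a / ph a v) ^ 2 = v ^ 2 := by rw [h2]
  have h4 : (ph a v - a / ph a v) ^ 2 = ph a v ^ 2 + a ^ 2 / ph a v ^ 2 - 2 * a := by
    field_simp
    ring
  linarith

lemma ph_inj {a : ℝ} (ha : 0 < a) : Function.Injective (ph a) := by
  intro v w h
  rw [← ph_sub ha v, ← ph_sub ha w, h]

lemma ph_image {a : ℝ} (ha : 0 < a) : ph a '' univ = Ioi 0 := by
  ext u
  constructor
  · rintro ⟨v, _, rfl⟩
    exact ph_pos ha v
  · intro hu
    have hu : 0 < u := hu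
    refine ⟨u - a / u, mem_univ _, ?_⟩
    unfold ph
    have h1 : (u - a / u) ^ 2 + 4 * a = (u + a / u) ^ 2 := by
      field_simp
      ring
    rw [h1, Real.sqrt_sq (by positivity)]
    ring

lemma ph_deriv {a : ℝ} (ha : 0 < a) (v : ℝ) :
    HasDerivAt (ph a) ((1 + v / √(v ^ 2 + 4 * a)) / 2) v := by
  unfold ph
  have h0 : v ^ 2 + 4 * a ≠ 0 := by positivity
  have h1 : HasDerivAt (fun v : ℝ => v ^ 2 + 4 * a) (2 * v) v := by
    have := (hasDerivAt_pow 2 v).add_const (4 * a)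
    simpa using this
  have h2 := h1.sqrt h0
  have h3 := ((hasDerivAt_id v).add h2).div_const 2
  have h4 : (1 + 2 * v / (2 * √(v ^ 2 + 4 * a))) / 2 = (1 + v / √(v ^ 2 + 4 * a)) / 2 := by
    rw [mul_div_mul_left _ _ (two_ne_zero)]
  rw [h4] at h3
  exact h3

lemma ph_deriv_pos {a : ℝ} (ha : 0 < a) (v : ℝ) : 0 < (1 + v / √(v ^ 2 + 4 * a)) / 2 := by
  have h1 : |v| < √(v ^ 2 + 4 * a) := by
    rw [← Real.sqrt_sq_eq_abs]
    exact Real.sqrt_lt_sqrt (sq_nonneg v) (by linarith)
  have h2 := neg_abs_le v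
  have h3 : 0 < √(v ^ 2 + 4 * a) := lt_of_le_of_lt (abs_nonneg v) h1
  have h4 : 0 < √(v ^ 2 + 4 * a) + v := by linarith
  have h5 : (1 + v / √(v ^ 2 + 4 * a)) / 2 = (√(v ^ 2 + 4 * a) + v) / (2 * √(v ^ 2 + 4 * a)) := by
    field_simp
  rw [h5]
  positivity

lemma odd_zero (a : ℝ) : ∫ v : ℝ, v / √(v ^ 2 + 4 * a) * Real.exp (-v ^ 2) = 0 := by
  have h := integral_neg_eq_self (fun v : ℝ => v / √(v ^ 2 + 4 * a) * Real.exp (-v ^ 2)) volume
  have h2 : ∫ v : ℝ, (-v) / √((-v) ^ 2 + 4 * a) * Real.exp (-(-v) ^ 2) =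
      - ∫ v : ℝ, v / √(v ^ 2 + 4 * a) * Real.exp (-v ^ 2) := by
    rw [← integral_neg]
    congr 1
    funext v
    rw [neg_sq]
    ring
  rw [h2] at h
  linarith

lemma main_int {a : ℝ} (ha : 0 < a) :
    ∫ u in Ioi (0 : ℝ), Real.exp (-(u ^ 2 + a ^ 2 / u ^ 2)) = √Real.pi / 2 * Real.exp (-(2 * a)) := by
  rw [← ph_image ha, integral_image_eq_integral_abs_deriv_smul MeasurableSet.univ
    (fun v _ => (ph_deriv ha v).hasDerivWithinAt) (ph_inj ha).injOn]
  rw [Measure.restrict_univ]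
  have h1 : ∀ v : ℝ, |(1 + v / √(v ^ 2 + 4 * a)) / 2| • Real.exp (-(ph a v ^ 2 + a ^ 2 / ph a v ^ 2)) =
      Real.exp (-(2 * a)) / 2 * (Real.exp (-v ^ 2) + v / √(v ^ 2 + 4 * a) * Real.exp (-v ^ 2)) := by
    intro v
    rw [abs_of_pos (ph_deriv_pos ha v), ph_exp ha, smul_eq_mul, neg_add, Real.exp_add]
    ring
  simp_rw [h1]
  have hi1 : Integrable (fun v : ℝ => Real.exp (-v ^ 2)) := by
    have := integrable_exp_neg_mul_sq (b := 1) one_pos
    simpa using this
  have hi2 : Integrable (fun v : ℝ => v / √(v ^ 2 + 4 * a) * Real.exp (-v ^ 2)) := by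
    refine hi1.bdd_mul (c := 1) ?_ ?_
    · refine Measurable.aestronglyMeasurable ?_
      fun_prop
    · refine Eventually.of_forall fun v => ?_
      rw [Real.norm_eq_abs, abs_div, abs_of_nonneg (Real.sqrt_nonneg _)]
      refine div_le_one_of_le₀ ?_ (Real.sqrt_nonneg _)
      rw [← Real.sqrt_sq_eq_abs]
      exact Real.sqrt_le_sqrt (by linarith)
  rw [integral_const_mul, integral_add hi1 hi2, odd_zero]
  have h2 : ∫ v : ℝ, Real.exp (-v ^ 2) = √Real.pi := by
    have := integral_gaussian 1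
    simpa using this
  rw [h2]
  ring

end N1

theorem levy_exists : ∃ ν : Measure ℝ, IsLevy ν := by
  classical
  let γ := ProbabilityTheory.gaussianReal 0 (1 / 2)
  have hmeas : Measurable (fun u : ℝ => 1 / (4 * u ^ 2)) := by fun_prop
  refine ⟨γ.map (fun u : ℝ => 1 / (4 * u ^ 2)), ?_, ?_, ?_⟩
  · exact Measure.isProbabilityMeasure_map hmeas.aemeasurable
  · rw [Measure.map_apply hmeas measurableSet_Iic]
    have h1 : (fun u : ℝ => 1 / (4 * u ^ 2)) ⁻¹' Iic 0 = {0} := by
      ext u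
      simp only [mem_preimage, mem_Iic, mem_singleton_iff]
      constructor
      · intro h
        by_contra hu
        have : 0 < 1 / (4 * u ^ 2) := by positivity
        linarith
      · rintro rfl
        simp
    rw [h1]
    have : NullSingletonClass γ := ProbabilityTheory.nullSingletonClass_gaussianReal (by norm_num)
    exact measure_singleton _
  · intro x hx
    rw [integral_map hmeas.aemeasurable (by
      refine Measurable.aestronglyMeasurable ?_
      fun_prop)]
    rcases hx.eq_or_lt with h0 | h0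
    · subst h0
      simp
    rw [ProbabilityTheory.integral_gaussianReal_eq_integral_smul (by norm_num)]
    have h1 : ∀ u : ℝ, ProbabilityTheory.gaussianPDFReal 0 (1 / 2) u • Real.exp (-(x * (1 / (4 * u ^ 2)))) =
        (fun w : ℝ => (√Real.pi)⁻¹ * Real.exp (-(w ^ 2 + (√x / 2) ^ 2 / w ^ 2))) |u| := by
      intro u
      unfold ProbabilityTheory.gaussianPDFReal
      simp only [sq_abs]
      rw [smul_eq_mul, mul_assoc, ← Real.exp_add]
      congr 1
      · congr 2
        push_cast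
        ring
      · congr 1
        push_cast
        rw [div_pow, Real.sq_sqrt h0.le]
        by_cases hu : u = 0
        · subst hu
          simp
        · field_simp
          ring
    simp_rw [h1]
    rw [integral_comp_abs (f := fun w : ℝ => (√Real.pi)⁻¹ * Real.exp (-(w ^ 2 + (√x / 2) ^ 2 / w ^ 2))),
      integral_const_mul, N1.main_int (by positivity)]
    have h2 : √Real.pi ≠ 0 := by positivity
    have h3 : 2 * (√x / 2) = √x := by ring
    rw [h3]
    field_simp

end Pool.Agent.J4.H93.SR
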