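import Pool.Agent.J4.H93.SR.Defs2

/-!
# The negative moments of the stable law of index `1/2`
-/

set_option autoImplicit false

open MeasureTheory Set Filter Topology

namespace Pool.Agent.J4.H93.SR

namespace N1b

theorem integrable_of_ne {α : Type} [MeasurableSpace α] {μ : Measure α} {f : α → ℝ}
    (h : ∫ a, f a ∂μ ≠ 0) : Integrable f μ := by
  by_contra hc
  exact h (integral_undef hc)

end N1b

theorem levy_mom {ν : Measure ℝ} (hν : IsLevy ν) {s : ℝ} (hs : 0 < s) (hs2 : s < 2) :
    Integrable (fun b : ℝ => b ^ (s / 2 - 1)) ν ∧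
    Real.Gamma (1 - s / 2) * ∫ b, b ^ (s / 2 - 1) ∂ν = 2 * Real.Gamma (2 - s) := by
  have hp : IsProbabilityMeasure ν := hν.prob
  have hG1 : 0 < Real.Gamma (1 - s / 2) := Real.Gamma_pos_of_pos (by linarith)
  have hG2 : 0 < Real.Gamma (2 - s) := Real.Gamma_pos_of_pos (by linarith)
  -- the integral in `x`
  have hR : ∫ x in Ioi (0 : ℝ), x ^ (-(s / 2)) * Real.exp (-√x) = 2 * Real.Gamma (2 - s) := by
    have h1 := integral_rpow_mul_exp_neg_rpow (p := 1 / 2) (q := -(s / 2)) (by norm_num)
      (by linarith)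
    have e1 : (1 : ℝ) / (1 / 2) * Real.Gamma ((-(s / 2) + 1) / (1 / 2)) =
        2 * Real.Gamma (2 - s) := by
      congr 1
      · norm_num
      · congr 1
        ring
    rw [e1] at h1
    rw [← h1]
    refine setIntegral_congr_fun measurableSet_Ioi fun x _ => ?_
    simp only [Real.sqrt_eq_rpow]
  have hRi : Integrable (fun x : ℝ => x ^ (-(s / 2)) * Real.exp (-√x))
      (volume.restrict (Ioi (0 : ℝ))) := by
    apply N1b.integrable_of_ne
    rw [hR]
    positivity
  have hpos : ∀ᵐ b ∂ν, 0 < b := by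
    rw [ae_iff]
    have : {b : ℝ | ¬ 0 < b} = Iic 0 := by
      ext b
      simp
    rw [this]
    exact hν.pos
  have hL : ∀ x : ℝ, 0 < x → Integrable (fun b : ℝ => x ^ (-(s / 2)) * Real.exp (-(x * b))) ν := by
    intro x hx
    refine Integrable.const_mul ?_ _
    apply N1b.integrable_of_ne
    rw [hν.lap x hx.le]
    exact (Real.exp_pos _).ne'
  have hF : Integrable (fun p : ℝ × ℝ => p.2 ^ (-(s / 2)) * Real.exp (-(p.2 * p.1)))
      (ν.prod (volume.restrict (Ioi (0 : ℝ)))) := by
    have hm : Measurable (fun p : ℝ × ℝ => p.2 ^ (-(s / 2)) * Real.exp (-(p.2 * p.1))) := by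
      fun_prop
    rw [integrable_prod_iff' hm.aestronglyMeasurable]
    constructor
    · rw [ae_restrict_iff' measurableSet_Ioi]
      exact ae_of_all _ fun x hx => hL x hx
    · refine hRi.congr ?_
      rw [EventuallyEq, ae_restrict_iff' measurableSet_Ioi]
      refine ae_of_all _ fun x hx => ?_
      have hx' : (0 : ℝ) < x := hx
      have e1 : ∀ b : ℝ, ‖x ^ (-(s / 2)) * Real.exp (-(x * b))‖ =
          x ^ (-(s / 2)) * Real.exp (-(x * b)) := by
        intro b
        rw [Real.norm_eq_abs, abs_of_nonneg]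
        positivity
      simp only [e1]
      rw [integral_const_mul, hν.lap x hx'.le]
  have hin : ∀ b : ℝ, 0 < b → ∫ x in Ioi (0 : ℝ), x ^ (-(s / 2)) * Real.exp (-(x * b)) =
      Real.Gamma (1 - s / 2) * b ^ (s / 2 - 1) := by
    intro b hb
    have h1 := Real.integral_rpow_mul_exp_neg_mul_Ioi (a := 1 - s / 2) (r := b) (by linarith) hb
    have e1 : (1 / b) ^ (1 - s / 2) = b ^ (s / 2 - 1) := by
      rw [one_div, Real.inv_rpow hb.le, ← Real.rpow_neg hb.le]
      congr 1
      ring
    rw [e1] at h1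
    rw [mul_comm (Real.Gamma _), ← h1]
    refine setIntegral_congr_fun measurableSet_Ioi fun x _ => ?_
    rw [show (1 : ℝ) - s / 2 - 1 = -(s / 2) by ring, mul_comm b x]
  have hI := hF.integral_prod_left
  have hae : (fun b => ∫ x in Ioi (0 : ℝ), x ^ (-(s / 2)) * Real.exp (-(x * b))) =ᵐ[ν]
      fun b => Real.Gamma (1 - s / 2) * b ^ (s / 2 - 1) := by
    filter_upwards [hpos] with b hb
    exact hin b hb
  have hI2 : Integrable (fun b : ℝ => Real.Gamma (1 - s / 2) * b ^ (s / 2 - 1)) ν := hI.congr hae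
  refine ⟨?_, ?_⟩
  · have h3 := hI2.const_mul (Real.Gamma (1 - s / 2))⁻¹
    refine h3.congr (ae_of_all _ fun b => ?_)
    simp only
    rw [← mul_assoc, inv_mul_cancel₀ hG1.ne', one_mul]
  · rw [← integral_const_mul, ← integral_congr_ae hae, integral_integral_swap hF, ← hR]
    refine setIntegral_congr_fun measurableSet_Ioi fun x hx => ?_
    rw [integral_const_mul, hν.lap x (le_of_lt hx)]

end Pool.Agent.J4.H93.SR
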