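import Pool.Agent.J4.H93.SR.Defs2

/-!
# Project SR, piece N2: the screened lattice sum as a Mellin integral
-/

set_option autoImplicit false

open MeasureTheory Set Filter Topology
open Pool.Agent.TH478.CE

namespace Pool.Agent.J4.H93.SR

theorem n2_term {a q c : ℝ} (ha : 0 < a) (hq : 0 < q) :
    ∫ t in Ioi (0:ℝ), t ^ (a - 1) * Real.exp (-((t + c) * q)) =
      Real.Gamma a * (q ^ (-a) * Real.exp (-(c * q))) := by
  have h := Real.integral_rpow_mul_exp_neg_mul_Ioi ha hq
  have e : ∀ t : ℝ, t ^ (a - 1) * Real.exp (-((t + c) * q)) =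
      (t ^ (a - 1) * Real.exp (-(q * t))) * Real.exp (-(c * q)) := by
    intro t
    rw [mul_assoc, ← Real.exp_add]
    congr 2
    ring
  simp_rw [e]
  rw [integral_mul_const, h, one_div, Real.inv_rpow hq.le, Real.rpow_neg hq.le]
  ring

theorem n2_int {a q c : ℝ} (ha : 0 < a) (hq : 0 < q) :
    Integrable (fun t : ℝ => t ^ (a - 1) * Real.exp (-((t + c) * q)))
      (volume.restrict (Ioi 0)) := by
  by_contra h
  have h1 := integral_undef h
  rw [n2_term ha hq] at h1
  have h2 : 0 < Real.Gamma a * (q ^ (-a) * Real.exp (-(c * q))) := by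
    have h3 := Real.Gamma_pos_of_pos ha
    have h4 := Real.rpow_pos_of_pos hq (-a)
    exact mul_pos h3 (mul_pos h4 (Real.exp_pos _))
  linarith

theorem n2_exp {b : ℝ} (hb : 0 < b) : ∫ u in Ioi (0:ℝ), Real.exp (-(b * u)) = 1 / b := by
  have h := Real.integral_rpow_mul_exp_neg_mul_Ioi (a := 1) one_pos hb
  simpa using h

theorem n2_beta {a c : ℝ} (ha : 0 < a) (ha1 : a < 1) (hc : 0 < c) :
    ∫ t in Ioi (0:ℝ), t ^ (a - 1) * (1 / (t + c)) =
      Real.Gamma a * (Real.Gamma (1 - a) * c ^ (a - 1)) := by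
  have h1 : ∀ t ∈ Ioi (0:ℝ), t ^ (a - 1) * (1 / (t + c)) =
      ∫ u in Ioi (0:ℝ), t ^ (a - 1) * Real.exp (-((t + c) * u)) := by
    intro t ht
    have htc : 0 < t + c := add_pos ht hc
    rw [integral_const_mul, n2_exp htc]
  have h2 : ∀ u ∈ Ioi (0:ℝ), ∫ t in Ioi (0:ℝ), t ^ (a - 1) * Real.exp (-((t + c) * u)) =
      Real.Gamma a * (u ^ ((1 - a) - 1) * Real.exp (-(c * u))) := by
    intro u hu
    rw [n2_term ha hu]
    congr 3
    ring
  have ha' : 0 < 1 - a := by linarith
  have h3 : ∫ u in Ioi (0:ℝ), u ^ ((1 - a) - 1) * Real.exp (-(c * u)) =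
      Real.Gamma (1 - a) * c ^ (a - 1) := by
    rw [Real.integral_rpow_mul_exp_neg_mul_Ioi ha' hc, one_div, Real.inv_rpow hc.le,
      ← Real.rpow_neg hc.le, mul_comm]
    congr 2
    ring
  have h4 : Integrable (fun u : ℝ => u ^ ((1 - a) - 1) * Real.exp (-(c * u)))
      (volume.restrict (Ioi 0)) := by
    by_contra h
    have h5 := integral_undef h
    rw [h3] at h5
    have h6 := Real.Gamma_pos_of_pos ha'
    have h7 := Real.rpow_pos_of_pos hc (a - 1)
    have h8 := mul_pos h6 h7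
    linarith
  rw [setIntegral_congr_fun measurableSet_Ioi h1, integral_integral_swap]
  · rw [setIntegral_congr_fun measurableSet_Ioi h2, integral_const_mul, h3]
  · have hm : Measurable (fun p : ℝ × ℝ => p.1 ^ (a - 1) * Real.exp (-((p.1 + c) * p.2))) := by
      refine (measurable_fst.pow_const _).mul ?_
      fun_prop
    have hm' : AEStronglyMeasurable
        (Function.uncurry fun t u : ℝ => t ^ (a - 1) * Real.exp (-((t + c) * u)))
        ((volume.restrict (Ioi (0:ℝ))).prod (volume.restrict (Ioi (0:ℝ)))) :=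
      hm.aestronglyMeasurable
    rw [integrable_prod_iff' hm']
    constructor
    · filter_upwards [ae_restrict_mem measurableSet_Ioi] with u hu
      exact n2_int ha hu
    · refine (h4.const_mul (Real.Gamma a)).congr ?_
      filter_upwards [ae_restrict_mem measurableSet_Ioi] with u hu
      rw [← h2 u hu]
      apply setIntegral_congr_fun measurableSet_Ioi
      intro t ht
      have ht' : (0:ℝ) < t := ht
      have h9 : 0 ≤ t ^ (a - 1) * Real.exp (-((t + c) * u)) :=
        mul_nonneg (Real.rpow_nonneg ht'.le _) (Real.exp_pos _).le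
      change t ^ (a - 1) * Real.exp (-((t + c) * u)) =
        ‖t ^ (a - 1) * Real.exp (-((t + c) * u))‖
      rw [Real.norm_of_nonneg h9]

theorem n2_En {α : ℝ} : En (α / c3) =
    ∑' z : {z : ℤ × ℤ // z ≠ 0}, Real.exp (-(α * qf z.1)) := by
  rw [En_def']
  apply tsum_congr
  intro z
  congr 1
  have := c3_pos
  field_simp

theorem n2_summable {c : ℝ} (hc : 0 < c) :
    Summable (fun z : {z : ℤ × ℤ // z ≠ 0} => Real.exp (-(c * qf z.1))) := by
  have h := summable_Th (α := c / c3) (div_pos hc c3_pos)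
  have h1 := h.subtype {z : ℤ × ℤ | z ≠ 0}
  refine h1.congr ?_
  intro z
  change Real.exp (-(c / c3) * (c3 * qf z.1)) = Real.exp (-(c * qf z.1))
  congr 1
  have := c3_pos
  field_simp

theorem n2_summable' {a c : ℝ} (ha : 0 < a) (hc : 0 < c) :
    Summable (fun z : {z : ℤ × ℤ // z ≠ 0} => qf z.1 ^ (-a) * Real.exp (-(c * qf z.1))) := by
  refine Summable.of_nonneg_of_le (fun z => ?_) (fun z => ?_) (n2_summable hc)
  · exact mul_nonneg (Real.rpow_nonneg (qf_nonneg _) _) (Real.exp_pos _).le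
  · have h1 := one_le_qf z.2
    have h2 : qf z.1 ^ (-a) ≤ 1 := Real.rpow_le_one_of_one_le_of_nonpos h1 (by linarith)
    have h3 := (Real.exp_pos (-(c * qf z.1))).le
    exact mul_le_of_le_one_left h3 h2

theorem n2_Gs_pos {s c : ℝ} (hs : 0 < s) (hc : 0 < c) : 0 < Gs s c := by
  have ha : 0 < s / 2 := by linarith
  have h := n2_summable' ha hc
  unfold Gs
  have hpos : ∀ z : {z : ℤ × ℤ // z ≠ 0},
      0 < qf z.1 ^ (-(s / 2)) * Real.exp (-(c * qf z.1)) := by
    intro z
    have h1 : 0 < qf z.1 := lt_of_lt_of_le one_pos (one_le_qf z.2)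
    exact mul_pos (Real.rpow_pos_of_pos h1 _) (Real.exp_pos _)
  exact h.tsum_pos (fun z => (hpos z).le) ⟨(1, 0), by simp⟩ (hpos _)

theorem n2_tsum {s c : ℝ} (hs : 0 < s) (hc : 0 < c) :
    ∫ t in Ioi (0:ℝ), t ^ (s / 2 - 1) * En ((t + c) / c3) = Real.Gamma (s / 2) * Gs s c := by
  have ha : 0 < s / 2 := by linarith
  have hq : ∀ z : {z : ℤ × ℤ // z ≠ 0}, 0 < qf z.1 := fun z =>
    lt_of_lt_of_le one_pos (one_le_qf z.2)
  have h1 : ∀ z : {z : ℤ × ℤ // z ≠ 0},
      ∫ t in Ioi (0:ℝ), ‖t ^ (s / 2 - 1) * Real.exp (-((t + c) * qf z.1))‖ =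
      Real.Gamma (s / 2) * (qf z.1 ^ (-(s / 2)) * Real.exp (-(c * qf z.1))) := by
    intro z
    rw [← n2_term ha (hq z)]
    apply setIntegral_congr_fun measurableSet_Ioi
    intro t ht
    have ht' : (0:ℝ) < t := ht
    exact Real.norm_of_nonneg (mul_nonneg (Real.rpow_nonneg ht'.le _) (Real.exp_pos _).le)
  have h2 := hasSum_integral_of_summable_integral_norm
    (μ := volume.restrict (Ioi (0:ℝ)))
    (F := fun (z : {z : ℤ × ℤ // z ≠ 0}) (t : ℝ) =>
      t ^ (s / 2 - 1) * Real.exp (-((t + c) * qf z.1)))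
    (fun z => n2_int ha (hq z))
    (by
      simp_rw [h1]
      exact (n2_summable' ha hc).mul_left _)
  have h3 : ∀ t ∈ Ioi (0:ℝ), t ^ (s / 2 - 1) * En ((t + c) / c3) =
      ∑' z : {z : ℤ × ℤ // z ≠ 0}, t ^ (s / 2 - 1) * Real.exp (-((t + c) * qf z.1)) := by
    intro t _
    rw [n2_En, tsum_mul_left]
  rw [setIntegral_congr_fun measurableSet_Ioi h3, ← h2.tsum_eq]
  unfold Gs
  rw [← tsum_mul_left]
  apply tsum_congr
  intro z
  exact n2_term ha (hq z)

theorem Rc_eq {s c : ℝ} (hs : 0 < s) (hs2 : s < 2) (hc : 0 < c) :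
    Gs s c - 2 * Real.pi / √3 * (Real.Gamma (1 - s / 2) * c ^ (s / 2 - 1)) = Rc s c := by
  have ha : 0 < s / 2 := by linarith
  have ha1 : s / 2 < 1 := by linarith
  have hG := Real.Gamma_pos_of_pos ha
  have hG1 := Real.Gamma_pos_of_pos (show 0 < 1 - s / 2 by linarith)
  have e1 := n2_tsum hs hc
  have e2 := n2_beta ha ha1 hc
  have i1 : Integrable (fun t : ℝ => t ^ (s / 2 - 1) * En ((t + c) / c3))
      (volume.restrict (Ioi 0)) := by
    by_contra h
    have h1 := integral_undef h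
    rw [e1] at h1
    have := mul_pos hG (n2_Gs_pos hs hc)
    linarith
  have i2 : Integrable (fun t : ℝ => t ^ (s / 2 - 1) * (1 / (t + c)))
      (volume.restrict (Ioi 0)) := by
    by_contra h
    have h1 := integral_undef h
    rw [e2] at h1
    have := mul_pos hG (mul_pos hG1 (Real.rpow_pos_of_pos hc (s / 2 - 1)))
    linarith
  have h3 : ∀ t : ℝ, t ^ (s / 2 - 1) * Dth (t + c) =
      t ^ (s / 2 - 1) * En ((t + c) / c3) -
        2 * Real.pi / √3 * (t ^ (s / 2 - 1) * (1 / (t + c))) := by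
    intro t
    unfold Dth
    have h4 : 2 * Real.pi / (√3 * (t + c)) = 2 * Real.pi / √3 * (1 / (t + c)) := by
      rw [div_mul_div_comm, mul_one]
    rw [h4]
    ring
  unfold Rc
  simp_rw [h3]
  rw [integral_sub i1 (i2.const_mul _), integral_const_mul, e1, e2]
  field_simp

end Pool.Agent.J4.H93.SR
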