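import Pool.Agent.J4.H93.SR.Defs2

/-!
# Project SR, piece N3: dominated convergence for the shifted Mellin integral
-/

set_option autoImplicit false

open MeasureTheory Set Filter Topology

namespace Pool.Agent.J4.H93.SR

open Pool.Agent.TH478.CE

namespace N3

theorem Dth_eq {t : ℝ} (ht : 0 < t) : Dth t = En (t / c3) - Real.pi / (t / c3) := by
  unfold Dth c3
  have h3 : 0 < √3 := by positivity
  congr 1
  field_simp

theorem Dth_eq' {t : ℝ} (ht : 0 < t) :
    Dth t = Real.pi ^ 2 / (t / c3) * En (Real.pi ^ 2 / (t / c3)) / Real.pi - 1 := by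
  rw [Dth_eq ht]
  have hα : 0 < t / c3 := div_pos ht c3_pos
  generalize t / c3 = α at hα ⊢
  have hpi := Real.pi_pos
  have h := En_dual hα
  have h2 : En α = Real.pi / α * (En (Real.pi ^ 2 / α) + 1) - 1 := by
    rw [h]
    field_simp
    ring
  rw [h2]
  field_simp
  ring

theorem mul_exp_le {x : ℝ} (hx : 0 < x) : x * Real.exp (-x * c3) ≤ 1 := by
  have h1 : Real.exp (-x * c3) ≤ Real.exp (-x) := by
    apply Real.exp_le_exp.2
    have := one_lt_c3
    nlinarith
  have h2 : x ≤ Real.exp x := by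
    have := Real.add_one_le_exp x
    linarith
  calc x * Real.exp (-x * c3) ≤ Real.exp x * Real.exp (-x) :=
        mul_le_mul h2 h1 (Real.exp_pos _).le (Real.exp_pos _).le
    _ = 1 := by rw [← Real.exp_add]; simp

theorem mul_En_le {x : ℝ} (hx : 1 ≤ x) : x * En x ≤ Real.exp c3 * En 1 := by
  have hx0 : 0 < x := by linarith
  have h1 := En_upper hx
  have h2 := mul_exp_le hx0
  have h3 : 0 < En 1 := En_pos one_pos
  calc x * En x ≤ x * (Real.exp c3 * En 1 * Real.exp (-x * c3)) :=
        mul_le_mul_of_nonneg_left h1 hx0.le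
    _ = Real.exp c3 * En 1 * (x * Real.exp (-x * c3)) := by ring
    _ ≤ Real.exp c3 * En 1 * 1 := by
        apply mul_le_mul_of_nonneg_left h2
        positivity
    _ = _ := mul_one _

theorem Dth_bound : ∃ C : ℝ, 0 < C ∧ ∀ t : ℝ, 0 < t → |Dth t| ≤ C ∧ |Dth t| ≤ C / t := by
  have hpi := Real.pi_pos
  have hE : 0 < En 1 := En_pos one_pos
  have hc := c3_pos
  have hc1 := one_lt_c3
  obtain ⟨A, hA⟩ : ∃ A, A = Real.exp c3 * En 1 := ⟨_, rfl⟩
  have hA0 : 0 < A := by rw [hA]; positivity
  refine ⟨(A + Real.pi + 1 + En 1) * c3, by positivity, fun t ht => ?_⟩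
  have hα : 0 < t / c3 := div_pos ht hc
  have key : |Dth t| ≤ A + Real.pi + 1 + En 1 ∧ |Dth t| * (t / c3) ≤ A + Real.pi + 1 + En 1 := by
    rcases le_or_gt 1 (t / c3) with h | h
    · rw [Dth_eq ht]
      generalize t / c3 = α at hα h ⊢
      have h1 := En_anti one_pos h
      have h2 := En_pos hα
      have h3 : 0 < Real.pi / α := div_pos hpi hα
      have h4 : Real.pi / α ≤ Real.pi := div_le_self hpi.le h
      have h5 := mul_En_le h
      rw [← hA] at h5
      have h6 : |En α - Real.pi / α| ≤ En α + Real.pi / α := by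
        rw [abs_le]
        constructor <;> linarith
      refine ⟨by linarith, ?_⟩
      calc |En α - Real.pi / α| * α ≤ (En α + Real.pi / α) * α :=
            mul_le_mul_of_nonneg_right h6 hα.le
        _ = α * En α + Real.pi := by field_simp
        _ ≤ _ := by linarith
    · have h0 : |Dth t| ≤ A + Real.pi + 1 + En 1 := by
        rw [Dth_eq' ht]
        have hβ : 1 ≤ Real.pi ^ 2 / (t / c3) := by
          rw [le_div_iff₀ hα]
          have := Real.pi_gt_three
          nlinarith
        generalize Real.pi ^ 2 / (t / c3) = β at hβ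
        have h1 := mul_En_le hβ
        rw [← hA] at h1
        have h2 : 0 < β * En β := mul_pos (by linarith) (En_pos (by linarith))
        have h3 : β * En β / Real.pi ≤ A := by
          rw [div_le_iff₀ hpi]
          have := Real.pi_gt_three
          nlinarith
        have h4 : 0 < β * En β / Real.pi := div_pos h2 hpi
        rw [abs_le]
        constructor <;> linarith
      refine ⟨h0, ?_⟩
      calc |Dth t| * (t / c3) ≤ |Dth t| * 1 := mul_le_mul_of_nonneg_left h.le (abs_nonneg _)
        _ = |Dth t| := mul_one _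
        _ ≤ _ := h0
  obtain ⟨B, hB⟩ : ∃ B, B = A + Real.pi + 1 + En 1 := ⟨_, rfl⟩
  rw [← hB] at key ⊢
  have hB0 : 0 < B := by rw [hB]; positivity
  refine ⟨?_, ?_⟩
  · have := key.1
    nlinarith
  · rw [le_div_iff₀ ht]
    have h1 := key.2
    rw [← mul_div_assoc, div_le_iff₀ hc] at h1
    exact h1

theorem Dth_cont : ContinuousOn Dth (Ioi 0) := by
  have h1 : ContinuousOn (fun t : ℝ => En (t / c3)) (Ioi 0) :=
    En_continuousOn.comp (continuous_id.div_const c3).continuousOn
      (fun t ht => div_pos ht c3_pos)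
  have h2 : ContinuousOn (fun t : ℝ => 2 * Real.pi / (√3 * t)) (Ioi 0) := by
    apply ContinuousOn.div continuousOn_const (continuousOn_const.mul continuousOn_id)
    intro t ht
    have h3 : (0 : ℝ) < √3 := by positivity
    have ht' : (0 : ℝ) < t := ht
    exact (mul_pos h3 ht').ne'
  exact h1.sub h2

/-- the majorant -/
noncomputable def bd (s C : ℝ) (t : ℝ) : ℝ :=
  C * (if t ≤ 1 then t ^ (s / 2 - 1) else t ^ (s / 2 - 2))

theorem bd_int {s : ℝ} (hs : 0 < s) (hs2 : s < 2) (C : ℝ) :
    IntegrableOn (bd s C) (Ioi 0) := by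
  unfold bd
  apply Integrable.const_mul
  have h1 : IntegrableOn (fun t : ℝ => if t ≤ 1 then t ^ (s / 2 - 1) else t ^ (s / 2 - 2))
      (Ioc 0 1) := by
    have h2 : IntegrableOn (fun t : ℝ => t ^ (s / 2 - 1)) (Ioc 0 1) :=
      (intervalIntegrable_iff_integrableOn_Ioc_of_le zero_le_one).1
        (intervalIntegral.intervalIntegrable_rpow' (by linarith))
    refine h2.congr_fun (fun t ht => ?_) measurableSet_Ioc
    show t ^ (s / 2 - 1) = if t ≤ 1 then t ^ (s / 2 - 1) else t ^ (s / 2 - 2)
    rw [if_pos ht.2]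
  have h3 : IntegrableOn (fun t : ℝ => if t ≤ 1 then t ^ (s / 2 - 1) else t ^ (s / 2 - 2))
      (Ioi 1) := by
    have h4 : IntegrableOn (fun t : ℝ => t ^ (s / 2 - 2)) (Ioi 1) :=
      integrableOn_Ioi_rpow_of_lt (by linarith) one_pos
    refine h4.congr_fun (fun t ht => ?_) measurableSet_Ioi
    show t ^ (s / 2 - 2) = if t ≤ 1 then t ^ (s / 2 - 1) else t ^ (s / 2 - 2)
    rw [if_neg (not_le.2 ht)]
  have h5 := h1.union h3
  rwa [Ioc_union_Ioi_eq_Ioi zero_le_one] at h5

theorem le_bd {s C : ℝ} (hC : ∀ t : ℝ, 0 < t → |Dth t| ≤ C ∧ |Dth t| ≤ C / t)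
    (hC0 : 0 < C) {t c : ℝ} (ht : 0 < t) (hc : 0 ≤ c) :
    ‖t ^ (s / 2 - 1) * Dth (t + c)‖ ≤ bd s C t := by
  have htc : 0 < t + c := by linarith
  obtain ⟨h1, h2⟩ := hC (t + c) htc
  have h3 : 0 ≤ t ^ (s / 2 - 1) := Real.rpow_nonneg ht.le _
  rw [norm_mul, Real.norm_of_nonneg h3, Real.norm_eq_abs]
  unfold bd
  split_ifs with h
  · rw [mul_comm C]
    exact mul_le_mul_of_nonneg_left h1 h3
  · have h4 : C / (t + c) ≤ C / t := div_le_div_of_nonneg_left hC0.le ht (by linarith)
    have h5 : t ^ (s / 2 - 2) = t ^ (s / 2 - 1) / t := by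
      rw [show s / 2 - 2 = s / 2 - 1 - 1 by ring, Real.rpow_sub_one ht.ne']
    rw [h5]
    calc t ^ (s / 2 - 1) * |Dth (t + c)| ≤ t ^ (s / 2 - 1) * (C / t) :=
          mul_le_mul_of_nonneg_left (h2.trans h4) h3
      _ = C * (t ^ (s / 2 - 1) / t) := by ring

end N3

open N3

theorem Rc_lim {s : ℝ} (hs : 0 < s) (hs2 : s < 2) :
    Tendsto (fun c : ℝ => Rc s c) (𝓝[>] 0) (𝓝 (Lh s)) ∧
    ∃ B : ℝ, ∀ c : ℝ, 0 < c → |Rc s c| ≤ B := by
  obtain ⟨C, hC0, hC⟩ := Dth_bound
  have hG : 0 < Real.Gamma (s / 2) := Real.Gamma_pos_of_pos (by linarith)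
  constructor
  · unfold Rc Lh
    apply Tendsto.const_mul
    apply tendsto_integral_filter_of_dominated_convergence (bd s C)
    · filter_upwards [self_mem_nhdsWithin] with c hc
      have hc' : (0 : ℝ) < c := hc
      apply ContinuousOn.aestronglyMeasurable _ measurableSet_Ioi
      apply ContinuousOn.mul
      · exact fun t ht => (Real.continuousAt_rpow_const t _
          (Or.inl (ne_of_gt ht))).continuousWithinAt
      · exact Dth_cont.comp (continuous_id.add continuous_const).continuousOn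
          (fun t ht => by
            have ht' : (0 : ℝ) < t := ht
            show (0 : ℝ) < t + c
            linarith)
    · filter_upwards [self_mem_nhdsWithin] with c hc
      rw [ae_restrict_iff' measurableSet_Ioi]
      exact Eventually.of_forall fun t ht => le_bd hC hC0 ht (le_of_lt hc)
    · exact bd_int hs hs2 C
    · rw [ae_restrict_iff' measurableSet_Ioi]
      refine Eventually.of_forall fun t ht => ?_
      have ht' : (0 : ℝ) < t := ht
      apply Tendsto.const_mul
      have h1 : ContinuousAt Dth t := Dth_cont.continuousAt (Ioi_mem_nhds ht')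
      have h2 : Tendsto (fun c : ℝ => t + c) (𝓝[>] 0) (𝓝 t) := by
        have h3 : Tendsto (fun c : ℝ => t + c) (𝓝 0) (𝓝 (t + 0)) :=
          (continuous_const.add continuous_id).tendsto 0
        rw [add_zero] at h3
        exact h3.mono_left nhdsWithin_le_nhds
      exact h1.tendsto.comp h2
  · refine ⟨1 / Real.Gamma (s / 2) * ∫ t in Ioi (0 : ℝ), bd s C t, fun c hc => ?_⟩
    unfold Rc
    rw [abs_mul, abs_of_pos (one_div_pos.2 hG)]
    apply mul_le_mul_of_nonneg_left _ (one_div_pos.2 hG).le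
    rw [← Real.norm_eq_abs]
    apply norm_integral_le_of_norm_le (bd_int hs hs2 C)
    rw [ae_restrict_iff' measurableSet_Ioi]
    exact Eventually.of_forall fun t ht => le_bd hC hC0 ht hc.le

end Pool.Agent.J4.H93.SR
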