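import Pool.Agent.J4.H93.SR.Defs2
import Pool.Agent.Helper88.SE3.P_ht_summable

/-!
# Project SR: the screened hexagonal sum as an average of Gaussian screened sums
-/

set_option autoImplicit false

open MeasureTheory Set Filter Topology

namespace Pool.Agent.J4.H93.SR

open Pool.Agent.TH478.CE

private theorem hq_eq_qf (z : ℤ × ℤ) : ((Pool.Agent.Helper88.SE.hq z : ℤ) : ℝ) = qf z := by
  unfold Pool.Agent.Helper88.SE.hq qf
  push_cast
  ring

theorem HS_eq {ν : Measure ℝ} (hν : IsLevy ν) {s mu : ℝ} (hs : 0 < s) (hs2 : s < 2) (hmu : 0 < mu) :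
    Integrable (fun b : ℝ => Gs s (mu ^ 2 * b)) ν ∧
    Pool.Agent.Helper88.SE.HS s mu = ∫ b, Gs s (mu ^ 2 * b) ∂ν := by
  classical
  have := hν.prob
  obtain ⟨h0, hsum⟩ := Pool.Agent.Helper88.SE.ht_summable s mu hs hmu
  have hpos : ∀ᵐ b ∂ν, 0 < b := by
    rw [ae_iff]
    have h1 : {b : ℝ | ¬ 0 < b} = Iic 0 := by ext b; simp
    rw [h1]; exact hν.pos
  have hint : ∀ z : {z : ℤ × ℤ // z ≠ 0},
      ∫ b, qf z.1 ^ (-(s / 2)) * Real.exp (-(mu ^ 2 * b * qf z.1)) ∂ν =
        Pool.Agent.Helper88.SE.ht s mu z.1 := by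
    intro z
    have hq1 := one_le_qf z.2
    have hq0 : 0 ≤ qf z.1 := by linarith
    have e1 : ∀ b : ℝ, Real.exp (-(mu ^ 2 * b * qf z.1)) =
        Real.exp (-(mu ^ 2 * qf z.1 * b)) := by
      intro b; congr 2; ring
    simp_rw [e1]
    rw [integral_const_mul, hν.lap _ (by positivity)]
    unfold Pool.Agent.Helper88.SE.ht
    rw [if_neg z.2, hq_eq_qf, Real.sqrt_mul (by positivity), Real.sqrt_sq hmu.le]
    congr 1
    rw [Real.sqrt_eq_rpow, ← Real.rpow_mul hq0]
    congr 1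
    ring
  have hnn : ∀ (z : {z : ℤ × ℤ // z ≠ 0}) (b : ℝ),
      0 ≤ qf z.1 ^ (-(s / 2)) * Real.exp (-(mu ^ 2 * b * qf z.1)) := by
    intro z b
    have hq1 := one_le_qf z.2
    have hq0 : 0 ≤ qf z.1 := by linarith
    positivity
  have hmeas : ∀ z : {z : ℤ × ℤ // z ≠ 0}, Integrable
      (fun b : ℝ => qf z.1 ^ (-(s / 2)) * Real.exp (-(mu ^ 2 * b * qf z.1))) ν := by
    intro z
    have hq1 := one_le_qf z.2
    have hq0 : 0 ≤ qf z.1 := by linarith
    refine Integrable.const_mul ?_ _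
    refine Integrable.mono' (integrable_const (1 : ℝ)) ?_ ?_
    · exact (Continuous.aestronglyMeasurable (by fun_prop))
    · filter_upwards [hpos] with b hb
      rw [Real.norm_eq_abs, abs_of_pos (Real.exp_pos _)]
      apply Real.exp_le_one_iff.2
      have : 0 ≤ mu ^ 2 * b * qf z.1 := by positivity
      linarith
  have hsum' : Summable (fun z : {z : ℤ × ℤ // z ≠ 0} =>
      ∫ b, ‖qf z.1 ^ (-(s / 2)) * Real.exp (-(mu ^ 2 * b * qf z.1))‖ ∂ν) := by
    have e : (fun z : {z : ℤ × ℤ // z ≠ 0} =>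
      ∫ b, ‖qf z.1 ^ (-(s / 2)) * Real.exp (-(mu ^ 2 * b * qf z.1))‖ ∂ν) =
      fun z : {z : ℤ × ℤ // z ≠ 0} => Pool.Agent.Helper88.SE.ht s mu z.1 := by
      funext z
      rw [← hint z]
      apply integral_congr_ae
      filter_upwards with b
      rw [Real.norm_eq_abs, abs_of_nonneg (hnn z b)]
    rw [e]
    exact hsum.subtype {z : ℤ × ℤ | z ≠ 0}
  have hkey := integral_tsum_of_summable_integral_norm hmeas hsum'
  have hHS : Pool.Agent.Helper88.SE.HS s mu =
      ∑' z : {z : ℤ × ℤ // z ≠ 0}, Pool.Agent.Helper88.SE.ht s mu z.1 := by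
    rw [tsum_ne_zero hsum]
    unfold Pool.Agent.Helper88.SE.HS
    have : Pool.Agent.Helper88.SE.ht s mu 0 = 0 := by
      unfold Pool.Agent.Helper88.SE.ht
      rw [if_pos rfl]
    rw [this, sub_zero]
  have hfin : Pool.Agent.Helper88.SE.HS s mu = ∫ b, Gs s (mu ^ 2 * b) ∂ν := by
    rw [hHS]
    simp_rw [← hint]
    rw [hkey]
    rfl
  refine ⟨?_, hfin⟩
  by_contra hni
  have h1 := integral_undef hni
  rw [h1] at hfin
  have h2 : Pool.Agent.Helper88.SE.ht s mu (1, 0) ≤ Pool.Agent.Helper88.SE.HS s mu := by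
    unfold Pool.Agent.Helper88.SE.HS
    exact hsum.le_tsum _ (fun z _ => h0 z)
  have h3 : 0 < Pool.Agent.Helper88.SE.ht s mu (1, 0) := by
    unfold Pool.Agent.Helper88.SE.ht
    rw [if_neg (by simp)]
    have : Pool.Agent.Helper88.SE.hq (1, 0) = 1 := by
      unfold Pool.Agent.Helper88.SE.hq; norm_num
    rw [this]
    simp only [Int.cast_one, Real.sqrt_one, Real.one_rpow, one_mul]
    exact Real.exp_pos _
  linarith

end Pool.Agent.J4.H93.SR
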