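import Pool.Agent.J4.H93.SR.Low
import Pool.Agent.J4.H93.SR.N1
import Pool.Agent.J4.H93.SR.N2
import Pool.Agent.J4.H93.SR.N1b
import Pool.Agent.J4.H93.SR.N3
import Pool.Agent.J4.H93.SR.N4
import Pool.Agent.Helper88.SE3.P_fins
import Pool.Agent.Helper88.SE.Q_main2
import Pool.Agent.Helper88.SE.P_Ic2

/-!
# Project SR: the value of the constant
-/

set_option autoImplicit false

open MeasureTheory Set Filter Topology

namespace Pool.Agent.J4.H93.SR

open Pool.Agent.TH478.CE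

theorem H_eq {ν : Measure ℝ} (hν : IsLevy ν) {s mu : ℝ} (hs : 0 < s) (hs2 : s < 2) (hmu : 0 < mu) :
    Integrable (fun b : ℝ => Rc s (mu ^ 2 * b)) ν ∧
    Pool.Agent.Helper88.SE.HS s mu - 4 * Real.pi / √3 * (mu ^ (s - 2) * Real.Gamma (2 - s)) =
      ∫ b, Rc s (mu ^ 2 * b) ∂ν := by
  obtain ⟨h1, h2⟩ := HS_eq hν hs hs2 hmu
  obtain ⟨h3, h4⟩ := levy_mom hν hs hs2
  have hae : ∀ᵐ b ∂ν, 0 < b := by
    rw [ae_iff]
    convert hν.pos using 2
    ext b
    simp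
  have h5 : ∀ᵐ b ∂ν, Gs s (mu ^ 2 * b) - 2 * Real.pi / √3 * Real.Gamma (1 - s / 2) *
      mu ^ (s - 2) * b ^ (s / 2 - 1) = Rc s (mu ^ 2 * b) := by
    filter_upwards [hae] with b hb
    rw [← Rc_eq hs hs2 (by positivity : 0 < mu ^ 2 * b), Real.mul_rpow (by positivity) hb.le]
    have e : (mu ^ 2) ^ (s / 2 - 1) = mu ^ (s - 2) := by
      rw [← Real.rpow_natCast mu 2, ← Real.rpow_mul hmu.le]
      congr 1
      push_cast
      ring
    rw [e]
    ring
  have h6 : Integrable (fun b : ℝ => 2 * Real.pi / √3 * Real.Gamma (1 - s / 2) *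
      mu ^ (s - 2) * b ^ (s / 2 - 1)) ν := h3.const_mul _
  have h7 := (h1.sub h6)
  refine ⟨h7.congr h5, ?_⟩
  rw [← integral_congr_ae h5, integral_sub h1 h6, ← h2, integral_const_mul]
  have e2 : 2 * Real.pi / √3 * Real.Gamma (1 - s / 2) * mu ^ (s - 2) * ∫ b, b ^ (s / 2 - 1) ∂ν =
      2 * Real.pi / √3 * mu ^ (s - 2) * (Real.Gamma (1 - s / 2) * ∫ b, b ^ (s / 2 - 1) ∂ν) := by ring
  rw [e2, h4]
  ring

theorem H_lim {s : ℝ} (hs : 0 < s) (hs2 : s < 2) :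
    Tendsto (fun mu : ℝ => Pool.Agent.Helper88.SE.HS s mu -
      4 * Real.pi / √3 * (mu ^ (s - 2) * Real.Gamma (2 - s))) (𝓝[>] 0) (𝓝 (Lh s)) := by
  obtain ⟨ν, hν⟩ := levy_exists
  have := hν.prob
  obtain ⟨hlim, B, hB⟩ := Rc_lim hs hs2
  have hae : ∀ᵐ b ∂ν, 0 < b := by
    rw [ae_iff]
    convert hν.pos using 2
    ext b
    simp
  have h1 : Tendsto (fun mu : ℝ => ∫ b, Rc s (mu ^ 2 * b) ∂ν) (𝓝[>] 0) (𝓝 (∫ _, Lh s ∂ν)) := by
    apply tendsto_integral_filter_of_dominated_convergence (fun _ => B)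
    · filter_upwards [self_mem_nhdsWithin] with mu hmu
      exact (H_eq hν hs hs2 hmu).1.aestronglyMeasurable
    · filter_upwards [self_mem_nhdsWithin] with mu hmu
      have hmu' : (0 : ℝ) < mu := hmu
      filter_upwards [hae] with b hb
      rw [Real.norm_eq_abs]
      exact hB _ (by positivity)
    · exact integrable_const _
    · filter_upwards [hae] with b hb
      apply hlim.comp
      apply tendsto_nhdsWithin_of_tendsto_nhds_of_eventually_within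
      · apply tendsto_nhdsWithin_of_tendsto_nhds
        have : ContinuousAt (fun mu : ℝ => mu ^ 2 * b) 0 := by fun_prop
        have h := this.tendsto
        simpa using h
      · filter_upwards [self_mem_nhdsWithin] with mu hmu
        have hmu' : (0 : ℝ) < mu := hmu
        exact mem_Ioi.2 (by positivity)
  rw [integral_const, probReal_univ, one_smul] at h1
  refine h1.congr' ?_
  filter_upwards [self_mem_nhdsWithin] with mu hmu
  exact (H_eq hν hs hs2 hmu).2.symm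

theorem cS_eq (s : ℝ) : cS s = (8 * Real.pi / √3) ^ (-(s / 2)) * Lh s := by
  have hpi := Real.pi_pos
  have h3 : (0 : ℝ) < √3 := by positivity
  have hb : (0 : ℝ) < 8 * Real.pi / √3 := by positivity
  have h1 := integral_comp_mul_left_Ioi (fun t : ℝ => t ^ (s / 2 - 1) * Dth t) 0 hb
  rw [mul_zero] at h1
  have h2 : ∫ τ in Ioi (0 : ℝ), (8 * Real.pi / √3 * τ) ^ (s / 2 - 1) * Dth (8 * Real.pi / √3 * τ) =
      (8 * Real.pi / √3) ^ (s / 2 - 1) * ∫ τ in Ioi (0 : ℝ),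
        τ ^ (s / 2 - 1) * (Pool.Agent.TH478.CE.En (4 * Real.pi * τ) - 1 / (4 * τ)) := by
    rw [← integral_const_mul]
    apply setIntegral_congr_fun measurableSet_Ioi
    intro τ hτ
    have hτ' : (0 : ℝ) < τ := hτ
    have e1 : Dth (8 * Real.pi / √3 * τ) = Pool.Agent.TH478.CE.En (4 * Real.pi * τ) -
        1 / (4 * τ) := by
      unfold Dth c3
      have e2 : 8 * Real.pi / √3 * τ / (2 / √3) = 4 * Real.pi * τ := by
        field_simp
        ring
      have e3 : 2 * Real.pi / (√3 * (8 * Real.pi / √3 * τ)) = 1 / (4 * τ) := by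
        field_simp
        ring
      rw [e2, e3]
    simp only []
    rw [e1, Real.mul_rpow hb.le hτ'.le]
    ring
  rw [h2, smul_eq_mul] at h1
  unfold cS Lh
  have h4 : ∫ τ in Ioi (0 : ℝ),
        τ ^ (s / 2 - 1) * (Pool.Agent.TH478.CE.En (4 * Real.pi * τ) - 1 / (4 * τ)) =
      (8 * Real.pi / √3) ^ (-(s / 2)) * ∫ t in Ioi (0 : ℝ), t ^ (s / 2 - 1) * Dth t := by
    have h5 : (8 * Real.pi / √3) ^ (s / 2 - 1) ≠ 0 := (Real.rpow_pos_of_pos hb _).ne'
    have h6 : (8 * Real.pi / √3) ^ (-(s / 2)) =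
        ((8 * Real.pi / √3) ^ (s / 2 - 1))⁻¹ * (8 * Real.pi / √3)⁻¹ := by
      rw [← Real.rpow_neg hb.le, ← Real.rpow_neg_one (8 * Real.pi / √3), ← Real.rpow_add hb]
      congr 1
      ring
    rw [h6, mul_assoc, ← h1, ← mul_assoc, inv_mul_cancel₀ h5, one_mul]
  rw [h4]
  ring

/-- the error is small -/
theorem eS_le {s : ℝ} (hs : 0 < s) (hs2 : s < 2) : eS s ≤ 10 ^ (-7 : ℤ) := by
  have hpi := Real.pi_pos
  have hpi3 := Real.pi_gt_three
  have hG : 1 / 2 ≤ Real.Gamma (s / 2 + 1) := by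
    have h1 : Real.Gamma (s / 2 + 1 + 1) = (s / 2 + 1) * Real.Gamma (s / 2 + 1) :=
      Real.Gamma_add_one (by positivity)
    have h2 : Real.Gamma 2 ≤ Real.Gamma (s / 2 + 1 + 1) :=
      Real.Gamma_strictMonoOn_Ici.monotoneOn (Set.mem_Ici.2 le_rfl)
        (Set.mem_Ici.2 (by linarith)) (by linarith)
    rw [Real.Gamma_two, h1] at h2
    have h3 : 0 < Real.Gamma (s / 2 + 1) := Real.Gamma_pos_of_pos (by positivity)
    nlinarith
  have hG0 : 0 < Real.Gamma (s / 2 + 1) := by linarith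
  have h4 : (4 * Real.pi) ^ (-(s / 2)) ≤ 1 :=
    Real.rpow_le_one_of_one_le_of_nonpos (by linarith) (by linarith)
  have h40 : 0 < (4 * Real.pi) ^ (-(s / 2)) := by positivity
  have hc : 1 ≤ c3 := by
    unfold c3
    rw [le_div_iff₀ (by positivity), one_mul]
    apply Real.sqrt_le_iff.2
    norm_num
  have h5 : c3 ^ (-(s / 2) - 1) ≤ 1 := Real.rpow_le_one_of_one_le_of_nonpos hc (by linarith)
  have h50 : 0 < c3 ^ (-(s / 2) - 1) := Real.rpow_pos_of_pos (by linarith) _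
  have h6 : (4 * Real.pi) ^ (-(s / 2)) * (Real.pi ^ (s / 2) / Real.Gamma (s / 2 + 1)) ≤ 2 := by
    have h7 : (4 * Real.pi) ^ (-(s / 2)) * Real.pi ^ (s / 2) ≤ 1 := by
      rw [Real.mul_rpow (by norm_num) hpi.le, mul_assoc, ← Real.rpow_add hpi, neg_add_cancel,
        Real.rpow_zero, mul_one]
      exact Real.rpow_le_one_of_one_le_of_nonpos (by norm_num) (by linarith)
    rw [← mul_div_assoc, div_le_iff₀ hG0]
    linarith
  have h8 : (4 * Real.pi) ^ (-(s / 2)) * (7 * (s / 2) * c3 ^ (-(s / 2) - 1)) ≤ 7 := by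
    have h9 : 7 * (s / 2) * c3 ^ (-(s / 2) - 1) ≤ 7 := by nlinarith
    have h10 : 0 ≤ 7 * (s / 2) * c3 ^ (-(s / 2) - 1) := by positivity
    nlinarith
  unfold eS
  have e : (4 * Real.pi) ^ (-(s / 2)) * (10 ^ (-8 : ℤ) * (Real.pi ^ (s / 2) /
      Real.Gamma (s / 2 + 1) + 7 * (s / 2) * c3 ^ (-(s / 2) - 1))) = 10 ^ (-8 : ℤ) *
      ((4 * Real.pi) ^ (-(s / 2)) * (Real.pi ^ (s / 2) / Real.Gamma (s / 2 + 1)) +
        (4 * Real.pi) ^ (-(s / 2)) * (7 * (s / 2) * c3 ^ (-(s / 2) - 1))) := by ring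
  rw [e]
  norm_num
  linarith

open Pool.Agent.Helper88.SE in
/-- two-sided bound for the second order constant -/
theorem two_sided (s : ℝ) (hs : 0 < s) (hs2 : s < 2) (C : ℝ)
    (hC : Tendsto (fun N : ℕ => F 2 s N / (N : ℝ) ^ (1 + s / 2)) atTop (𝓝 C)) :
    ∃ z l : ℝ, riemannZeta (((s / 2 : ℝ)) : ℂ) = (z : ℂ) ∧
    HurwitzZeta.hurwitzZeta ((1 / 3 : ℝ) : UnitAddCircle) (((s / 2 : ℝ)) : ℂ) -
      HurwitzZeta.hurwitzZeta ((2 / 3 : ℝ) : UnitAddCircle) (((s / 2 : ℝ)) : ℂ) = (l : ℂ) ∧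
    C ≤ 6 * (8 * Real.sqrt 3 * Real.pi) ^ (-(s / 2)) * z * l ∧
    6 * (8 * Real.sqrt 3 * Real.pi) ^ (-(s / 2)) * z * l - eS s ≤ C := by
  obtain ⟨z, hz1, hz2⟩ := zeta_s s hs hs2
  obtain ⟨l0, hl1, hl2⟩ := Ls s hs hs2
  have h1 := HSs_lim s hs hs2 z l0 (Es_lim s hs hs2 z hz2) hl1
  have hL : Lh s = 6 * z * l0 := tendsto_nhds_unique (H_lim hs hs2) h1
  have h4 : (8 * Real.sqrt 3 * Real.pi) ^ (-(s / 2)) * (3 : ℝ) ^ (s / 2) =
      (8 * Real.pi / Real.sqrt 3) ^ (-(s / 2)) := by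
    have e : 8 * Real.sqrt 3 * Real.pi = (8 * Real.pi / Real.sqrt 3) * 3 := by
      have h5 : Real.sqrt 3 * Real.sqrt 3 = 3 := Real.mul_self_sqrt (by norm_num)
      have h6 : Real.sqrt 3 ≠ 0 := by positivity
      field_simp
      linear_combination h5
    rw [e, Real.mul_rpow (by positivity) (by norm_num), mul_assoc,
      ← Real.rpow_add (by norm_num : (0:ℝ) < 3), neg_add_cancel, Real.rpow_zero, mul_one]
  have h7 : 6 * (8 * Real.sqrt 3 * Real.pi) ^ (-(s / 2)) * z * ((3 : ℝ) ^ (s / 2) * l0) = cS s := by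
    rw [cS_eq s, hL, ← h4]
    ring
  refine ⟨z, (3 : ℝ) ^ (s / 2) * l0, hz1, hl2, ?_, ?_⟩
  · have h2 := h1.const_mul ((8 * Real.pi / Real.sqrt 3) ^ (-(s / 2)))
    have h3 : C ≤ (8 * Real.pi / Real.sqrt 3) ^ (-(s / 2)) * (6 * z * l0) := by
      refine ge_of_tendsto h2 ?_
      filter_upwards [self_mem_nhdsWithin] with mu hmu
      exact up1 s hs hs2 C hC mu hmu
    rw [h7, cS_eq s, hL]
    exact h3
  · rw [h7]
    exact C_low hs hs2 hC

end Pool.Agent.J4.H93.SR
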