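import Pool.Agent.J4.H93.SR.A5
import Pool.Agent.J4.H93.SR.A6
import Pool.Agent.J4.H93.SR.A7
import Pool.Agent.J4.H93.SR.A8
import Pool.Agent.J4.H93.SR.B1
import Pool.Agent.J4.H93.SR.B2
import Pool.Agent.J4.H93.SR.B3
import Pool.Agent.J4.H93.SR.B4
import Pool.Agent.J4.H93.RZ.DB1
import Pool.Agent.J4.H93.RZ.DB2
import Pool.Agent.Helper88.SE.P_main
import Pool.Agent.Helper88.SE.P_Em_basic

/-!
# Project SR: lower bounds for Gaussian and Riesz energies on the two-sphere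
-/

set_option autoImplicit false

open MeasureTheory Set Filter Topology

namespace Pool.Agent.J4.H93.SR

open Pool.Agent.TH478.CE

/-- the bound given by a test function -/
theorem Ga_ge {β : ℝ} (hβ : 0 < β) {f : P → ℝ} (hf : Feas β f) {r : ℝ} (hr : 0 < r) (hr1 : r < 1)
    {N : ℕ} (hN : 0 < N) (x : Fin N → S2) :
    (N : ℝ) * (dd f (√((N : ℝ) / (4 * Real.pi)) * r) /
      (Real.pi * (√((N : ℝ) / (4 * Real.pi)) * r) ^ 2) - f 0) ≤
      Ga (β * (1 - r ^ 2) / (4 * Real.pi) * N) x := by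
  have hpi := Real.pi_pos
  have hN' : (0 : ℝ) < N := by exact_mod_cast hN
  set lam : ℝ := √((N : ℝ) / (4 * Real.pi)) with hlam
  have hl0 : 0 < lam := Real.sqrt_pos.2 (by positivity)
  have hl2 : lam ^ 2 = (N : ℝ) / (4 * Real.pi) := Real.sq_sqrt (by positivity)
  have h1 := sphere_pd hf.rs hf.rpos hl0 hr hr1 x
  rw [dd_scale f hl0 hr] at h1
  have h2 : ∑ i, ∑ j, ∫ p, kap f lam r (x i) (x j) p ∂sg2 ≤
      ∑ i, ∑ j, (if i = j then f 0 * (r ^ 2 / 4) else
        Real.exp (-(β * (1 - r ^ 2) / (4 * Real.pi) * N * dist (x i) (x j) ^ 2)) * (r ^ 2 / 4)) := by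
    refine Finset.sum_le_sum fun i _ => Finset.sum_le_sum fun j _ => ?_
    split_ifs with hij
    · rw [hij]
      exact kap_diag hf.rs hf.rpos hr hr1 (x j)
    · refine (kap_le hβ hf hl0 hr hr1 (x i) (x j)).trans (le_of_eq ?_)
      rw [hl2]
      congr 3
      ring
  have h3 : ∑ i, ∑ j, (if i = j then f 0 * (r ^ 2 / 4) else
        Real.exp (-(β * (1 - r ^ 2) / (4 * Real.pi) * N * dist (x i) (x j) ^ 2)) * (r ^ 2 / 4)) =
      (r ^ 2 / 4) * (N * f 0 + Ga (β * (1 - r ^ 2) / (4 * Real.pi) * N) x) := by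
    unfold Ga
    have e : ∀ i : Fin N, ∑ j, (if i = j then f 0 * (r ^ 2 / 4) else
        Real.exp (-(β * (1 - r ^ 2) / (4 * Real.pi) * N * dist (x i) (x j) ^ 2)) * (r ^ 2 / 4)) =
        (r ^ 2 / 4) * (f 0 + ∑ j, if i = j then 0 else
          Real.exp (-(β * (1 - r ^ 2) / (4 * Real.pi) * N * dist (x i) (x j) ^ 2))) := by
      intro i
      have e2 : ∀ j : Fin N, (if i = j then f 0 * (r ^ 2 / 4) else
        Real.exp (-(β * (1 - r ^ 2) / (4 * Real.pi) * N * dist (x i) (x j) ^ 2)) * (r ^ 2 / 4)) =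
        (if i = j then f 0 * (r ^ 2 / 4) else 0) + (r ^ 2 / 4) * (if i = j then 0 else
          Real.exp (-(β * (1 - r ^ 2) / (4 * Real.pi) * N * dist (x i) (x j) ^ 2))) := by
        intro j
        split_ifs <;> ring
      rw [Finset.sum_congr rfl fun j _ => e2 j, Finset.sum_add_distrib, ← Finset.mul_sum,
        Finset.sum_ite_eq]
      simp
      ring
    rw [Finset.sum_congr rfl fun i _ => e i, ← Finset.mul_sum, Finset.sum_add_distrib]
    simp
  rw [h3] at h2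
  have h4 := h1.trans h2
  have h5 : ((N : ℝ) / (4 * Real.pi)) ^ 2 * (lam ^ (-4 : ℤ) * dd f (lam * r)) =
      (r ^ 2 / 4) * (N * (dd f (lam * r) / (Real.pi * (lam * r) ^ 2))) := by
    rw [← hl2]
    have h6 : lam ^ (-4 : ℤ) = (lam ^ 4)⁻¹ := by
      rw [zpow_neg]
      norm_cast
    rw [h6]
    have h7 : (N : ℝ) = 4 * Real.pi * lam ^ 2 := by
      rw [hl2]
      field_simp
    rw [h7]
    field_simp
  rw [h5] at h4
  have h8 : 0 < r ^ 2 / 4 := by positivity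
  have h9 := le_of_mul_le_mul_left h4 h8
  linarith

/-- the local lower bound on the sphere -/
theorem sphere_low {τ : ℝ} (hτ : 0 < τ) {ε : ℝ} (hε : 0 < ε) :
    ∃ N0 : ℕ, 0 < N0 ∧ ∀ N : ℕ, N0 ≤ N → ∀ x : Fin N → S2,
      (N : ℝ) * (LP (4 * Real.pi * τ) - ε) ≤ Ga (τ * N) x := by
  have hpi := Real.pi_pos
  set α : ℝ := 4 * Real.pi * τ with hα
  have hα0 : 0 < α := by positivity
  have hLP := LP_nonneg hα0
  -- choose `r`
  obtain ⟨r, hr, hr1, hr2⟩ : ∃ r : ℝ, 0 < r ∧ r < 1 ∧ r ^ 2 * (LP α + 1) ≤ ε / 3 := by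
    refine ⟨√(min (1 / 2) (ε / (3 * (LP α + 1)))), Real.sqrt_pos.2 (by positivity), ?_, ?_⟩
    · rw [Real.sqrt_lt' one_pos, one_pow]
      exact (min_le_left _ _).trans_lt (by norm_num)
    · rw [Real.sq_sqrt (by positivity)]
      calc min (1 / 2) (ε / (3 * (LP α + 1))) * (LP α + 1) ≤
          ε / (3 * (LP α + 1)) * (LP α + 1) := by
            gcongr
            exact min_le_right _ _
        _ = ε / 3 := by field_simp
  have hr2' : 0 < 1 - r ^ 2 := by nlinarith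
  set β : ℝ := α / (1 - r ^ 2) with hβ
  have hβ0 : 0 < β := by positivity
  have hαβ : α ≤ β := by
    rw [hβ, le_div_iff₀ hr2']
    nlinarith [sq_nonneg r]
  have h1 : LP α - ε / 3 ≤ LP β := by
    have h2 := LP_mul_mono hα0 hαβ
    have h3 : α = (1 - r ^ 2) * β := by rw [hβ]; field_simp
    have h4 : (1 - r ^ 2) * β * (LP α + 1) ≤ β * (LP β + 1) := by rw [← h3]; exact h2
    have h5 : (1 - r ^ 2) * (LP α + 1) ≤ LP β + 1 := by
      have : β * ((1 - r ^ 2) * (LP α + 1)) ≤ β * (LP β + 1) := by linarith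
      exact le_of_mul_le_mul_left this hβ0
    linarith
  -- choose `f`
  obtain ⟨f, hf, hf2⟩ : ∃ f : P → ℝ, Feas β f ∧ LP β - ε / 6 < rft f 0 - f 0 := by
    by_contra hcon
    push Not at hcon
    have := LP_le hβ0 (c := LP β - ε / 6) (fun f hf => hcon f hf)
    linarith
  -- choose `N`
  have h6 : Tendsto (fun N : ℕ => √((N : ℝ) / (4 * Real.pi)) * r) atTop atTop := by
    apply Tendsto.atTop_mul_const hr
    apply Real.tendsto_sqrt_atTop.comp
    exact tendsto_natCast_atTop_atTop.atTop_div_const (by positivity)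
  have h7 := ((dd_lim hf.rs).comp h6).eventually_const_lt
    (show rft f 0 - ε / 6 < rft f 0 by linarith)
  obtain ⟨N0, hN0⟩ := eventually_atTop.1 h7
  refine ⟨N0 + 1, Nat.succ_pos _, fun N hN x => ?_⟩
  have hNpos : 0 < N := by omega
  have h8 := hN0 N (by omega)
  simp only [Function.comp] at h8
  have h9 := Ga_ge hβ0 hf hr hr1 hNpos x
  have h10 : β * (1 - r ^ 2) / (4 * Real.pi) * N = τ * N := by
    rw [hβ, hα]
    field_simp
  rw [h10] at h9
  refine le_trans ?_ h9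
  apply mul_le_mul_of_nonneg_left _ (Nat.cast_nonneg N)
  linarith

theorem Ga_nonneg {N : ℕ} (t : ℝ) (x : Fin N → S2) : 0 ≤ Ga t x := by
  unfold Ga
  refine Finset.sum_nonneg fun i _ => Finset.sum_nonneg fun j _ => ?_
  split_ifs
  · exact le_rfl
  · positivity

theorem g2_le {t : ℝ} (ht : 0 < t) : g2 t ≤ 1 / (4 * t) := by
  unfold g2
  gcongr
  linarith [Real.exp_pos (-(4 * t))]

theorem Phi_ge {N : ℕ} (hN : 0 < N) (x : Fin N → S2) {τ : ℝ} (hτ : 0 < τ) :
    -(min 1 (1 / (4 * τ))) ≤ Phi x τ := by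
  have hN' : (0 : ℝ) < N := by exact_mod_cast hN
  have hG := Ga_nonneg (τ * N) x
  have h1 := gauss_pd (t := τ * N) (by positivity) x
  have h2 := g2_le (t := τ * N) (by positivity)
  unfold Phi
  have h3 : -1 ≤ 1 / (N : ℝ) * Ga (τ * N) x - N * g2 (τ * N) := by
    have : (N : ℝ) * (1 / (N : ℝ) * Ga (τ * N) x - N * g2 (τ * N) + 1) =
        Ga (τ * N) x + N - N ^ 2 * g2 (τ * N) := by
      field_simp
      ring
    have h4 : 0 ≤ (N : ℝ) * (1 / (N : ℝ) * Ga (τ * N) x - N * g2 (τ * N) + 1) := by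
      rw [this]; linarith
    have := nonneg_of_mul_nonneg_right h4 hN'
    linarith
  have h5 : -(1 / (4 * τ)) ≤ 1 / (N : ℝ) * Ga (τ * N) x - N * g2 (τ * N) := by
    have h6 : (N : ℝ) * g2 (τ * N) ≤ 1 / (4 * τ) := by
      calc (N : ℝ) * g2 (τ * N) ≤ N * (1 / (4 * (τ * N))) := by gcongr
        _ = 1 / (4 * τ) := by field_simp
    have h7 : 0 ≤ 1 / (N : ℝ) * Ga (τ * N) x := by positivity
    linarith
  rcases min_choice (1 : ℝ) (1 / (4 * τ)) with h | h
  · rw [h]; exact h3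
  · rw [h]; exact h5

theorem Phi_low {τ : ℝ} (hτ : 0 < τ) {ε : ℝ} (hε : 0 < ε) :
    ∃ N0 : ℕ, 0 < N0 ∧ ∀ N : ℕ, N0 ≤ N → ∀ x : Fin N → S2,
      LP (4 * Real.pi * τ) - 1 / (4 * τ) - ε ≤ Phi x τ := by
  obtain ⟨N0, h0, h1⟩ := sphere_low hτ hε
  refine ⟨N0, h0, fun N hN x => ?_⟩
  have hN' : (0 : ℝ) < N := by exact_mod_cast lt_of_lt_of_le h0 hN
  have h2 := h1 N hN x
  have h6 : (N : ℝ) * g2 (τ * N) ≤ 1 / (4 * τ) := by
    calc (N : ℝ) * g2 (τ * N) ≤ N * (1 / (4 * (τ * N))) := by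
          have := g2_le (t := τ * N) (by positivity)
          gcongr
      _ = 1 / (4 * τ) := by field_simp
  have h7 : LP (4 * Real.pi * τ) - ε ≤ 1 / (N : ℝ) * Ga (τ * N) x := by
    rw [one_div, ← div_eq_inv_mul, le_div_iff₀ hN']
    linarith
  unfold Phi
  linarith

/-- the conjectured constant, as a Mellin integral -/
noncomputable def cS (s : ℝ) : ℝ := 1 / Real.Gamma (s / 2) * ∫ τ in Ioi (0 : ℝ),
  τ ^ (s / 2 - 1) * (Pool.Agent.TH478.CE.En (4 * Real.pi * τ) - 1 / (4 * τ))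

/-- the error -/
noncomputable def eS (s : ℝ) : ℝ := (4 * Real.pi) ^ (-(s / 2)) *
  (10 ^ (-8 : ℤ) * (Real.pi ^ (s / 2) / Real.Gamma (s / 2 + 1) + 7 * (s / 2) * c3 ^ (-(s / 2) - 1)))

theorem C_low {s : ℝ} (hs : 0 < s) (hs2 : s < 2) {C : ℝ}
    (hC : Tendsto (fun N : ℕ => Pool.Agent.Helper88.SE.F 2 s N / (N : ℝ) ^ (1 + s / 2)) atTop (𝓝 C)) :
    cS s - eS s ≤ C := by
  have hpi := Real.pi_pos
  have hG : 0 < Real.Gamma (s / 2) := Real.Gamma_pos_of_pos (by positivity)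
  -- near minimisers
  have hmin : ∀ N : ℕ, ∃ x : Fin N → S2, Function.Injective x ∧
      Pool.Agent.Helper88.SE.En s x < Pool.Agent.Helper88.SE.Em 2 s N + 1 := fun N =>
    (Pool.Agent.Helper88.SE.Em_basic 2 (by norm_num) s hs N).2.2.1 1 one_pos
  choose X hXi hXe using hmin
  obtain ⟨d1, d2⟩ := Pool.Agent.J4.H93.RZ.Dm_int s (1 / (4 * Real.pi)) hs (by positivity)
  have hDe : ∀ u : ℝ, u / (1 / (4 * Real.pi)) = 4 * Real.pi * u := fun u => by field_simp
  simp only [hDe] at d1 d2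
  have hEn := En_int hs hs2
  set ψ : ℝ → ℝ := fun τ => τ ^ (s / 2 - 1) * (Pool.Agent.TH478.CE.En (4 * Real.pi * τ) -
    1 / (4 * τ)) - τ ^ (s / 2 - 1) * Pool.Agent.J4.H93.RZ.Dm (4 * Real.pi * τ) with hψ
  have hψi : IntegrableOn ψ (Ioi 0) := hEn.sub d1
  have key := fatou_low (φ := fun n τ => τ ^ (s / 2 - 1) * Phi (X (n + 1)) τ)
    (h := fun τ => τ ^ (s / 2 - 1) * min 1 (1 / (4 * τ))) (ψ := ψ)
    (fun n => (riesz_rep hs hs2 (Nat.succ_pos n) (X (n + 1)) (hXi (n + 1))).1)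
    (h_int hs hs2) hψi ?_ ?_
  · -- conclusion
    have h1 : ∀ ε > 0, ∀ᶠ n : ℕ in atTop, 1 / Real.Gamma (s / 2) * (∫ τ in Ioi 0, ψ τ) - ε ≤
        (Pool.Agent.Helper88.SE.F 2 s (n + 1) + 1) / ((n + 1 : ℕ) : ℝ) ^ (1 + s / 2) := by
      intro ε hε
      filter_upwards [key (ε * Real.Gamma (s / 2)) (by positivity)] with n hn
      have h2 := (riesz_rep hs hs2 (Nat.succ_pos n) (X (n + 1)) (hXi (n + 1))).2
      have h3 := hXe (n + 1)
      have hn1 : (0 : ℝ) < ((n + 1 : ℕ) : ℝ) := by positivity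
      have h4 : Pool.Agent.Helper88.SE.En s (X (n + 1)) -
          ((n + 1 : ℕ) : ℝ) ^ 2 * Pool.Agent.Helper88.SE.Ic 2 s ≤
          Pool.Agent.Helper88.SE.F 2 s (n + 1) + 1 := by
        unfold Pool.Agent.Helper88.SE.F
        linarith
      rw [le_div_iff₀ (by positivity)]
      refine le_trans ?_ h4
      rw [h2, mul_comm]
      apply mul_le_mul_of_nonneg_left _ (by positivity)
      have h5 : 1 / Real.Gamma (s / 2) * ((∫ τ in Ioi 0, ψ τ) - ε * Real.Gamma (s / 2)) ≤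
          1 / Real.Gamma (s / 2) * ∫ τ in Ioi 0, τ ^ (s / 2 - 1) * Phi (X (n + 1)) τ :=
        mul_le_mul_of_nonneg_left hn (by positivity)
      refine le_trans (le_of_eq ?_) h5
      field_simp
    have h6 : Tendsto (fun n : ℕ => (Pool.Agent.Helper88.SE.F 2 s (n + 1) + 1) /
        ((n + 1 : ℕ) : ℝ) ^ (1 + s / 2)) atTop (𝓝 (C + 0)) := by
      have h7 := (tendsto_add_atTop_iff_nat 1).2 hC
      have h8 : Tendsto (fun n : ℕ => 1 / ((n + 1 : ℕ) : ℝ) ^ (1 + s / 2)) atTop (𝓝 0) := by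
        have h9 : Tendsto (fun n : ℕ => ((n : ℕ) : ℝ) ^ (1 + s / 2)) atTop atTop :=
          (tendsto_rpow_atTop (by positivity)).comp tendsto_natCast_atTop_atTop
        have h10 := (tendsto_add_atTop_iff_nat 1).2 h9
        refine h10.inv_tendsto_atTop.congr fun n => ?_
        rw [Pi.inv_apply, one_div]
      refine (h7.add h8).congr fun n => ?_
      rw [add_div]
    rw [add_zero] at h6
    have h11 : 1 / Real.Gamma (s / 2) * (∫ τ in Ioi 0, ψ τ) ≤ C := by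
      apply le_of_forall_pos_le_add
      intro ε hε
      have h12 := ge_of_tendsto h6 (h1 ε hε)
      linarith
    refine le_trans (le_of_eq ?_) h11
    rw [hψ, integral_sub hEn d1, mul_sub, d2]
    unfold cS eS
    congr 2
    rw [one_div, Real.inv_rpow (by positivity), Real.rpow_neg (by positivity)]
  · intro n τ hτ
    have h1 := Phi_ge (Nat.succ_pos n) (X (n + 1)) hτ
    have h2 : 0 ≤ τ ^ (s / 2 - 1) := by positivity
    have h3 := mul_le_mul_of_nonneg_left h1 h2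
    linarith
  · intro τ hτ ε hε
    have hτ0 : 0 < τ := hτ
    have h2 : 0 < τ ^ (s / 2 - 1) := by positivity
    obtain ⟨N0, h0, h1⟩ := Phi_low hτ0 (ε := ε / τ ^ (s / 2 - 1)) (by positivity)
    filter_upwards [eventually_ge_atTop N0] with n hn
    have h3 := h1 (n + 1) (by omega) (X (n + 1))
    have h4 := Pool.Agent.J4.H93.RZ.En_sub_LP_le (4 * Real.pi * τ) (by positivity)
    have h5 : Pool.Agent.TH478.CE.En (4 * Real.pi * τ) - 1 / (4 * τ) -
        Pool.Agent.J4.H93.RZ.Dm (4 * Real.pi * τ) - ε / τ ^ (s / 2 - 1) ≤ Phi (X (n + 1)) τ := by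
      linarith
    have h6 := mul_le_mul_of_nonneg_left h5 h2.le
    refine le_trans (le_of_eq ?_) h6
    rw [hψ]
    field_simp

end Pool.Agent.J4.H93.SR
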