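import Pool.Agent.J4.H93.SR.Defs2

set_option autoImplicit false

open MeasureTheory Set Filter Topology

namespace Pool.Agent.J4.H93.SR

namespace N1i

theorem sub_deriv {a u : ℝ} (hu : 0 < u) :
    HasDerivAt (fun u : ℝ => u - a / u) (1 + a / u ^ 2) u := by
  have h := (hasDerivAt_id u).sub ((hasDerivAt_const u a).div (hasDerivAt_id u) hu.ne')
  refine h.congr_deriv ?_
  simp only [id]
  field_simp
  ring

theorem image_sub {a : ℝ} (ha : 0 < a) : (fun u : ℝ => u - a / u) '' Ioi 0 = univ := by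
  rw [eq_univ_iff_forall]
  intro v
  have hs : 0 ≤ v ^ 2 + 4 * a := by positivity
  have hlt : |v| < √(v ^ 2 + 4 * a) := by
    rw [← Real.sqrt_sq_eq_abs]
    exact Real.sqrt_lt_sqrt (sq_nonneg _) (by linarith)
  have hpos : 0 < (v + √(v ^ 2 + 4 * a)) / 2 := by
    have := neg_abs_le v
    linarith
  refine ⟨(v + √(v ^ 2 + 4 * a)) / 2, hpos, ?_⟩
  have h2 := Real.sq_sqrt hs
  show (v + √(v ^ 2 + 4 * a)) / 2 - a / ((v + √(v ^ 2 + 4 * a)) / 2) = v
  rw [sub_eq_iff_eq_add, ← sub_eq_iff_eq_add', eq_comm, div_eq_iff hpos.ne']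
  nlinarith

theorem inj_sub {a : ℝ} (ha : 0 < a) : InjOn (fun u : ℝ => u - a / u) (Ioi 0) := by
  intro u hu v hv h
  have hu' : 0 < u := hu
  have hv' : 0 < v := hv
  have h' : u - a / u = v - a / v := h
  have h1 : (u - v) * (1 + a / (u * v)) = 0 := by
    have : (u - v) * (1 + a / (u * v)) = (u - a / u) - (v - a / v) := by
      field_simp
      ring
    rw [this, h', sub_self]
  rcases mul_eq_zero.1 h1 with h2 | h2
  · linarith
  · have : 0 < 1 + a / (u * v) := by positivity
    linarith

theorem int_one {a : ℝ} (ha : 0 < a) :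
    ∫ u in Ioi (0 : ℝ), |1 + a / u ^ 2| • Real.exp (-(u - a / u) ^ 2) = √Real.pi := by
  have h := integral_image_eq_integral_abs_deriv_smul (s := Ioi (0 : ℝ)) measurableSet_Ioi
    (f := fun u : ℝ => u - a / u) (f' := fun u => 1 + a / u ^ 2)
    (fun u hu => (sub_deriv hu).hasDerivWithinAt) (inj_sub ha) (fun v => Real.exp (-v ^ 2))
  rw [← h, image_sub ha, Measure.restrict_univ]
  simpa using integral_gaussian 1

theorem integrable_one {a : ℝ} (ha : 0 < a) :
    IntegrableOn (fun u : ℝ => |1 + a / u ^ 2| • Real.exp (-(u - a / u) ^ 2)) (Ioi 0) := by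
  have h := integrableOn_image_iff_integrableOn_abs_deriv_smul (s := Ioi (0 : ℝ))
    measurableSet_Ioi (f := fun u : ℝ => u - a / u) (f' := fun u => 1 + a / u ^ 2)
    (fun u hu => (sub_deriv hu).hasDerivWithinAt) (inj_sub ha) (fun v => Real.exp (-v ^ 2))
  rw [← h, image_sub ha, integrableOn_univ]
  simpa using integrable_exp_neg_mul_sq (b := 1) one_pos

theorem int_g {a : ℝ} (ha : 0 < a) :
    ∫ u in Ioi (0 : ℝ), Real.exp (-(u - a / u) ^ 2) = √Real.pi / 2 := by
  have hcont : ContinuousOn (fun u : ℝ => Real.exp (-(u - a / u) ^ 2)) (Ioi 0) := by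
    refine Real.continuous_exp.comp_continuousOn ?_
    refine ((continuousOn_id.sub (continuousOn_const.div continuousOn_id ?_)).pow 2).neg
    intro u hu
    exact (ne_of_gt hu)
  have hmeas : AEStronglyMeasurable (fun u : ℝ => Real.exp (-(u - a / u) ^ 2))
      (volume.restrict (Ioi 0)) := hcont.aestronglyMeasurable measurableSet_Ioi
  have hg : IntegrableOn (fun u : ℝ => Real.exp (-(u - a / u) ^ 2)) (Ioi 0) := by
    refine Integrable.mono (integrable_one ha) hmeas ?_
    refine (ae_restrict_mem measurableSet_Ioi).mono fun u hu => ?_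
    have hu' : (0 : ℝ) < u := hu
    rw [smul_eq_mul, norm_mul, Real.norm_eq_abs (|1 + a / u ^ 2|), abs_abs]
    have : 1 ≤ |1 + a / u ^ 2| := by
      rw [abs_of_pos (by positivity)]
      have : 0 < a / u ^ 2 := by positivity
      linarith
    nlinarith [norm_nonneg (Real.exp (-(u - a / u) ^ 2))]
  -- the substitution `u -> a / u`
  have hinv : ∫ u in Ioi (0 : ℝ), Real.exp (-(u - a / u) ^ 2) =
      ∫ u in Ioi (0 : ℝ), |-a / u ^ 2| • Real.exp (-(u - a / u) ^ 2) := by
    have himg : (fun u : ℝ => a / u) '' Ioi 0 = Ioi 0 := by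
      ext v
      constructor
      · rintro ⟨u, hu, rfl⟩
        exact div_pos ha hu
      · intro hv
        refine ⟨a / v, div_pos ha hv, ?_⟩
        have : v ≠ 0 := ne_of_gt hv
        show a / (a / v) = v
        field_simp
    have hinj : InjOn (fun u : ℝ => a / u) (Ioi 0) := by
      intro u hu v hv h
      have hu' : u ≠ 0 := ne_of_gt hu
      have hv' : v ≠ 0 := ne_of_gt hv
      have h' : a / u = a / v := h
      field_simp at h'
      linarith
    have h := integral_image_eq_integral_abs_deriv_smul (s := Ioi (0 : ℝ)) measurableSet_Ioi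
      (f := fun u : ℝ => a / u) (f' := fun u => -a / u ^ 2)
      (fun u hu => by
        have hu' : u ≠ 0 := ne_of_gt hu
        have h2 := ((hasDerivAt_const u a).div (hasDerivAt_id u) hu')
        refine (h2.congr_deriv ?_).hasDerivWithinAt
        simp only [id]
        ring) hinj (fun v => Real.exp (-(v - a / v) ^ 2))
    rw [himg] at h
    rw [h]
    refine setIntegral_congr_fun measurableSet_Ioi fun u hu => ?_
    have hu' : u ≠ 0 := ne_of_gt hu
    show |-a / u ^ 2| • Real.exp (-(a / u - a / (a / u)) ^ 2) = _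
    have : a / (a / u) = u := by field_simp
    rw [this]
    congr 2
    ring
  have h1 := int_one ha
  have h2 : ∫ u in Ioi (0 : ℝ), |1 + a / u ^ 2| • Real.exp (-(u - a / u) ^ 2) =
      (∫ u in Ioi (0 : ℝ), Real.exp (-(u - a / u) ^ 2)) +
      ∫ u in Ioi (0 : ℝ), |-a / u ^ 2| • Real.exp (-(u - a / u) ^ 2) := by
    have hint2 : IntegrableOn (fun u : ℝ => |-a / u ^ 2| • Real.exp (-(u - a / u) ^ 2)) (Ioi 0) := by
      refine ((integrable_one ha).sub hg).congr ?_
      refine (ae_restrict_mem measurableSet_Ioi).mono fun u hu => ?_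
      have hu' : (0 : ℝ) < u := hu
      simp only [Pi.sub_apply, smul_eq_mul]
      rw [abs_of_pos (by positivity : 0 < 1 + a / u ^ 2), neg_div, abs_neg,
        abs_of_pos (by positivity : 0 < a / u ^ 2)]
      ring
    rw [← integral_add hg hint2]
    refine setIntegral_congr_fun measurableSet_Ioi fun u hu => ?_
    have hu' : (0 : ℝ) < u := hu
    simp only [smul_eq_mul]
    rw [abs_of_pos (by positivity : 0 < 1 + a / u ^ 2), neg_div, abs_neg,
        abs_of_pos (by positivity : 0 < a / u ^ 2)]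
    ring
  rw [h1, ← hinv] at h2
  linarith

theorem int_K {a : ℝ} (ha : 0 ≤ a) :
    ∫ u in Ioi (0 : ℝ), Real.exp (-u ^ 2 - a ^ 2 / u ^ 2) = Real.exp (-(2 * a)) * (√Real.pi / 2) := by
  rcases ha.eq_or_lt with rfl | ha
  · have h := integral_gaussian_Ioi 1
    simp only [ne_eq, OfNat.ofNat_ne_zero, not_false_eq_true, zero_pow, zero_div, sub_zero, mul_zero,
      neg_zero, Real.exp_zero, one_mul]
    simpa using h
  · rw [← int_g ha, ← integral_const_mul]
    refine setIntegral_congr_fun measurableSet_Ioi fun u hu => ?_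
    have hu' : u ≠ 0 := ne_of_gt hu
    show Real.exp (-u ^ 2 - a ^ 2 / u ^ 2) = Real.exp (-(2 * a)) * Real.exp (-(u - a / u) ^ 2)
    rw [← Real.exp_add]
    congr 1
    field_simp
    ring

/-- the measure `(2 / √π) exp(-u²) du` on the positive reals -/
noncomputable def mu0 : Measure ℝ :=
  (volume.restrict (Ioi (0 : ℝ))).withDensity
    (fun u => ENNReal.ofReal (2 / √Real.pi * Real.exp (-u ^ 2)))

theorem meas_dens : Measurable (fun u : ℝ => 2 / √Real.pi * Real.exp (-u ^ 2)) := by fun_prop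

theorem meas_map : Measurable (fun u : ℝ => 1 / (4 * u ^ 2)) := by fun_prop

theorem int_mu0 (g : ℝ → ℝ) : ∫ u, g u ∂mu0 =
    ∫ u in Ioi (0 : ℝ), (2 / √Real.pi * Real.exp (-u ^ 2)) * g u := by
  unfold mu0
  rw [integral_withDensity_eq_integral_toReal_smul meas_dens.ennreal_ofReal
    (Eventually.of_forall fun u => ENNReal.ofReal_lt_top)]
  refine integral_congr_ae (Eventually.of_forall fun u => ?_)
  show (ENNReal.ofReal _).toReal • g u = _
  rw [ENNReal.toReal_ofReal (by positivity), smul_eq_mul]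

theorem lap0 {x : ℝ} (hx : 0 ≤ x) :
    ∫ u, Real.exp (-(x * (1 / (4 * u ^ 2)))) ∂mu0 = Real.exp (-√x) := by
  rw [int_mu0]
  have h := int_K (a := √x / 2) (by positivity)
  have h2 : ∀ u ∈ Ioi (0 : ℝ), (2 / √Real.pi * Real.exp (-u ^ 2)) * Real.exp (-(x * (1 / (4 * u ^ 2))))
      = 2 / √Real.pi * Real.exp (-u ^ 2 - (√x / 2) ^ 2 / u ^ 2) := by
    intro u hu
    rw [mul_assoc, ← Real.exp_add]
    congr 2
    rw [div_pow, Real.sq_sqrt hx]
    have hu' : u ≠ 0 := ne_of_gt hu
    field_simp
    ring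
  rw [setIntegral_congr_fun measurableSet_Ioi h2, integral_const_mul, h]
  have hpi : √Real.pi ≠ 0 := by positivity
  have : 2 * (√x / 2) = √x := by ring
  rw [this]
  field_simp

theorem mass0 : mu0 univ = 1 := by
  have h := lap0 (x := 0) le_rfl
  simp only [zero_mul, neg_zero, Real.exp_zero, Real.sqrt_zero, integral_const, smul_eq_mul,
    mul_one, Measure.real] at h
  have h2 : mu0 univ ≠ ⊤ := by
    intro h3
    rw [h3] at h
    simp at h
  rw [← ENNReal.toReal_eq_one_iff]
  exact h

end N1i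

/-- existence of the stable law of index one half -/
theorem levy_exists_i : ∃ ν : Measure ℝ, IsLevy ν := by
  refine ⟨N1i.mu0.map (fun u => 1 / (4 * u ^ 2)), ⟨⟨?_⟩, ?_, ?_⟩⟩
  · rw [Measure.map_apply N1i.meas_map MeasurableSet.univ, preimage_univ, N1i.mass0]
  · rw [Measure.map_apply N1i.meas_map measurableSet_Iic]
    unfold N1i.mu0
    apply withDensity_absolutelyContinuous
    rw [Measure.restrict_apply (N1i.meas_map measurableSet_Iic)]
    have : (fun u : ℝ => 1 / (4 * u ^ 2)) ⁻¹' Iic 0 ∩ Ioi 0 = ∅ := by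
      ext u
      simp only [mem_inter_iff, mem_preimage, mem_Iic, mem_Ioi, mem_empty_iff_false, iff_false,
        not_and, not_lt]
      intro h
      by_contra hu
      push Not at hu
      have : 0 < 1 / (4 * u ^ 2) := by positivity
      linarith
    rw [this, measure_empty]
  · intro x hx
    rw [integral_map N1i.meas_map.aemeasurable (by fun_prop)]
    exact N1i.lap0 hx

end Pool.Agent.J4.H93.SR
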